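import Pool.Agent.H32Z.Reilly

set_option autoImplicit false
set_option linter.unusedSectionVars false

namespace Pool.Agent.H32Z.FIS

open FreeGroup
open scoped Pointwise

/-- words -/
abbrev W := List (ℕ × Bool)

/-- all letters of `v` come from `Y` -/
def On (Y : List W) (v : List (W × Bool)) : Prop := ∀ x ∈ v, x.1 ∈ Y

/-- `u` lies in the inverse subsemigroup generated by `Y` -/
def GenBy (Y : List W) (u : W) : Prop := ∃ v, v ≠ [] ∧ On Y v ∧ M (ev id v) = M u

/-- failure of Reilly's condition for the set `Y` at the letter `y` -/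
def BadY (Y : List W) (y : W × Bool) : Prop :=
  ∀ t ∈ T (lam id y), ∃ w, On Y w ∧ IsReduced (fl y :: w) ∧ w ≠ [] ∧ t ∈ T (ev id w)

section transfer
variable {Z : Type} {γ : Z → W} {bm : Z × Bool → W × Bool} {Y : List W}

lemma ev_map (h : ∀ x, lam γ x = lam id (bm x)) (v : List (Z × Bool)) :
    ev γ v = ev id (v.map bm) := by
  induction v with
  | nil => rfl
  | cons x v ih => rw [List.map_cons, ev_cons, ev_cons, ih, h]

lemma red_map (hi : Function.Injective bm) (hf : ∀ x, bm (fl x) = fl (bm x)) :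
    ∀ v : List (Z × Bool), IsReduced (v.map bm) ↔ IsReduced v
  | [] => by simp
  | [a] => by simp
  | a :: b :: v => by
    have ih := red_map hi hf (b :: v)
    rw [List.map_cons] at ih
    rw [List.map_cons, List.map_cons, red_cons_cons, red_cons_cons, ih, ← hf]
    simp only [ne_eq, hi.eq_iff]

lemma on_map (hr : ∀ x : W × Bool, x.1 ∈ Y → ∃ z, bm z = x) {w : List (W × Bool)} (hw : On Y w) :
    ∃ v : List (Z × Bool), v.map bm = w := by
  induction w with
  | nil => exact ⟨[], rfl⟩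
  | cons x w ih =>
    obtain ⟨v, rfl⟩ := ih (fun y hy => hw y (List.mem_cons_of_mem _ hy))
    obtain ⟨z, rfl⟩ := hr x (hw x (by simp))
    exact ⟨z :: v, rfl⟩

lemma bad_iff (h : ∀ x, lam γ x = lam id (bm x)) (hi : Function.Injective bm)
    (hf : ∀ x, bm (fl x) = fl (bm x)) (hr : ∀ x : W × Bool, x.1 ∈ Y ↔ ∃ z, bm z = x)
    (y : Z × Bool) : Bad γ y ↔ BadY Y (bm y) := by
  unfold Bad BadY
  rw [h]
  refine forall_congr' fun t => imp_congr_right fun _ => ?_
  constructor
  · rintro ⟨w, h1, h2, h3⟩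
    refine ⟨w.map bm, ?_, ?_, by simpa using h2, by rw [← ev_map h]; exact h3⟩
    · intro x hx
      obtain ⟨z, -, rfl⟩ := List.mem_map.1 hx
      exact (hr _).2 ⟨z, rfl⟩
    · rw [← hf, ← List.map_cons, red_map hi hf]; exact h1
  · rintro ⟨w, h0, h1, h2, h3⟩
    obtain ⟨v, rfl⟩ := on_map (fun x hx => (hr x).1 hx) h0
    rw [← hf, ← List.map_cons, red_map hi hf] at h1
    exact ⟨v, h1, by simpa using h2, by rw [ev_map h]; exact h3⟩

end transfer

/-- the free inverse semigroup -/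
def FI (Z : Type) : Set (Set (FreeGroup Z) × FreeGroup Z) := {p | ∃ w, w ≠ [] ∧ p = M w}

/-- generated inverse subsemigroup -/
def Gen (gens : List W) : Set (Set (FreeGroup ℕ) × FreeGroup ℕ) :=
  {q | ∀ S : Set (Set (FreeGroup ℕ) × FreeGroup ℕ), (∀ w ∈ gens, M w ∈ S) →
    (∀ x ∈ S, ∀ y ∈ S, mul x y ∈ S) → (∀ x ∈ S, inv x ∈ S) → q ∈ S}

lemma mem_Gen {gens : List W} {q : Set (FreeGroup ℕ) × FreeGroup ℕ} :
    q ∈ Gen gens ↔ ∃ v, v ≠ [] ∧ On gens v ∧ q = M (ev id v) := by
  constructor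
  · intro h
    refine h {q | ∃ v, v ≠ [] ∧ On gens v ∧ q = M (ev id v)} ?_ ?_ ?_
    · intro w hw
      refine ⟨[(w, true)], by simp, ?_, ?_⟩
      · intro x hx
        rw [List.mem_singleton] at hx
        subst hx; exact hw
      · rw [ev_single]; rfl
    · rintro _ ⟨v, h1, h2, rfl⟩ _ ⟨v', -, h4, rfl⟩
      refine ⟨v ++ v', by simp [h1], ?_, by rw [ev_append, M_append]⟩
      intro x hx
      rcases List.mem_append.1 hx with hx | hx
      · exact h2 x hx
      · exact h4 x hx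
    · rintro _ ⟨v, h1, h2, rfl⟩
      refine ⟨invRev v, ?_, ?_, by rw [ev_invRev, M_invRev]⟩
      · intro h; apply h1
        rw [← invRev_invRev (L₁ := v), h, invRev_empty]
      · intro x hx
        simp only [invRev, List.mem_reverse, List.mem_map] at hx
        obtain ⟨y, hy, rfl⟩ := hx
        exact h2 y hy
  · rintro ⟨v, h1, h2, rfl⟩ S hg hm hi
    have hl : ∀ x : W × Bool, x.1 ∈ gens → M (lam id x) ∈ S := by
      rintro ⟨u, b⟩ hu
      cases b
      · have := hi _ (hg u hu)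
        rw [← M_invRev] at this
        exact this
      · exact hg u hu
    induction v with
    | nil => exact absurd rfl h1
    | cons x v ih =>
      by_cases hv : v = []
      · subst hv
        rw [ev_single]; exact hl x (h2 x (by simp))
      · rw [ev_cons, M_append]
        exact hm _ (hl x (h2 x (by simp))) _ (ih hv fun y hy => h2 y (List.mem_cons_of_mem _ hy))

/-- the generated inverse subsemigroup is free -/
def IsFree (gens : List W) : Prop :=
  ∃ (Z : Type) (φ : Set (FreeGroup Z) × FreeGroup Z → Set (FreeGroup ℕ) × FreeGroup ℕ),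
    Set.InjOn φ (FI Z) ∧ φ '' FI Z = Gen gens ∧
      ∀ x ∈ FI Z, ∀ y ∈ FI Z, φ (mul x y) = mul (φ x) (φ y)

lemma isFree_of {gens Y : List W} (hY : ∀ u ∈ Y, u ∈ gens) (h1 : ∀ u ∈ gens, GenBy Y u)
    (h2 : ∀ y : W × Bool, y.1 ∈ Y → ¬ BadY Y y) : IsFree gens := by
  classical
  let Z := {u : W // u ∈ Y}
  let γ : Z → W := Subtype.val
  let bm : Z × Bool → W × Bool := fun x => (x.1.1, x.2)
  have h : ∀ x, lam γ x = lam id (bm x) := fun x => rfl
  have hi : Function.Injective bm := by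
    rintro ⟨a, b⟩ ⟨c, d⟩ h
    simp only [bm, Prod.mk.injEq] at h
    exact Prod.ext (Subtype.ext h.1) h.2
  have hf : ∀ x, bm (fl x) = fl (bm x) := fun x => rfl
  have hr : ∀ x : W × Bool, x.1 ∈ Y ↔ ∃ z, bm z = x := by
    intro x
    constructor
    · intro hx; exact ⟨(⟨x.1, hx⟩, x.2), rfl⟩
    · rintro ⟨z, rfl⟩; exact z.1.2
  have hfree : Free γ := free_of_not_bad γ fun y hy =>
    h2 (bm y) y.1.2 ((bad_iff h hi hf hr y).1 hy)
  let φ : Set (FreeGroup Z) × FreeGroup Z → Set (FreeGroup ℕ) × FreeGroup ℕ :=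
    fun p => if hp : ∃ v, M v = p then M (ev γ hp.choose) else M []
  have hφ : ∀ v, φ (M v) = M (ev γ v) := by
    intro v
    have hp : ∃ v', M v' = M v := ⟨v, rfl⟩
    simp only [φ, dif_pos hp]
    exact M_ev_congr γ hp.choose_spec
  refine ⟨Z, φ, ?_, ?_, ?_⟩
  · rintro _ ⟨v, hv, rfl⟩ _ ⟨v', hv', rfl⟩ h
    rw [hφ, hφ] at h
    exact hfree v v' hv hv' h
  · apply Set.Subset.antisymm
    · rintro _ ⟨_, ⟨v, hv, rfl⟩, rfl⟩
      rw [hφ, ev_map h]
      refine mem_Gen.2 ⟨v.map bm, by simpa using hv, ?_, rfl⟩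
      intro x hx
      obtain ⟨z, -, rfl⟩ := List.mem_map.1 hx
      exact hY _ z.1.2
    · intro q hq
      refine hq _ ?_ ?_ ?_
      · intro u hu
        obtain ⟨w, hw1, hw2, hw3⟩ := h1 u hu
        obtain ⟨v, rfl⟩ := on_map (fun x hx => (hr x).1 hx) hw2
        exact ⟨M v, ⟨v, by simpa using hw1, rfl⟩, by rw [hφ, ev_map h, hw3]⟩
      · rintro _ ⟨_, ⟨v, hv, rfl⟩, rfl⟩ _ ⟨_, ⟨v', hv', rfl⟩, rfl⟩
        exact ⟨M (v ++ v'), ⟨_, by simp [hv], rfl⟩, by rw [hφ, hφ, hφ, ev_append, M_append]⟩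
      · rintro _ ⟨_, ⟨v, hv, rfl⟩, rfl⟩
        refine ⟨M (invRev v), ⟨_, ?_, rfl⟩, by rw [hφ, hφ, ev_invRev, M_invRev]⟩
        intro h; apply hv
        rw [← invRev_invRev (L₁ := v), h, invRev_empty]
  · rintro _ ⟨v, -, rfl⟩ _ ⟨v', -, rfl⟩
    rw [← M_append, hφ, hφ, hφ, ev_append, M_append]

lemma of_isFree {gens : List W} (h : IsFree gens) : ∃ Y : List W, Y.Sublist gens ∧
    (∀ u ∈ gens, GenBy Y u) ∧ ∀ y : W × Bool, y.1 ∈ Y → ¬ BadY Y y := by
  classical
  obtain ⟨Z, φ, hinj, himg, hmul⟩ := h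
  have hm : ∀ v v' : List (Z × Bool), v ≠ [] → v' ≠ [] →
      φ (M (v ++ v')) = mul (φ (M v)) (φ (M v')) := by
    intro v v' hv hv'
    rw [M_append]
    exact hmul _ ⟨v, hv, rfl⟩ _ ⟨v', hv', rfl⟩
  have hne : ∀ v : List (Z × Bool), v ≠ [] → invRev v ≠ [] := by
    intro v hv h; apply hv
    rw [← invRev_invRev (L₁ := v), h, invRev_empty]
  have hinv : ∀ v : List (Z × Bool), v ≠ [] → φ (M (invRev v)) = inv (φ (M v)) := by
    intro v hv
    apply inv_unique
    · rw [← hm _ _ hv (hne v hv), ← hm _ _ (by simp [hv]) hv, M_reg]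
    · have := M_reg (invRev v)
      rw [invRev_invRev] at this
      rw [← hm _ _ (hne v hv) hv, ← hm _ _ (by simp [hv]) (hne v hv), this]
  have hsurj : ∀ v : List (W × Bool), v ≠ [] → On gens v →
      ∃ w : List (Z × Bool), w ≠ [] ∧ φ (M w) = M (ev id v) := by
    intro v h1 h2
    have : M (ev id v) ∈ φ '' FI Z := by rw [himg]; exact mem_Gen.2 ⟨v, h1, h2, rfl⟩
    obtain ⟨_, ⟨w, hw, rfl⟩, h⟩ := this
    exact ⟨w, hw, h⟩
  have hprime : ∀ (x : Z × Bool) (v : List (W × Bool)), v ≠ [] → On gens v →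
      φ (M [x]) = M (ev id v) → ∃ c : W × Bool, c.1 ∈ gens ∧ φ (M [x]) = M (lam id c) := by
    intro x v
    induction v with
    | nil => intro h; exact absurd rfl h
    | cons c v ih =>
      intro _ h2 h3
      have hc : c.1 ∈ gens := h2 c (by simp)
      by_cases hv : v = []
      · subst hv
        exact ⟨c, hc, by rw [h3, ev_single]⟩
      · have h2' : On gens v := fun y hy => h2 y (List.mem_cons_of_mem _ hy)
        obtain ⟨a, ha, ha'⟩ := hsurj [c] (by simp) (fun y hy => by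
          rw [List.mem_singleton] at hy; subst hy; exact hc)
        obtain ⟨b, hb, hb'⟩ := hsurj v hv h2'
        rw [ev_single] at ha'
        rw [ev_cons, M_append, ← ha', ← hb', ← hm _ _ ha hb] at h3
        have h4 := hinj ⟨[x], by simp, rfl⟩ ⟨a ++ b, by simp [ha], rfl⟩ h3
        rw [M_append] at h4
        rcases prime_gen ha h4.symm with h5 | h5
        · exact ⟨c, hc, by rw [← h5, ha']⟩
        · exact ih hv h2' (by rw [← h5, hb'])
  have hc : ∀ z : Z, ∃ c : W × Bool, c.1 ∈ gens ∧ φ (M [(z, true)]) = M (lam id c) := by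
    intro z
    have : φ (M [(z, true)]) ∈ Gen gens := by
      rw [← himg]; exact ⟨_, ⟨_, by simp, rfl⟩, rfl⟩
    obtain ⟨v, h1, h2, h3⟩ := mem_Gen.1 this
    exact hprime _ v h1 h2 h3
  choose c hc1 hc2 using hc
  let γ : Z → W := fun z => lam id (c z)
  let bm : Z × Bool → W × Bool := fun x => bif x.2 then c x.1 else fl (c x.1)
  have h : ∀ x, lam γ x = lam id (bm x) := by
    rintro ⟨z, b⟩
    cases b
    · simp only [bm, cond_false, lam_fl]; rfl
    · rfl
  have hf : ∀ x, bm (fl x) = fl (bm x) := by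
    rintro ⟨z, b⟩
    cases b <;> simp [bm, fl]
  have hφ1 : ∀ x, φ (M [x]) = M (lam γ x) := by
    rintro ⟨z, b⟩
    cases b
    · have : [(z, false)] = invRev [(z, true)] := by simp [invRev]
      rw [this, hinv _ (by simp), hc2, ← M_invRev]; rfl
    · exact hc2 z
  have hφ : ∀ v, v ≠ [] → φ (M v) = M (ev γ v) := by
    intro v
    induction v with
    | nil => intro h; exact absurd rfl h
    | cons x v ih =>
      intro _
      by_cases hv : v = []
      · subst hv; rw [ev_single, hφ1]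
      · have := hm [x] v (by simp) hv
        rw [List.singleton_append] at this
        rw [this, hφ1, ih hv, ev_cons, M_append]
  have hfree : Free γ := by
    intro v v' hv hv' h
    rw [← hφ v hv, ← hφ v' hv'] at h
    exact hinj ⟨v, hv, rfl⟩ ⟨v', hv', rfl⟩ h
  have hi : Function.Injective bm := by
    intro x x' hx
    have := hfree [x] [x'] (by simp) (by simp) (by rw [ev_single, ev_single, h, h, hx])
    exact mk_single_inj (congrArg Prod.snd this)
  let Y : List W := gens.filter fun u => ∃ z, (c z).1 = u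
  have hr : ∀ x : W × Bool, x.1 ∈ Y ↔ ∃ z, bm z = x := by
    intro x
    simp only [Y, List.mem_filter, decide_eq_true_eq]
    constructor
    · rintro ⟨-, z, hz⟩
      by_cases hb : (c z).2 = x.2
      · exact ⟨(z, true), Prod.ext hz hb⟩
      · refine ⟨(z, false), Prod.ext hz ?_⟩
        simp only [bm, cond_false, fl]
        cases h1 : (c z).2 <;> cases h2 : x.2 <;> simp_all
    · rintro ⟨⟨z, b⟩, rfl⟩
      cases b
      · exact ⟨hc1 z, z, rfl⟩
      · exact ⟨hc1 z, z, rfl⟩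
  refine ⟨Y, List.filter_sublist, ?_, ?_⟩
  · intro u hu
    obtain ⟨w, hw, hw'⟩ := hsurj [(u, true)] (by simp) (fun y hy => by
      rw [List.mem_singleton] at hy; subst hy; exact hu)
    refine ⟨w.map bm, by simpa using hw, ?_, ?_⟩
    · intro x hx
      obtain ⟨z, -, rfl⟩ := List.mem_map.1 hx
      exact (hr _).2 ⟨z, rfl⟩
    · rw [← ev_map h, ← hφ w hw, hw', ev_single]; rfl
  · intro y hy hb
    obtain ⟨z, rfl⟩ := (hr y).1 hy
    exact not_bad_of_free γ hfree z ((bad_iff h hi hf hr z).2 hb)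

theorem isFree_iff {gens : List W} : IsFree gens ↔ ∃ Y : List W, Y.Sublist gens ∧
    (∀ u ∈ gens, GenBy Y u) ∧ ∀ y : W × Bool, y.1 ∈ Y → ¬ BadY Y y :=
  ⟨of_isFree, fun ⟨_, h1, h2, h3⟩ => isFree_of (fun _ hu => h1.subset hu) h2 h3⟩

end Pool.Agent.H32Z.FIS
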