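import Pool.Agent.H32Z.Basis

set_option autoImplicit false
set_option linter.unusedSectionVars false

namespace Pool.Agent.H32Z.FIS

open FreeGroup
open scoped Pointwise

/-- letters over `Y` -/
def letters (Y : List W) : List (W × Bool) := Y.flatMap fun u => [(u, true), (u, false)]

lemma mem_letters {Y : List W} {x : W × Bool} : x ∈ letters Y ↔ x.1 ∈ Y := by
  obtain ⟨u, b⟩ := x
  simp only [letters, List.mem_flatMap, List.mem_cons, Prod.mk.injEq, List.not_mem_nil, or_false]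
  constructor
  · rintro ⟨a, ha, ⟨rfl, -⟩ | ⟨rfl, -⟩⟩ <;> exact ha
  · intro h
    refine ⟨u, h, ?_⟩
    cases b <;> simp

/-! ### Membership in a finitely generated inverse subsemigroup -/

/-- the letter `x` can be read from the vertex `p` inside the tree of `u` -/
def Allowed (u p : W) (x : W × Bool) : Prop :=
  ∀ s ∈ (lam id x).inits, ∃ q ∈ u.inits, mk (p ++ s) = mk q

def ClosedA (Y : List W) (u : W) (C : List W) : Prop :=
  [] ∈ C ∧ ∀ p ∈ C, ∀ x ∈ letters Y, Allowed u p x → ∀ q ∈ u.inits,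
    mk (p ++ lam id x) = mk q → q ∈ C

def ConclA (Y : List W) (u : W) (C : List W) : Prop :=
  (∃ p ∈ C, mk p = mk u) ∧ ∀ q ∈ u.inits, ∃ p ∈ C, ∃ x ∈ letters Y, Allowed u p x ∧
    ∃ s ∈ (lam id x).inits, mk (p ++ s) = mk q

lemma allowed_iff {u p : W} {x : W × Bool} : Allowed u p x ↔ mk p • T (lam id x) ⊆ T u := by
  constructor
  · rintro h _ ⟨t, ht, rfl⟩
    obtain ⟨s, hs, rfl⟩ := mem_T.1 ht
    obtain ⟨q, hq, h2⟩ := h s (by simpa using hs)
    refine mem_T.2 ⟨q, by simpa using hq, ?_⟩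
    rw [← h2, mk_app]; rfl
  · intro h s hs
    obtain ⟨q, hq, h2⟩ := mem_T.1 (h ⟨mk s, mem_T.2 ⟨s, by simpa using hs, rfl⟩, rfl⟩)
    exact ⟨q, by simpa using hq, by rw [h2, mk_app]; rfl⟩

lemma On.append {Y : List W} {v v' : List (W × Bool)} (h : On Y v) (h' : On Y v') :
    On Y (v ++ v') := by
  intro x hx
  rcases List.mem_append.1 hx with hx | hx
  · exact h x hx
  · exact h' x hx

lemma On.invRev {Y : List W} {v : List (W × Bool)} (h : On Y v) : On Y (invRev v) := by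
  intro x hx
  simp only [FreeGroup.invRev, List.mem_reverse, List.mem_map] at hx
  obtain ⟨y, hy, rfl⟩ := hx
  exact h y hy

lemma genBy_iff {Y : List W} {u : W} :
    GenBy Y u ↔ ∀ C ∈ u.inits.sublists', ClosedA Y u C → ConclA Y u C := by
  classical
  constructor
  · rintro ⟨v, hv, hon, hM⟩ C - ⟨h0, hC⟩
    simp only [M, Prod.mk.injEq] at hM
    have hall : ∀ v1 x v2, v = v1 ++ x :: v2 → ∀ p, mk p = mk (ev id v1) → Allowed u p x := by
      intro v1 x v2 h p hp
      rw [allowed_iff, hp, ← hM.1]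
      intro g hg
      exact (mem_T_ev id).2 (Or.inr ⟨v1, x, v2, h, hg⟩)
    have key : ∀ v1, v1 <+: v → ∃ p ∈ C, mk p = mk (ev id v1) := by
      intro v1
      induction v1 using List.reverseRecOn with
      | nil => intro _; exact ⟨[], h0, rfl⟩
      | append_singleton v1 x ih =>
        intro h
        obtain ⟨p, hp, h2⟩ := ih ((List.prefix_append _ _).trans h)
        obtain ⟨v2, hv2⟩ := h
        have h3 := hall v1 x v2 (by rw [← hv2]; simp) p h2
        obtain ⟨q, hq, h4⟩ := h3 (lam id x) (by simp)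
        refine ⟨q, hC p hp x (mem_letters.2 (hon x (by rw [← hv2]; simp))) h3 q hq h4, ?_⟩
        rw [← h4, ev_append, ev_single, mk_app, mk_app, h2]
    refine ⟨?_, ?_⟩
    · obtain ⟨p, hp, h⟩ := key v List.prefix_rfl
      exact ⟨p, hp, h.trans hM.2⟩
    · intro q hq
      have : mk q ∈ T (ev id v) := by
        rw [hM.1]; exact mem_T.2 ⟨q, by simpa using hq, rfl⟩
      obtain ⟨v1, x, v2, h1, t, ht, h2⟩ := mem_T_ev' id hv this
      obtain ⟨p, hp, h3⟩ := key v1 ⟨x :: v2, h1.symm⟩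
      obtain ⟨s, hs, rfl⟩ := mem_T.1 ht
      refine ⟨p, hp, x, mem_letters.2 (hon x (by rw [h1]; simp)), hall v1 x v2 h1 p h3, s,
        by simpa using hs, ?_⟩
      rw [mk_app, h3]; exact h2
  · intro h
    let C := u.inits.filter fun p => ∃ v, On Y v ∧ T (ev id v) ⊆ T u ∧ mk (ev id v) = mk p
    have hmem : ∀ p, p ∈ C ↔ p ∈ u.inits ∧
        ∃ v, On Y v ∧ T (ev id v) ⊆ T u ∧ mk (ev id v) = mk p := by
      intro p; simp only [C, List.mem_filter, decide_eq_true_eq]
    have hstep : ∀ (v : List (W × Bool)) (p : W) (x : W × Bool), T (ev id v) ⊆ T u →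
        mk (ev id v) = mk p → Allowed u p x → T (ev id (v ++ [x])) ⊆ T u := by
      intro v p x h1 h2 h3
      rw [ev_append, ev_single, T_append, h2]
      exact Set.union_subset h1 (allowed_iff.1 h3)
    have hsing : ∀ x ∈ letters Y, On Y [x] := by
      intro x hx y hy
      rw [List.mem_singleton] at hy
      subst hy; exact mem_letters.1 hx
    obtain ⟨⟨p0, hp0, he⟩, hcov⟩ := h C (List.mem_sublists'.2 List.filter_sublist) (by
      refine ⟨(hmem _).2 ⟨by simp, [], by simp [On], ?_, rfl⟩, ?_⟩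
      · rw [ev_nil, T_nil]
        rintro g rfl; exact one_mem_T _
      · intro p hp x hx hal q hq h2
        obtain ⟨-, v, h3, h4, h5⟩ := (hmem p).1 hp
        refine (hmem q).2 ⟨hq, v ++ [x], h3.append (hsing x hx), hstep v p x h4 h5 hal, ?_⟩
        rw [← h2, ev_append, ev_single, mk_app, mk_app, h5])
    obtain ⟨-, v0, h01, h02, h03⟩ := (hmem p0).1 hp0
    have hq : ∀ q : W, ∃ v, v ≠ [] ∧ On Y v ∧ T (ev id v) ⊆ T u ∧
        (q ∈ u.inits → mk q ∈ T (ev id v)) := by
      have h1 : ∀ q ∈ u.inits, ∃ v, v ≠ [] ∧ On Y v ∧ T (ev id v) ⊆ T u ∧ mk q ∈ T (ev id v) := by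
        intro q hq
        obtain ⟨p, hp, x, hx, hal, s, hs, h2⟩ := hcov q hq
        obtain ⟨-, v, h3, h4, h5⟩ := (hmem p).1 hp
        refine ⟨v ++ [x], by simp, h3.append (hsing x hx), hstep v p x h4 h5 hal, ?_⟩
        refine (mem_T_ev id).2 (Or.inr ⟨v, x, [], rfl, mk s,
          mem_T.2 ⟨s, by simpa using hs, rfl⟩, ?_⟩)
        rw [← h2, mk_app, h5]; rfl
      intro q
      by_cases hq : q ∈ u.inits
      · obtain ⟨v, a, b, c, d⟩ := h1 q hq
        exact ⟨v, a, b, c, fun _ => d⟩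
      · obtain ⟨v, a, b, c, -⟩ := h1 [] (by simp)
        exact ⟨v, a, b, c, fun h => absurd h hq⟩
    choose c hc1 hc2 hc3 hc4 using hq
    have hmem0 : c [] ∈ u.inits.map c := List.mem_map.2 ⟨[], by simp, rfl⟩
    refine ⟨loop (u.inits.map c) ++ v0, by simp [loop_ne_nil hmem0 (hc1 _)], On.append ?_ h01, ?_⟩
    · intro x hx
      simp only [loop, List.mem_flatMap] at hx
      obtain ⟨w, hw, hx⟩ := hx
      obtain ⟨q, -, rfl⟩ := List.mem_map.1 hw
      exact ((hc2 q).append (hc2 q).invRev) x hx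
    · rw [ev_append, ev_loop]
      simp only [M, T_append, mk_app, mk_loop, one_smul, one_mul, h03, he, Prod.mk.injEq, and_true]
      apply Set.Subset.antisymm
      · refine Set.union_subset ?_ h02
        intro g hg
        rcases mem_T_loop.1 hg with rfl | ⟨w, hw, hg⟩
        · exact one_mem_T _
        · obtain ⟨w', hw', rfl⟩ := List.mem_map.1 hw
          obtain ⟨q, -, rfl⟩ := List.mem_map.1 hw'
          exact hc3 q hg
      · intro g hg
        obtain ⟨q, hq, rfl⟩ := mem_T.1 hg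
        left
        have hq' : q ∈ u.inits := by simpa using hq
        exact mem_T_loop.2 (Or.inr ⟨_, List.mem_map.2 ⟨c q, List.mem_map.2 ⟨q, hq', rfl⟩, rfl⟩,
          hc4 q hq'⟩)

/-! ### The automaton of reduced words -/

/-- states -/
abbrev St := Bool × (W × Bool) × W

def states (Y : List W) : List St :=
  (letters Y).flatMap fun x => (lam id x).tails.flatMap fun s => [(false, x, s), (true, x, s)]

lemma mem_states {Y : List W} {p : St} : p ∈ states Y ↔ p.2.1.1 ∈ Y ∧ p.2.2 <:+ lam id p.2.1 := by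
  obtain ⟨f, x, s⟩ := p
  simp only [states, List.mem_flatMap, mem_letters, List.mem_tails, List.mem_cons, Prod.mk.injEq,
    List.not_mem_nil, or_false]
  constructor
  · rintro ⟨a, ha, b, hb, ⟨-, rfl, rfl⟩ | ⟨-, rfl, rfl⟩⟩ <;> exact ⟨ha, hb⟩
  · rintro ⟨h1, h2⟩
    refine ⟨x, h1, s, h2, ?_⟩
    cases f <;> simp

inductive Path (Y : List W) : St → St → W → Prop
  | nil (p : St) : Path Y p p []
  | lett (f : Bool) (x : W × Bool) (a : ℕ × Bool) (s : W) (q : St) (w : W) :
      Path Y (f, x, s) q w → Path Y (f, x, a :: s) q (a :: w)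
  | eps (f : Bool) (x x' : W × Bool) (q : St) (w : W) : x'.1 ∈ Y → x' ≠ fl x →
      Path Y (true, x', lam id x') q w → Path Y (f, x, []) q w

variable {Y : List W}

lemma Path.trans {p q r : St} {w w' : W} (h : Path Y p q w) (h' : Path Y q r w') :
    Path Y p r (w ++ w') := by
  induction h with
  | nil p => exact h'
  | lett f x a s q w _ ih => exact Path.lett _ _ _ _ _ _ (ih h')
  | eps f x x' q w h1 h2 _ ih => exact Path.eps _ _ _ _ _ h1 h2 (ih h')

lemma Path.mem {p q : St} {w : W} (h : Path Y p q w) (hp : p ∈ states Y) : q ∈ states Y := by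
  induction h with
  | nil p => exact hp
  | lett f x a s q w _ ih =>
    apply ih
    rw [mem_states] at hp ⊢
    exact ⟨hp.1, (List.suffix_cons a s).trans hp.2⟩
  | eps f x x' q w h1 h2 _ ih => exact ih (mem_states.2 ⟨h1, List.suffix_rfl⟩)

lemma Path.split {p q : St} {w : W} (h : Path Y p q w) : ∀ (w1 : W) (a : ℕ × Bool) (w2 : W),
    w = w1 ++ a :: w2 → ∃ f x s, Path Y p (f, x, a :: s) w1 ∧ Path Y (f, x, s) q w2 := by
  induction h with
  | nil p => intro w1 a w2 h; simp at h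
  | lett f x b s q w hp ih =>
    intro w1 a w2 h
    cases w1 with
    | nil =>
      simp only [List.nil_append, List.cons.injEq] at h
      obtain ⟨rfl, rfl⟩ := h
      exact ⟨f, x, s, Path.nil _, hp⟩
    | cons c w1 =>
      simp only [List.cons_append, List.cons.injEq] at h
      obtain ⟨rfl, rfl⟩ := h
      obtain ⟨f', x', s', h1, h2⟩ := ih w1 a w2 rfl
      exact ⟨f', x', s', Path.lett _ _ _ _ _ _ h1, h2⟩
  | eps f x x' q w h1 h2 _ ih =>
    intro w1 a w2 h
    obtain ⟨f', x'', s', h3, h4⟩ := ih w1 a w2 h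
    exact ⟨f', x'', s', Path.eps _ _ _ _ _ h1 h2 h3, h4⟩

lemma Path.read (f : Bool) (x : W × Bool) (s r : W) : Path Y (f, x, s ++ r) (f, x, r) s := by
  induction s with
  | nil => exact Path.nil _
  | cons a s ih => exact Path.lett _ _ _ _ _ _ ih

lemma Path.sem {p q : St} {w : W} (h : Path Y p q w) : (q.1 = p.1 ∧ w <+: p.2.2) ∨
    (q.1 = true ∧ ∃ ws, ws ≠ [] ∧ On Y ws ∧ IsReduced (p.2.1 :: ws) ∧
      ∃ r, r <+: ev id ws ∧ w = p.2.2 ++ r) := by
  induction h with
  | nil p => exact Or.inl ⟨rfl, List.nil_prefix⟩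
  | lett f x a s q w _ ih =>
    rcases ih with ⟨h1, h2⟩ | ⟨h1, ws, h2, h3, h4, r, h5, h6⟩
    · exact Or.inl ⟨h1, (List.prefix_cons_inj a).2 h2⟩
    · exact Or.inr ⟨h1, ws, h2, h3, h4, r, h5, by simp only at h6 ⊢; rw [h6]; rfl⟩
  | eps f x x' q w h1 h2 _ ih =>
    right
    rcases ih with ⟨h3, h4⟩ | ⟨h3, ws, -, h5, h6, r, h7, h8⟩
    · refine ⟨h3, [x'], by simp, ?_, red_cons_cons.2 ⟨h2, IsReduced.singleton⟩, w, ?_, rfl⟩
      · intro y hy
        rw [List.mem_singleton] at hy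
        subst hy; exact h1
      · rw [ev_single]; exact h4
    · refine ⟨h3, x' :: ws, by simp, ?_, red_cons_cons.2 ⟨h2, h6⟩, lam id x' ++ r, ?_, h8⟩
      · intro y hy
        rcases List.mem_cons.1 hy with rfl | hy
        · exact h1
        · exact h5 y hy
      · rw [ev_cons]; exact (List.prefix_append_right_inj _).2 h7

lemma path_of_word : ∀ (ws : List (W × Bool)) (f : Bool) (z : W × Bool) (s r : W), ws ≠ [] →
    On Y ws → IsReduced (z :: ws) → r <+: ev id ws →
    ∃ q : St, q.1 = true ∧ Path Y (f, z, s) q (s ++ r) := by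
  intro ws
  induction ws with
  | nil => intro f z s r h; exact absurd rfl h
  | cons x ws ih =>
    intro f z s r _ hon hred hr
    obtain ⟨h1, h2⟩ := red_cons_cons.1 hred
    have hx : x.1 ∈ Y := hon x (by simp)
    have h0 : Path Y (f, z, s) (f, z, []) s := by
      have := Path.read (Y := Y) f z s []
      rwa [List.append_nil] at this
    by_cases hp : r <+: lam id x
    · obtain ⟨t, ht⟩ := hp
      refine ⟨(true, x, t), rfl, h0.trans (Path.eps _ _ x _ _ hx h1 ?_)⟩
      rw [← ht]; exact Path.read _ _ _ _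
    · rw [ev_cons] at hr
      rcases List.prefix_or_prefix_of_prefix hr (List.prefix_append _ _) with h | ⟨r', rfl⟩
      · exact absurd h hp
      · have hr' : r' <+: ev id ws := (List.prefix_append_right_inj _).1 hr
        have hws : ws ≠ [] := by
          rintro rfl
          rw [ev_nil, List.prefix_nil] at hr'
          subst hr'
          exact hp (by simp)
        obtain ⟨q, hq, hpath⟩ := ih true x (lam id x) r' hws
          (fun y hy => hon y (List.mem_cons_of_mem _ hy)) h2 hr'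
        exact ⟨q, hq, h0.trans (Path.eps _ _ x _ _ hx h1 hpath)⟩

lemma badY_iff_path {y : W × Bool} : BadY Y y ↔ ∀ s ∈ (lam id (fl y)).tails,
    ∃ q : St, q.1 = true ∧ ∃ w, Path Y (false, fl y, s) q w ∧ mk w = 1 := by
  constructor
  · intro h s hs
    rw [List.mem_tails, lam_fl] at hs
    obtain ⟨t, ht⟩ := hs
    have h1 : invRev s <+: lam id y := by
      refine ⟨invRev t, ?_⟩
      rw [← invRev_append, ht, invRev_invRev]
    obtain ⟨ws, h2, h3, h4, h5⟩ := h _ (mem_T.2 ⟨_, h1, rfl⟩)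
    obtain ⟨r, hr, h6⟩ := mem_T.1 h5
    obtain ⟨q, hq, hp⟩ := path_of_word ws false (fl y) s r h4 h2 h3 hr
    exact ⟨q, hq, _, hp, by rw [mk_app, h6, mk_invRev, mul_inv_cancel]⟩
  · intro h t ht
    obtain ⟨p, ⟨p', hp⟩, rfl⟩ := mem_T.1 ht
    obtain ⟨q, hq, w, hpath, hw⟩ := h (invRev p) (by
      rw [List.mem_tails, lam_fl, ← hp, invRev_append]; exact List.suffix_append _ _)
    rcases hpath.sem with ⟨h1, -⟩ | ⟨-, ws, h2, h3, h4, r, h5, h6⟩
    · rw [hq] at h1; exact absurd h1 (by simp)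
    · refine ⟨ws, h3, h4, h2, mem_T.2 ⟨r, h5, ?_⟩⟩
      simp only at h6
      rw [h6, mk_app, mk_invRev, inv_mul_eq_one] at hw
      exact hw.symm

def ClosedB (Y : List W) (C : List (St × St)) : Prop :=
  (∀ p ∈ states Y, (p, p) ∈ C) ∧
  (∀ p ∈ states Y, ∀ q ∈ states Y,
    (p.2.2 = [] ∧ q.1 = true ∧ ¬ q.2.1 = fl p.2.1 ∧ q.2.2 = lam id q.2.1) → (p, q) ∈ C) ∧
  (∀ a ∈ C, ∀ b ∈ C, a.2 = b.1 → (a.1, b.2) ∈ C) ∧
  (∀ a ∈ C, ∀ p ∈ states Y, ∀ q ∈ states Y, ∀ x ∈ p.2.2,
    (p = (a.1.1, a.1.2.1, x :: a.1.2.2) ∧ a.2 = (q.1, q.2.1, fl x :: q.2.2)) → (p, q) ∈ C)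

lemma benois {C : List (St × St)} (hC : ClosedB Y C) : ∀ (n : ℕ) (p q : St) (w : W),
    w.length ≤ n → p ∈ states Y → Path Y p q w → mk w = 1 → (p, q) ∈ C := by
  obtain ⟨c1, c2, c3, c4⟩ := hC
  have hnil : ∀ (p q : St) (w : W), Path Y p q w → w = [] → p ∈ states Y → (p, q) ∈ C := by
    intro p q w h
    induction h with
    | nil p => intro _ hp; exact c1 p hp
    | lett f x a s q w _ _ => intro h; simp at h
    | eps f x x' q w h1 h2 _ ih =>
      intro hw hp
      have hx' : ((true, x', lam id x') : St) ∈ states Y := mem_states.2 ⟨h1, List.suffix_rfl⟩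
      exact c3 _ (c2 _ hp _ hx' ⟨rfl, rfl, h2, rfl⟩) _ (ih hw hx') rfl
  intro n
  induction n with
  | zero =>
    intro p q w hl hp h _
    exact hnil p q w h (List.length_eq_zero_iff.1 (by omega)) hp
  | succ n ih =>
    intro p q w hl hp h hw
    cases w with
    | nil => exact hnil p q _ h rfl hp
    | cons a w =>
      obtain ⟨w1, w2, rfl, h1, h2⟩ := first_return hw
      obtain ⟨f, x, s, p1, p2⟩ := h.split [] a _ rfl
      obtain ⟨f', x', s', p3, p4⟩ := p2.split w1 (fl a) w2 rfl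
      simp only [List.length_cons, List.length_append] at hl
      have m1 := p1.mem hp
      have m2 : ((f, x, s) : St) ∈ states Y :=
        (Path.lett f x a s _ _ (Path.nil _)).mem m1
      have m3 := p3.mem m2
      have m4 : ((f', x', s') : St) ∈ states Y :=
        (Path.lett f' x' (fl a) s' _ _ (Path.nil _)).mem m3
      have e1 := hnil _ _ _ p1 rfl hp
      have e2 := ih _ _ _ (by omega) m2 p3 h1
      have e3 := c4 _ e2 _ m1 _ m4 a (by simp) ⟨rfl, rfl⟩
      have e4 := ih _ _ _ (by omega) m4 p4 h2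
      exact c3 _ (c3 _ e1 _ e3 rfl) _ e4 rfl

def pairs (Y : List W) : List (St × St) :=
  (states Y).flatMap fun p => (states Y).map fun q => (p, q)

lemma mem_pairs {a : St × St} : a ∈ pairs Y ↔ a.1 ∈ states Y ∧ a.2 ∈ states Y := by
  obtain ⟨p, q⟩ := a
  simp [pairs]

lemma path_iff {p : St} (hp : p ∈ states Y) :
    (∃ q : St, q.1 = true ∧ ∃ w, Path Y p q w ∧ mk w = 1) ↔
      ∀ C ∈ (pairs Y).sublists', ClosedB Y C → ∃ q ∈ states Y, q.1 = true ∧ (p, q) ∈ C := by
  classical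
  constructor
  · rintro ⟨q, hq, w, h1, h2⟩ C - hC
    exact ⟨q, h1.mem hp, hq, benois hC _ p q w le_rfl hp h1 h2⟩
  · intro h
    let C := (pairs Y).filter fun a => ∃ w, Path Y a.1 a.2 w ∧ mk w = 1
    have hmem : ∀ a, a ∈ C ↔ (a.1 ∈ states Y ∧ a.2 ∈ states Y) ∧
        ∃ w, Path Y a.1 a.2 w ∧ mk w = 1 := by
      intro a; simp only [C, List.mem_filter, decide_eq_true_eq, mem_pairs]
    obtain ⟨q, -, hq, h2⟩ := h C (List.mem_sublists'.2 List.filter_sublist) (by
      refine ⟨?_, ?_, ?_, ?_⟩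
      · intro p hp
        exact (hmem _).2 ⟨⟨hp, hp⟩, [], Path.nil _, mk_nil⟩
      · rintro ⟨f, x, s⟩ hp ⟨f', x', s'⟩ hq ⟨h1, h2, h3, h4⟩
        simp only at h1 h2 h3 h4
        subst h1; subst h2; subst h4
        exact (hmem _).2 ⟨⟨hp, hq⟩, [],
          Path.eps _ _ x' _ _ (mem_states.1 hq).1 h3 (Path.nil _), mk_nil⟩
      · intro a ha b hb hab
        obtain ⟨⟨a1, -⟩, w, a2, a3⟩ := (hmem a).1 ha
        obtain ⟨⟨-, b1⟩, w', b2, b3⟩ := (hmem b).1 hb
        rw [← hab] at b2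
        exact (hmem _).2 ⟨⟨a1, b1⟩, w ++ w', a2.trans b2, by rw [mk_app, a3, b3, one_mul]⟩
      · rintro a ha p hp ⟨f', x', s'⟩ hq x - ⟨h1, h2⟩
        obtain ⟨-, w, a2, a3⟩ := (hmem a).1 ha
        rw [h2] at a2
        refine (hmem _).2 ⟨⟨hp, hq⟩, x :: (w ++ [fl x]), ?_, ?_⟩
        · rw [h1]
          exact Path.lett _ _ _ _ _ _ (a2.trans (Path.lett _ _ _ _ _ _ (Path.nil _)))
        · rw [mk_cons, mk_app, a3, one_mul, mk_fl, mul_inv_cancel])
    exact ⟨q, hq, ((hmem _).1 h2).2⟩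

lemma badY_iff {y : W × Bool} (hy : y.1 ∈ Y) : BadY Y y ↔ ∀ s ∈ (lam id (fl y)).tails,
    ∀ C ∈ (pairs Y).sublists', ClosedB Y C →
      ∃ q ∈ states Y, q.1 = true ∧ (((false, fl y, s) : St), q) ∈ C := by
  rw [badY_iff_path]
  refine forall_congr' fun s => imp_congr_right fun hs => ?_
  exact path_iff (mem_states.2 ⟨hy, (List.mem_tails _ _).1 hs⟩)

/-- the finite criterion -/
def Crit (gens : List W) : Prop := ∃ Y ∈ gens.sublists',
  (∀ u ∈ gens, ∀ C ∈ u.inits.sublists', ClosedA Y u C → ConclA Y u C) ∧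
  ∀ y ∈ letters Y, ¬ ∀ s ∈ (lam id (fl y)).tails, ∀ C ∈ (pairs Y).sublists', ClosedB Y C →
      ∃ q ∈ states Y, q.1 = true ∧ (((false, fl y, s) : St), q) ∈ C

theorem isFree_iff_crit {gens : List W} : IsFree gens ↔ Crit gens := by
  rw [isFree_iff]
  unfold Crit
  refine exists_congr fun Y => ?_
  rw [List.mem_sublists']
  refine and_congr_right fun _ => and_congr ?_ ?_
  · simp only [genBy_iff]
  · refine forall_congr' fun y => ?_
    rw [mem_letters]
    refine imp_congr_right fun hy => ?_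
    rw [badY_iff hy]

end Pool.Agent.H32Z.FIS
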