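import Pool.Agent.H32Z.Theta

set_option autoImplicit false
set_option linter.unusedSectionVars false

namespace Pool.Agent.H32Z.Theta

open Finset

lemma psd_gram {V W : Type} [Fintype V] [Fintype W] (U : W → V → ℝ) :
    PSD (fun x y => ∑ z, U z x * U z y) := by
  refine ⟨fun x y => Finset.sum_congr rfl fun z _ => mul_comm _ _, fun f => ?_⟩
  have : qf (fun x y => ∑ z, U z x * U z y) f = ∑ z, (∑ x, f x * U z x) ^ 2 := by
    unfold qf
    simp only [sq, Finset.sum_mul_sum, Finset.mul_sum, Finset.sum_mul]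
    rw [Finset.sum_comm]
    conv_rhs => rw [Finset.sum_comm]
    refine Finset.sum_congr rfl fun i _ => ?_
    rw [Finset.sum_comm]
    refine Finset.sum_congr rfl fun j _ => Finset.sum_congr rfl fun k _ => by ring
  rw [this]
  exact Finset.sum_nonneg fun z _ => sq_nonneg _

lemma vc_complete (W : Type) [Fintype W] :
    VC (fun x y : W => x ≠ y) ((Fintype.card W : ℝ) - 1) := by
  refine ⟨fun x y => (Fintype.card W : ℝ) * idm W x y + (-1) * 1, ⟨?_, ?_⟩, ?_, ?_⟩
  · intro i j; simp only [idm_comm i j]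
  · intro x
    rw [qf_add, qf_smul, qf_smul, qf_idm, qf_one]
    have := sq_sum_le_card_mul_sum_sq (s := (Finset.univ : Finset W)) (f := x)
    rw [Finset.card_univ] at this
    linarith
  · intro i; simp only [idm_self]; ring
  · intro i j h; simp only [idm_ne h]; ring

section field
variable (p : ℕ) [Fact p.Prime]

/-- adjacency matrix of the affine polarity graph -/
noncomputable def Am (x y : ZMod p × ZMod p) : ℝ := if x.2 + y.2 = (x.1 - y.1) ^ 2 then 1 else 0

lemma Am_comm (x y : ZMod p × ZMod p) : Am p x y = Am p y x := by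
  unfold Am
  have : (x.2 + y.2 = (x.1 - y.1) ^ 2) ↔ (y.2 + x.2 = (y.1 - x.1) ^ 2) := by
    constructor <;> intro h <;> linear_combination h
  simp only [this]

lemma Am_row (x : ZMod p × ZMod p) : ∑ z, Am p z x = p := by
  rw [Fintype.sum_prod_type]
  have : ∀ d : ZMod p, ∑ r : ZMod p, Am p (d, r) x = 1 := by
    intro d
    rw [Finset.sum_eq_single ((d - x.1) ^ 2 - x.2)]
    · simp [Am]
    · intro r _ hr
      unfold Am
      rw [if_neg]
      intro h
      apply hr
      simp only at h
      linear_combination h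
    · simp
  simp [this, ZMod.card]

lemma Am_sq (h2 : (2 : ZMod p) ≠ 0) (x y : ZMod p × ZMod p) :
    ∑ z, Am p z x * Am p z y = p * idm _ x y + 1 - idm _ x.1 y.1 := by
  rw [Fintype.sum_prod_type]
  have : ∀ d : ZMod p, ∑ r : ZMod p, Am p (d, r) x * Am p (d, r) y =
      if (d - x.1) ^ 2 - x.2 + y.2 = (d - y.1) ^ 2 then 1 else 0 := by
    intro d
    rw [Finset.sum_eq_single ((d - x.1) ^ 2 - x.2)]
    · simp [Am]
    · intro r _ hr
      have : Am p (d, r) x = 0 := by
        unfold Am
        rw [if_neg]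
        intro h
        apply hr
        simp only at h
        linear_combination h
      rw [this, zero_mul]
    · simp
  simp only [this]
  obtain ⟨a, s⟩ := x
  obtain ⟨c, t⟩ := y
  by_cases hac : a = c
  · subst hac
    by_cases hst : s = t
    · subst hst
      simp [idm_self, ZMod.card]
    · rw [idm_ne (by simp [hst]), idm_self]
      have : ∀ d : ZMod p, ¬ ((d - a) ^ 2 - s + t = (d - a) ^ 2) := by
        intro d h
        apply hst
        linear_combination -h
      simp [this]
  · rw [idm_ne (by simp [hac]), idm_ne hac]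
    have hne : 2 * (c - a) ≠ 0 := mul_ne_zero h2 (sub_ne_zero.2 (Ne.symm hac))
    rw [Finset.sum_eq_single ((c ^ 2 - a ^ 2 + s - t) / (2 * (c - a)))]
    · rw [if_pos]
      · simp
      · simp only
        have h3 : (c ^ 2 - a ^ 2 + s - t) / (2 * (c - a)) * (2 * (c - a))
            = c ^ 2 - a ^ 2 + s - t := div_mul_cancel₀ _ hne
        linear_combination h3
    · intro d _ hd
      rw [if_neg]
      intro h
      apply hd
      rw [eq_div_iff hne]
      simp only at h
      linear_combination h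
    · simp

lemma psd_main (h2 : (2 : ZMod p) ≠ 0) (k : ℝ) (hk0 : 0 < k) (hk : (p : ℝ) ≤ k ^ 2) :
    PSD (fun x y => (p * k) * idm _ x y + p * Am p x y - 1) := by
  have hp : (0 : ℝ) < p := by exact_mod_cast (Fact.out : p.Prime).pos
  have hG := psd_gram (fun z x : ZMod p × ZMod p => k * idm _ z x + (Am p z x - 1 / p))
  have hsum : ∀ (g : ZMod p × ZMod p → ℝ) (x : ZMod p × ZMod p), ∑ z, idm _ z x * g z = g x := by
    intro g x
    rw [Finset.sum_eq_single x]
    · rw [idm_self, one_mul]
    · intro z _ hz; rw [idm_ne hz, zero_mul]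
    · simp
  have key : ∀ x y : ZMod p × ZMod p,
      ∑ z, (k * idm _ z x + (Am p z x - 1 / p)) * (k * idm _ z y + (Am p z y - 1 / p))
        = k ^ 2 * idm _ x y + 2 * k * (Am p x y - 1 / p) + (p * idm _ x y - idm _ x.1 y.1) := by
    intro x y
    have e : ∀ z, (k * idm _ z x + (Am p z x - 1 / p)) * (k * idm _ z y + (Am p z y - 1 / p))
        = k ^ 2 * (idm _ z x * idm _ z y) + k * (idm _ z x * (Am p z y - 1 / p))
          + k * (idm _ z y * (Am p z x - 1 / p)) + Am p z x * Am p z y
          - (1 / p) * Am p z x - (1 / p) * Am p z y + (1 / p) ^ 2 := by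
      intro z; ring
    simp only [e, Finset.sum_add_distrib, Finset.sum_sub_distrib, ← Finset.mul_sum]
    rw [hsum (fun z => idm _ z y), hsum (fun z => Am p z y - 1 / p),
      hsum (fun z => Am p z x - 1 / p), Am_sq p h2, Am_row, Am_row, Am_comm p y x]
    simp only [Finset.sum_const, Finset.card_univ, Fintype.card_prod, ZMod.card, nsmul_eq_mul]
    push_cast
    field_simp
    ring
  have hK : PSD (fun x y : ZMod p × ZMod p => idm _ x.1 y.1) := psd_idm.sub Prod.fst
  refine (((hG.add (psd_idm.smul (c := k ^ 2 - p) (by linarith))).add hK).smul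
    (c := p / (2 * k)) (by positivity)).congr ?_
  intro x y
  rw [key]
  field_simp
  ring

end field

theorem tri (L : ℕ) : ∃ (V : Type) (_ : Fintype V) (B : V → V → Prop) (s : ℕ), 1 ≤ s ∧
    (∀ x y, B x y → B y x) ∧ (∀ x, ¬ B x x) ∧ (∀ x y z, B x y → B x z → B y z → False) ∧
    L * s ≤ Fintype.card V ∧ VC (fun x y => x ≠ y ∧ ¬ B x y) ((s : ℝ) - 1) := by
  obtain ⟨p, hp, hprime, hmod⟩ := Nat.forall_exists_prime_gt_and_modEq ((2 * L + 2) ^ 2)
    (q := 4) (a := 3) (by norm_num) (by norm_num)
  haveI : Fact p.Prime := ⟨hprime⟩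
  have hp4 : p % 4 = 3 := hmod
  have hcast : ∀ n : ℕ, 0 < n → n < p → (n : ZMod p) ≠ 0 := by
    intro n h0 hn h
    rw [ZMod.natCast_eq_zero_iff] at h
    exact absurd (Nat.le_of_dvd h0 h) (by omega)
  have h2 : (2 : ZMod p) ≠ 0 := by
    have := hcast 2 (by norm_num) (by omega)
    simpa using this
  set q := Nat.sqrt p with hq
  have hq1 : q * q ≤ p := Nat.sqrt_le p
  have hq2 : p < (q + 1) * (q + 1) := Nat.lt_succ_sqrt p
  have hq3 : 2 * L + 2 ≤ q := by
    rw [hq, Nat.le_sqrt']; exact hp.le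
  let r : Fin (p / 2) → ZMod p := fun j => ((j.val + 1 : ℕ) : ZMod p)
  have hr0 : ∀ j, r j ≠ 0 := fun j => hcast _ (by omega) (by have := j.2; omega)
  let φ : ZMod p × Fin (p / 2) → ZMod p × ZMod p := fun x => (x.1, r x.2 ^ 2)
  have hφ : Function.Injective φ := by
    rintro ⟨a, i⟩ ⟨b, j⟩ h
    simp only [φ, Prod.mk.injEq] at h
    obtain ⟨rfl, h⟩ := h
    have h3 : (r i - r j) * (r i + r j) = 0 := by linear_combination h
    rcases mul_eq_zero.1 h3 with h4 | h4
    · have h5 : r i = r j := sub_eq_zero.1 h4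
      simp only [r] at h5
      rw [ZMod.natCast_eq_natCast_iff', Nat.mod_eq_of_lt (by have := i.2; omega),
        Nat.mod_eq_of_lt (by have := j.2; omega)] at h5
      have : i = j := Fin.ext (by omega)
      rw [this]
    · exfalso
      have := hcast (i.val + 1 + (j.val + 1)) (by omega) (by have := i.2; have := j.2; omega)
      apply this
      rw [Nat.cast_add]; exact h4
  refine ⟨ZMod p × Fin (p / 2), inferInstance,
    fun x y => r x.2 ^ 2 + r y.2 ^ 2 = (x.1 - y.1) ^ 2, p * (q + 1), ?_, ?_, ?_, ?_, ?_, ?_⟩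
  · exact Nat.mul_pos hprime.pos (by omega)
  · intro x y h
    linear_combination h
  · intro x h
    have : 2 * r x.2 ^ 2 = 0 := by linear_combination h
    exact mul_ne_zero h2 (pow_ne_zero 2 (hr0 _)) this
  · intro x y z h1 h3 h4
    have h8 : (2 : ZMod p) ^ 3 ≠ 0 := pow_ne_zero 3 h2
    have e1 : 2 * r x.2 ^ 2 = 2 * ((x.1 - y.1) * (x.1 - z.1)) := by
      linear_combination h1 + h3 - h4
    have e2 : 2 * r y.2 ^ 2 = -2 * ((x.1 - y.1) * (y.1 - z.1)) := by
      linear_combination h1 - h3 + h4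
    have e3 : 2 * r z.2 ^ 2 = 2 * ((y.1 - z.1) * (x.1 - z.1)) := by
      linear_combination -h1 + h3 + h4
    have e4 : (r x.2 * r y.2 * r z.2) ^ 2 = -((x.1 - y.1) * (y.1 - z.1) * (x.1 - z.1)) ^ 2 := by
      apply mul_left_cancel₀ h8
      have : 2 ^ 3 * (r x.2 * r y.2 * r z.2) ^ 2
          = (2 * r x.2 ^ 2) * (2 * r y.2 ^ 2) * (2 * r z.2 ^ 2) := by ring
      rw [this, e1, e2, e3]; ring
    exact ZMod.mod_four_ne_three_of_sq_eq_neg_sq
      (mul_ne_zero (mul_ne_zero (hr0 _) (hr0 _)) (hr0 _)) e4 hp4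
  · rw [Fintype.card_prod, ZMod.card, Fintype.card_fin]
    have : L * (q + 1) ≤ p / 2 := by
      rw [Nat.le_div_iff_mul_le (by norm_num)]
      nlinarith
    calc L * (p * (q + 1)) = p * (L * (q + 1)) := by ring
      _ ≤ p * (p / 2) := Nat.mul_le_mul_left _ this
  · have hP := (psd_main p h2 ((q + 1 : ℕ) : ℝ) (by positivity) (by
      have : (p : ℝ) < ((q + 1) * (q + 1) : ℕ) := by exact_mod_cast hq2
      push_cast at this ⊢
      nlinarith)).sub φ
    refine ⟨_, hP, ?_, ?_⟩
    · intro x
      have : Am p (φ x) (φ x) = 0 := by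
        unfold Am
        rw [if_neg]
        intro h
        simp only [φ] at h
        have : 2 * r x.2 ^ 2 = 0 := by linear_combination h
        exact mul_ne_zero h2 (pow_ne_zero 2 (hr0 _)) this
      simp only [this, idm_self]
      push_cast
      ring
    · rintro x y ⟨hxy, hB⟩
      have : Am p (φ x) (φ y) = 0 := by
        unfold Am
        rw [if_neg]
        exact hB
      simp only [this, idm_ne (fun h => hxy (hφ h))]
      ring

end Pool.Agent.H32Z.Theta
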