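import Pool.Agent.H32Z.Dual
import Pool.Agent.H32Z.TriFree

set_option autoImplicit false
set_option linter.unusedSectionVars false

namespace Pool.Agent.H32Z.Theta

open Finset

lemma bip (m : ℕ) : ∃ M : ℕ, m ≤ M ∧ ∀ (α : Type) (col : α → α → Bool) (A B : Finset α),
    M ≤ A.card → M ≤ B.card → ∃ A' ⊆ A, ∃ B' ⊆ B, m ≤ A'.card ∧ m ≤ B'.card ∧
      ∃ c : Bool, ∀ a ∈ A', ∀ b ∈ B', col a b = c := by
  classical
  refine ⟨2 * m + 2 ^ (2 * m) * m, by omega, fun α col A B hA hB => ?_⟩
  obtain ⟨A0, hA0, hc⟩ := Finset.exists_subset_card_eq (s := A) (n := 2 * m) (by omega)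
  obtain ⟨T, hT, hfib⟩ := Finset.exists_le_card_fiber_of_mul_le_card_of_maps_to
    (s := B) (t := A0.powerset) (f := fun b => A0.filter (fun a => col a b = true)) (n := m)
    (fun b _ => Finset.mem_powerset.2 (Finset.filter_subset _ _)) ⟨∅, by simp⟩
    (by rw [Finset.card_powerset, hc]; omega)
  have hTA := Finset.mem_powerset.1 hT
  by_cases hm : m ≤ T.card
  · refine ⟨T, hTA.trans hA0, _, Finset.filter_subset _ _, hm, hfib, true, ?_⟩
    intro a ha b hb
    have := (Finset.mem_filter.1 hb).2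
    rw [← this] at ha
    exact (Finset.mem_filter.1 ha).2
  · refine ⟨A0 \ T, Finset.sdiff_subset.trans hA0, _, Finset.filter_subset _ _, ?_, hfib, false, ?_⟩
    · rw [Finset.card_sdiff_of_subset hTA]; omega
    · intro a ha b hb
      have h1 := (Finset.mem_filter.1 hb).2
      obtain ⟨h2, h3⟩ := Finset.mem_sdiff.1 ha
      rw [← h1] at h3
      by_contra h4
      exact h3 (Finset.mem_filter.2 ⟨h2, by simpa using h4⟩)

lemma multi (R : ℕ) (S : Finset (Fin R × Fin R)) : ∀ m : ℕ, ∃ M : ℕ,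
    ∀ (α : Type) (col : α → α → Bool) (P : Fin R → Finset α), (∀ i, M ≤ (P i).card) →
      ∃ Q : Fin R → Finset α, (∀ i, Q i ⊆ P i ∧ m ≤ (Q i).card) ∧
        ∀ p ∈ S, p.1 ≠ p.2 → ∃ c : Bool, ∀ a ∈ Q p.1, ∀ b ∈ Q p.2, col a b = c := by
  classical
  induction S using Finset.induction_on with
  | empty => exact fun m => ⟨m, fun α col P hP => ⟨P, fun i => ⟨subset_rfl, hP i⟩, by simp⟩⟩
  | insert p S hp ih =>
    intro m
    obtain ⟨M1, hM1, hb⟩ := bip m
    obtain ⟨M, hM⟩ := ih M1
    refine ⟨M, fun α col P hP => ?_⟩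
    obtain ⟨Q, hQ, hS⟩ := hM α col P hP
    by_cases hpp : p.1 = p.2
    · refine ⟨Q, fun i => ⟨(hQ i).1, hM1.trans (hQ i).2⟩, ?_⟩
      intro q hq hne
      rcases Finset.mem_insert.1 hq with rfl | hq
      · exact absurd hpp hne
      · exact hS q hq hne
    obtain ⟨A', hA', B', hB', hcA, hcB, c, hc⟩ := hb α col (Q p.1) (Q p.2) (hQ _).2 (hQ _).2
    let Q' : Fin R → Finset α := fun i => if i = p.1 then A' else if i = p.2 then B' else Q i
    have hsub : ∀ i, Q' i ⊆ Q i := by
      intro i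
      simp only [Q']
      split_ifs with h1 h2
      · rw [h1]; exact hA'
      · rw [h2]; exact hB'
      · exact subset_rfl
    refine ⟨Q', fun i => ⟨(hsub i).trans (hQ i).1, ?_⟩, ?_⟩
    · simp only [Q']
      split_ifs with h1 h2
      · exact hcA
      · exact hcB
      · exact hM1.trans (hQ i).2
    · intro q hq hne
      rcases Finset.mem_insert.1 hq with rfl | hq
      · refine ⟨c, fun a ha b hb => hc a ?_ b ?_⟩
        · simpa [Q'] using ha
        · simpa [Q', Ne.symm hpp] using hb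
      · obtain ⟨c', hc'⟩ := hS q hq hne
        exact ⟨c', fun a ha b hb => hc' a (hsub _ ha) b (hsub _ hb)⟩

/-- some `N`-colourable graph is Ramsey for the graph with adjacency `adj` -/
def Arrow {n : ℕ} (adj : Fin n → Fin n → Prop) (N : ℕ) : Prop :=
  ∃ (m : ℕ) (H : SimpleGraph (Fin m)), H.Colorable N ∧
    ∀ col : Fin m → Fin m → Bool, (∀ a b, col a b = col b a) →
      ∃ (f : Fin n → Fin m) (b : Bool), Function.Injective f ∧
        ∀ x y : Fin n, adj x y → H.Adj (f x) (f y) ∧ col (f x) (f y) = b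

lemma arrow_of_hom {n : ℕ} (adj : Fin n → Fin n → Prop) (R : ℕ)
    (h : ∀ c : Fin R → Fin R → Bool, (∀ a b, c a b = c b a) →
      ∃ (b : Bool) (g : Fin n → Fin R), ∀ i j, adj i j → g i ≠ g j ∧ c (g i) (g j) = b) :
    Arrow adj R := by
  classical
  obtain ⟨M, hM⟩ := multi R Finset.univ (n + 1)
  let π : Fin (R * M) → Fin R := fun v => (finProdFinEquiv.symm v).1
  refine ⟨R * M, (⊤ : SimpleGraph (Fin R)).comap π, ⟨SimpleGraph.Coloring.mk π ?_⟩, ?_⟩
  · intro a b hab
    exact hab
  intro col hcol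
  let P : Fin R → Finset (Fin (R * M)) :=
    fun i => Finset.univ.image (fun k : Fin M => finProdFinEquiv (i, k))
  have hP : ∀ i, M ≤ (P i).card := by
    intro i
    rw [Finset.card_image_of_injective _ (fun a b hab => by
      have := finProdFinEquiv.injective hab
      exact (Prod.mk.inj this).2)]
    simp
  have hPπ : ∀ i, ∀ v ∈ P i, π v = i := by
    intro i v hv
    obtain ⟨k, -, rfl⟩ := Finset.mem_image.1 hv
    simp only [π, Equiv.symm_apply_apply]
  obtain ⟨Q, hQ, hS⟩ := hM _ col P hP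
  have he : ∀ i, ∃ e : Fin (n + 1) → Fin (R * M), Function.Injective e ∧ ∀ k, e k ∈ Q i := by
    intro i
    obtain ⟨T, hT, hc⟩ := Finset.exists_subset_card_eq (hQ i).2
    exact ⟨fun k => (T.orderEmbOfFin hc k), (T.orderEmbOfFin hc).injective,
      fun k => hT (T.orderEmbOfFin_mem hc k)⟩
  choose e he1 he2 using he
  obtain ⟨b, g, hg⟩ := h (fun i j => col (e i 0) (e j 0)) (fun i j => hcol _ _)
  have hπ : ∀ i k, π (e i k) = i := fun i k => hPπ i _ ((hQ i).1 (he2 i k))
  refine ⟨fun x => e (g x) x.castSucc, b, ?_, ?_⟩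
  · intro x y hxy
    have h1 : g x = g y := by
      have := congrArg π hxy
      simpa only [hπ] using this
    simp only [h1] at hxy
    exact Fin.castSucc_injective _ (he1 _ hxy)
  · intro x y hxy
    obtain ⟨h1, h2⟩ := hg x y hxy
    refine ⟨?_, ?_⟩
    · simp only [SimpleGraph.comap_adj, hπ, SimpleGraph.top_adj]
      exact h1
    · obtain ⟨c, hc⟩ := hS (g x, g y) (Finset.mem_univ _) h1
      rw [hc _ (he2 _ _) _ (he2 _ _), ← h2, hc _ (he2 _ _) _ (he2 _ _)]

lemma hom_of_arrow {n : ℕ} (adj : Fin n → Fin n → Prop) (N : ℕ) (h : Arrow adj N)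
    (W : Type) [Fintype W] (hW : N ≤ Fintype.card W) (c : W → W → Bool)
    (hc : ∀ a b, c a b = c b a) :
    ∃ (b : Bool) (g : Fin n → W), ∀ i j, adj i j → g i ≠ g j ∧ c (g i) (g j) = b := by
  obtain ⟨m, H, ⟨χ⟩, hH⟩ := h
  obtain ⟨ι⟩ : Nonempty (Fin N ↪ W) := Function.Embedding.nonempty_of_card_le (by simpa using hW)
  obtain ⟨f, b, -, hf⟩ := hH (fun a b => c (ι (χ a)) (ι (χ b))) (fun a b => hc _ _)
  refine ⟨b, fun i => ι (χ (f i)), fun i j hij => ⟨?_, (hf i j hij).2⟩⟩
  exact fun h => χ.valid (hf i j hij).1 (ι.injective h)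

theorem ramsey_aux (k : ℕ) : ∀ a b : ℕ, a + b ≤ k → ∃ M : ℕ, ∀ (V : Type) (R : SimpleGraph V)
    (S : Finset V), M ≤ S.card →
    (∃ K ⊆ S, R.IsNClique a K) ∨ (∃ K ⊆ S, Rᶜ.IsNClique b K) := by
  classical
  induction k with
  | zero =>
    intro a b hab
    have : a = 0 := by omega
    subst this
    exact ⟨0, fun V R S _ => Or.inl ⟨∅, by simp, by simp⟩⟩
  | succ k ih =>
    intro a b hab
    rcases Nat.eq_zero_or_pos a with ha | ha
    · subst ha
      exact ⟨0, fun V R S _ => Or.inl ⟨∅, by simp, by simp⟩⟩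
    rcases Nat.eq_zero_or_pos b with hb | hb
    · subst hb
      exact ⟨0, fun V R S _ => Or.inr ⟨∅, by simp, by simp⟩⟩
    obtain ⟨a, rfl⟩ : ∃ a', a = a' + 1 := ⟨a - 1, by omega⟩
    obtain ⟨b, rfl⟩ : ∃ b', b = b' + 1 := ⟨b - 1, by omega⟩
    obtain ⟨M1, h1⟩ := ih a (b + 1) (by omega)
    obtain ⟨M2, h2⟩ := ih (a + 1) b (by omega)
    refine ⟨M1 + M2 + 1, fun V R S hS => ?_⟩
    have hne : S.Nonempty := by
      rw [← Finset.card_pos]; omega
    obtain ⟨v, hv⟩ := hne
    have hc := Finset.card_filter_add_card_filter_not (s := S.erase v) (fun x => R.Adj v x)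
    rw [Finset.card_erase_of_mem hv] at hc
    by_cases hA : M1 ≤ ((S.erase v).filter (fun x => R.Adj v x)).card
    · rcases h1 V R _ hA with ⟨K, hK, hq⟩ | ⟨K, hK, hq⟩
      · left
        refine ⟨insert v K, ?_, hq.insert ?_⟩
        · intro x hx
          rw [Finset.mem_insert] at hx
          rcases hx with rfl | hx
          · exact hv
          · exact Finset.mem_of_mem_erase (Finset.mem_filter.1 (hK hx)).1
        · intro x hx
          exact (Finset.mem_filter.1 (hK hx)).2
      · right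
        refine ⟨K, fun x hx => Finset.mem_of_mem_erase (Finset.mem_filter.1 (hK hx)).1, hq⟩
    · have hB : M2 ≤ ((S.erase v).filter (fun x => ¬ R.Adj v x)).card := by omega
      rcases h2 V R _ hB with ⟨K, hK, hq⟩ | ⟨K, hK, hq⟩
      · left
        refine ⟨K, fun x hx => Finset.mem_of_mem_erase (Finset.mem_filter.1 (hK hx)).1, hq⟩
      · right
        refine ⟨insert v K, ?_, hq.insert ?_⟩
        · intro x hx
          rw [Finset.mem_insert] at hx
          rcases hx with rfl | hx
          · exact hv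
          · exact Finset.mem_of_mem_erase (Finset.mem_filter.1 (hK hx)).1
        · intro x hx
          have h3 := Finset.mem_filter.1 (hK hx)
          rw [SimpleGraph.compl_adj]
          exact ⟨fun h => (Finset.ne_of_mem_erase h3.1) h.symm, h3.2⟩

lemma arrow_exists {n : ℕ} (adj : Fin n → Fin n → Prop) (hi : ∀ i, ¬ adj i i) :
    ∃ N, Arrow adj N := by
  classical
  obtain ⟨M, hM⟩ := ramsey_aux (n + n) n n le_rfl
  refine ⟨M, arrow_of_hom adj M fun c hc => ?_⟩
  let G : SimpleGraph (Fin M) :=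
    { Adj := fun a b => a ≠ b ∧ c a b = true
      symm := ⟨fun a b h => ⟨h.1.symm, by rw [hc b a]; exact h.2⟩⟩
      loopless := ⟨fun a h => h.1 rfl⟩ }
  rcases hM (Fin M) G Finset.univ (by simp) with ⟨K, -, hK⟩ | ⟨K, -, hK⟩
  · refine ⟨true, K.orderEmbOfFin hK.2, fun i j hij => ?_⟩
    have hne : i ≠ j := by rintro rfl; exact hi _ hij
    exact hK.1 (K.orderEmbOfFin_mem hK.2 i) (K.orderEmbOfFin_mem hK.2 j)
      (fun h => hne ((K.orderEmbOfFin hK.2).injective h))
  · refine ⟨false, K.orderEmbOfFin hK.2, fun i j hij => ?_⟩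
    have hne : i ≠ j := by rintro rfl; exact hi _ hij
    have := hK.1 (K.orderEmbOfFin_mem hK.2 i) (K.orderEmbOfFin_mem hK.2 j)
      (fun h => hne ((K.orderEmbOfFin hK.2).injective h))
    rw [SimpleGraph.compl_adj] at this
    refine ⟨this.1, ?_⟩
    by_contra h
    exact this.2 ⟨this.1, by simpa using h⟩

/-- Main construction: a graph `G` with an apex vertex whose deletion drops the chromatic Ramsey
number by an arbitrarily large factor. -/
theorem main (L : ℕ) : ∃ (n : ℕ) (G : SimpleGraph (Fin (n + 1))) (s : ℕ), 1 ≤ s ∧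
    G.edgeSet.Nonempty ∧ (∀ N, Arrow G.Adj N → L * (s * s) < N) ∧
    Arrow (fun x y : Fin n => G.Adj x.succ y.succ) (15 * (s * s)) := by
  classical
  obtain ⟨V, _, B, s, hs, hBs, hBi, hBt, hcard, hVC⟩ := tri L
  have hs' : (1 : ℝ) ≤ s := by exact_mod_cast hs
  obtain ⟨n, H, hHs, hHi, hN, hH⟩ := universal (2 * s) (by linarith) (15 * (s * s)) (by
    push_cast; nlinarith)
  let G : SimpleGraph (Fin (n + 1)) :=
    { Adj := fun x y => x ≠ y ∧ ∀ i j : Fin n, x = i.succ → y = j.succ → H i j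
      symm := ⟨fun x y h => ⟨h.1.symm, fun i j hi hj => hHs _ _ (h.2 j i hj hi)⟩⟩
      loopless := ⟨fun a h => h.1 rfl⟩ }
  have hG1 : ∀ i j : Fin n, G.Adj i.succ j.succ ↔ H i j := by
    intro i j
    refine ⟨fun h => h.2 i j rfl rfl, fun h => ⟨?_, ?_⟩⟩
    · intro h2
      rw [Fin.succ_inj] at h2
      subst h2
      exact hHi _ h
    · intro i' j' hi hj
      rw [Fin.succ_inj] at hi hj
      subst hi; subst hj; exact h
  have hG0 : ∀ i : Fin n, G.Adj 0 i.succ :=
    fun i => ⟨(Fin.succ_ne_zero i).symm, fun i' _ h _ => absurd h.symm (Fin.succ_ne_zero i')⟩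
  have hn : Nonempty (Fin n) := by
    obtain ⟨A, x, -, -, -, hx, -⟩ := hN
    by_contra h
    rw [not_nonempty_iff] at h
    simp at hx
  refine ⟨n, G, s, hs, ?_, ?_, ?_⟩
  · obtain ⟨i⟩ := hn
    exact ⟨s(0, i.succ), hG0 i⟩
  · intro N hA
    by_contra hle
    push Not at hle
    obtain ⟨b, g, hg⟩ := hom_of_arrow G.Adj N hA (V × Fin s) (by
        rw [Fintype.card_prod, Fintype.card_fin]
        calc N ≤ L * (s * s) := hle
          _ = L * s * s := by ring
          _ ≤ _ := Nat.mul_le_mul_right _ hcard)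
      (fun a b => decide (a.1 = b.1 ∨ B a.1 b.1)) (fun a b => by
        rw [decide_eq_decide]
        exact ⟨fun h => h.elim (fun h => Or.inl h.symm) (fun h => Or.inr (hBs _ _ h)),
          fun h => h.elim (fun h => Or.inl h.symm) (fun h => Or.inr (hBs _ _ h))⟩)
    cases b with
    | false =>
      have := weak hHi hN hVC (fun i => (g i.succ).1) (fun i j hij => by
        have := (hg _ _ ((hG1 i j).2 hij)).2
        rw [decide_eq_false_iff_not, not_or] at this
        exact this)
      rw [mul_one_div, le_div_iff₀ (by linarith)] at this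
      linarith
    | true =>
      have := weak hHi hN (vc_complete (Bool × Fin s))
        (fun i => (decide ((g i.succ).1 = (g 0).1), (g i.succ).2)) (fun i j hij => by
          obtain ⟨h1, h2⟩ := hg _ _ ((hG1 i j).2 hij)
          have h3 := (hg _ _ (hG0 i)).2
          have h4 := (hg _ _ (hG0 j)).2
          rw [decide_eq_true_iff] at h2 h3 h4
          intro h
          simp only [Prod.mk.injEq, decide_eq_decide] at h
          obtain ⟨h5, h6⟩ := h
          rcases h2 with h2 | h2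
          · exact h1 (Prod.ext h2 h6)
          · rcases h3 with h3 | h3
            · have h7 := h5.1 h3.symm
              rw [← h3, h7] at h2
              exact hBi _ h2
            · rcases h4 with h4 | h4
              · have h7 := h5.2 h4.symm
                rw [← h4, h7] at h2
                exact hBi _ h2
              · exact hBt _ _ _ h3 h4 h2)
      rw [mul_one_div, le_div_iff₀ (by linarith)] at this
      simp only [Fintype.card_prod, Fintype.card_bool, Fintype.card_fin] at this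
      push_cast at this
      linarith
  · refine arrow_of_hom _ _ fun c hc => ?_
    obtain ⟨b, g, hg⟩ := hH c hc
    exact ⟨b, g, fun i j hij => hg i j ((hG1 i j).1 hij)⟩

theorem final : ¬ (∃ c : ℝ, 0 < c ∧
      ∀ (n : ℕ) (G : SimpleGraph (Fin (n + 1))) (v : Fin (n + 1)),
        G.edgeSet.Nonempty →
          c * ((sInf {N : ℕ | Arrow G.Adj N} : ℕ) : ℝ)
            ≤ ((sInf {N : ℕ | Arrow (fun x y : Fin n => G.Adj (v.succAbove x) (v.succAbove y)) N}
              : ℕ) : ℝ)) := by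
  rintro ⟨c, hc, h⟩
  obtain ⟨L, hL⟩ := exists_nat_gt (15 / c)
  obtain ⟨n, G, s, hs, hne, hlow, hup⟩ := main L
  have h1 := h n G 0 hne
  have h2 : L * (s * s) < sInf {N : ℕ | Arrow G.Adj N} :=
    hlow _ (Nat.sInf_mem (arrow_exists G.Adj (fun i => G.irrefl)))
  have h3 : sInf {N : ℕ | Arrow (fun x y : Fin n =>
      G.Adj ((0 : Fin (n + 1)).succAbove x) ((0 : Fin (n + 1)).succAbove y)) N} ≤ 15 * (s * s) := by
    apply Nat.sInf_le
    simpa only [Fin.zero_succAbove, Set.mem_ofPred_eq] using hup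
  have h2' : (L : ℝ) * (s * s) < ((sInf {N : ℕ | Arrow G.Adj N} : ℕ) : ℝ) := by exact_mod_cast h2
  have h3' : ((sInf {N : ℕ | Arrow (fun x y : Fin n =>
      G.Adj ((0 : Fin (n + 1)).succAbove x) ((0 : Fin (n + 1)).succAbove y)) N} : ℕ) : ℝ)
      ≤ 15 * (s * s) := by exact_mod_cast h3
  have hs' : (0 : ℝ) < s * s := by
    have : (1 : ℝ) ≤ s := by exact_mod_cast hs
    positivity
  rw [div_lt_iff₀ hc] at hL
  nlinarith

end Pool.Agent.H32Z.Theta
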