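import Pool.Agent.H32Z.Theta

set_option autoImplicit false
set_option linter.unusedSectionVars false

namespace Pool.Agent.H32Z.Theta

open Finset

/-- primal witness for the theta function -/
def PW {V : Type} [Fintype V] (X : V → V → Prop) (β : ℝ) : Prop :=
  ∃ M : V → V → ℝ, PSD M ∧ ∑ i, M i i = 1 ∧ (∀ i j, i ≠ j → ¬ X i j → M i j = 0) ∧
    β ≤ ∑ i, ∑ j, M i j

lemma PSD.diag {V : Type} [Fintype V] {M : V → V → ℝ} (h : PSD M) (i : V) : 0 ≤ M i i :=
  h.toM.diag_nonneg

lemma PSD.entry {V : Type} [Fintype V] {M : V → V → ℝ} (h : PSD M) (i j : V) :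
    |M i j| ≤ (M i i + M j j) / 2 := by
  have h2 := h.sub (W := Bool) (fun b => if b then i else j)
  have a := h2.2 (fun _ => 1)
  have b := h2.2 (fun b => if b then 1 else -1)
  unfold qf at a b
  simp at a b
  have := h.1 i j
  rw [abs_le]
  constructor <;> linarith

lemma dichotomy {V : Type} [Fintype V] [Nonempty V] (X : V → V → Prop)
    (hs : ∀ i j, X i j → X j i) (hi : ∀ i, ¬ X i i) (β : ℝ) : PW X β ∨ VC X (β - 1) := by
  classical
  by_cases hPW : PW X β
  · exact Or.inl hPW
  right
  set K : Set (V × V → ℝ) := {M | PSD (fun i j => M (i, j)) ∧ ∑ i, M (i, i) = 1} with hK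
  set L : Set (V × V → ℝ) :=
    {M | (∀ i j, i ≠ j → ¬ X i j → M (i, j) = 0) ∧ β ≤ ∑ p, M p} with hL
  have hdis : Disjoint K L := by
    rw [Set.disjoint_left]
    rintro M ⟨h1, h2⟩ ⟨h3, h4⟩
    refine hPW ⟨fun i j => M (i, j), h1, h2, h3, ?_⟩
    rw [Fintype.sum_prod_type] at h4
    exact h4
  have hKconv : Convex ℝ K := by
    rintro M ⟨h1, h2⟩ N ⟨h3, h4⟩ a b ha hb hab
    refine ⟨((h1.smul ha).add (h3.smul hb)).congr (fun i j => by simp), ?_⟩
    simp only [Pi.add_apply, Pi.smul_apply, smul_eq_mul, Finset.sum_add_distrib,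
      ← Finset.mul_sum, h2, h4]
    linarith
  have hLconv : Convex ℝ L := by
    rintro M ⟨h1, h2⟩ N ⟨h3, h4⟩ a b ha hb hab
    refine ⟨fun i j hij hx => by simp [h1 i j hij hx, h3 i j hij hx], ?_⟩
    simp only [Pi.add_apply, Pi.smul_apply, smul_eq_mul, Finset.sum_add_distrib,
      ← Finset.mul_sum]
    have : β = a * β + b * β := by rw [← add_mul, hab, one_mul]
    rw [this]
    exact add_le_add (mul_le_mul_of_nonneg_left h2 ha) (mul_le_mul_of_nonneg_left h4 hb)
  have hLcl : IsClosed L := by
    have : L = (⋂ i, ⋂ j, ⋂ (_ : i ≠ j), ⋂ (_ : ¬ X i j), {M : V × V → ℝ | M (i, j) = 0}) ∩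
        {M | β ≤ ∑ p, M p} := by
      ext M; simp [hL]
    rw [this]
    refine IsClosed.inter ?_ (isClosed_le continuous_const (by fun_prop))
    refine isClosed_iInter fun i => isClosed_iInter fun j => isClosed_iInter fun _ =>
      isClosed_iInter fun _ => isClosed_eq (by fun_prop) continuous_const
  have hKcl : IsClosed K := by
    have : K = ((⋂ i, ⋂ j, {M : V × V → ℝ | M (i, j) = M (j, i)}) ∩
        (⋂ x : V → ℝ, {M : V × V → ℝ | 0 ≤ ∑ i, ∑ j, x i * M (i, j) * x j})) ∩
        {M | ∑ i, M (i, i) = 1} := by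
      ext M; simp [hK, PSD, qf]
    rw [this]
    refine IsClosed.inter (IsClosed.inter ?_ ?_) (isClosed_eq (by fun_prop) continuous_const)
    · exact isClosed_iInter fun i => isClosed_iInter fun j =>
        isClosed_eq (by fun_prop) (by fun_prop)
    · exact isClosed_iInter fun x => isClosed_le continuous_const (by fun_prop)
  have hKc : IsCompact K := by
    refine (isCompact_Icc (a := fun _ => (-1 : ℝ)) (b := fun _ => (1 : ℝ))).of_isClosed_subset
      hKcl ?_
    rintro M ⟨h1, h2⟩
    have hd : ∀ i, M (i, i) ≤ 1 := fun i => by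
      rw [← h2]
      exact Finset.single_le_sum (f := fun i => M (i, i)) (fun i _ => h1.diag i)
        (Finset.mem_univ i)
    have he : ∀ p : V × V, |M p| ≤ 1 := by
      rintro ⟨i, j⟩
      have := h1.entry i j
      have := hd i
      have := hd j
      linarith
    exact ⟨fun p => (abs_le.1 (he p)).1, fun p => (abs_le.1 (he p)).2⟩
  obtain ⟨f, u, v, hu, huv, hv⟩ :=
    geometric_hahn_banach_compact_closed hKconv hKc hLconv hLcl hdis
  set W : V × V → ℝ := fun p => f (fun q => if p = q then 1 else 0) with hW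
  have hf : ∀ M : V × V → ℝ, f M = ∑ p, M p * W p := by
    intro M
    have := LinearMap.pi_apply_eq_sum_univ (f : (V × V → ℝ) →ₗ[ℝ] ℝ) M
    simpa [hW] using this
  -- allowed positions
  have hline : ∀ p q : V × V, (p.1 = p.2 ∨ X p.1 p.2) → (q.1 = q.2 ∨ X q.1 q.2) →
      ∀ a b : ℝ, β ≤ a + b → v < a * W p + b * W q := by
    intro p q hp hq a b hab
    have hmem : (fun r => (if r = p then a else 0) + (if r = q then b else 0)) ∈ L := by
      refine ⟨fun i j hij hx => ?_, ?_⟩
      · have h1 : (i, j) ≠ p := by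
          rintro rfl
          rcases hp with hp | hp
          · exact hij hp
          · exact hx hp
        have h2 : (i, j) ≠ q := by
          rintro rfl
          rcases hq with hq | hq
          · exact hij hq
          · exact hx hq
        simp [h1, h2]
      · simp [Finset.sum_add_distrib, hab]
    have := hv _ hmem
    rw [hf] at this
    simpa [add_mul, Finset.sum_add_distrib] using this
  have heq : ∀ p q : V × V, (p.1 = p.2 ∨ X p.1 p.2) → (q.1 = q.2 ∨ X q.1 q.2) → W p = W q := by
    intro p q hp hq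
    by_contra hne
    have hne' : W p - W q ≠ 0 := sub_ne_zero.2 hne
    have := hline p q hp hq (β + (v - β * W p) / (W p - W q)) (-((v - β * W p) / (W p - W q)))
      (by linarith)
    have h2 : (β + (v - β * W p) / (W p - W q)) * W p + -((v - β * W p) / (W p - W q)) * W q
        = v := by
      field_simp
      ring
    linarith
  obtain ⟨i0⟩ := ‹Nonempty V›
  set lam := W (i0, i0) with hlam
  have hWd : ∀ i, W (i, i) = lam := fun i => heq _ _ (Or.inl rfl) (Or.inl rfl)
  have hWa : ∀ i j, X i j → W (i, j) = lam := fun i j h => heq _ _ (Or.inr h) (Or.inl rfl)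
  have hvl : v < β * lam := by
    have := hline (i0, i0) (i0, i0) (Or.inl rfl) (Or.inl rfl) β 0 (by linarith)
    simpa using this
  have hl0 : 0 ≤ lam := by
    by_contra hneg
    push Not at hneg
    have := hline (i0, i0) (i0, i0) (Or.inl rfl) (Or.inl rfl) β ((v - β * lam) / lam) (by
      have : 0 ≤ (v - β * lam) / lam := div_nonneg_of_nonpos (by linarith) hneg.le
      linarith)
    rw [← hlam, div_mul_cancel₀ _ hneg.ne] at this
    linarith
  have hquad : ∀ x : V → ℝ, 0 < ∑ i, x i ^ 2 →
      qf (fun i j => W (i, j)) x < u * ∑ i, x i ^ 2 := by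
    intro x hx
    have hmem : (fun p : V × V => (1 / ∑ i, x i ^ 2) * (x p.1 * x p.2)) ∈ K := by
      refine ⟨(psd_outer x).smul (by positivity), ?_⟩
      simp only [← Finset.mul_sum, ← sq]
      field_simp
    have := hu _ hmem
    rw [hf, Fintype.sum_prod_type] at this
    have e : ∑ i, ∑ j, 1 / (∑ i, x i ^ 2) * (x i * x j) * W (i, j)
        = (1 / ∑ i, x i ^ 2) * qf (fun i j => W (i, j)) x := by
      unfold qf
      simp only [Finset.mul_sum]
      refine Finset.sum_congr rfl fun i _ => Finset.sum_congr rfl fun j _ => by ring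
    rw [e, one_div, inv_mul_lt_iff₀ hx] at this
    linarith
  have hlpos : 0 < lam := by
    rcases hl0.lt_or_eq with h | h
    · exact h
    · exfalso
      have hx : 0 < ∑ i, (if i = i0 then (1 : ℝ) else 0) ^ 2 := by simp
      have := hquad _ hx
      unfold qf at this
      simp at this
      rw [← hlam, ← h] at this
      rw [← h] at hvl
      linarith
  refine ⟨fun i j => β * idm V i j + (-1 / (2 * lam)) * (W (i, j) + W (j, i)), ⟨?_, ?_⟩, ?_, ?_⟩
  · intro i j
    simp only [idm_comm i j, add_comm (W (i, j))]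
  · intro x
    rw [qf_add, qf_smul, qf_smul, qf_add, qf_idm]
    have e : qf (fun i j => W (j, i)) x = qf (fun i j => W (i, j)) x := by
      unfold qf
      rw [Finset.sum_comm]
      refine Finset.sum_congr rfl fun i _ => Finset.sum_congr rfl fun j _ => by ring
    rw [e]
    rcases (Finset.sum_nonneg (fun i _ => sq_nonneg (x i)) : 0 ≤ ∑ i, x i ^ 2).lt_or_eq with hz | hz
    · have h1 := hquad x hz
      have h2 : u * ∑ i, x i ^ 2 ≤ β * lam * ∑ i, x i ^ 2 :=
        mul_le_mul_of_nonneg_right (by linarith) hz.le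
      have h3 : β * ∑ i, x i ^ 2 + -1 / (2 * lam) * (qf (fun i j => W (i, j)) x +
          qf (fun i j => W (i, j)) x)
          = (β * lam * ∑ i, x i ^ 2 - qf (fun i j => W (i, j)) x) / lam := by
        field_simp
        ring
      rw [h3]
      exact div_nonneg (by linarith) hlpos.le
    · have : x = fun _ => 0 := by
        funext i
        have := (Finset.sum_eq_zero_iff_of_nonneg (fun i _ => sq_nonneg (x i))).1 hz.symm i
          (Finset.mem_univ i)
        simpa using this
      subst this
      simp [qf]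
  · intro i
    simp only [idm_self, hWd]
    field_simp
    ring
  · intro i j h
    by_cases hij : i = j
    · subst hij
      exact absurd h (hi i)
    simp only [idm_ne hij, hWa i j h, hWa j i (hs i j h)]
    field_simp
    ring

lemma PW.toNW {V : Type} [Fintype V] [Nonempty V] {X : V → V → Prop} {μ : ℝ} (hμ : 0 < μ)
    (h : PW X (2 * μ + 1)) : NW X (1 / μ) := by
  classical
  obtain ⟨M, hM, htr, hsupp, hsum⟩ := h
  set R : ℝ := (Fintype.card V : ℝ) with hR
  have hR0 : 0 < R := by
    rw [hR]; exact_mod_cast Fintype.card_pos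
  set D : V → ℝ := fun i => M i i + 1 / R with hD
  have hDpos : ∀ i, 0 < D i := fun i => by
    have := hM.diag i
    have : 0 < 1 / R := by positivity
    simp only [hD]; linarith
  set x : V → ℝ := fun i => Real.sqrt (D i) with hx
  have hxpos : ∀ i, 0 < x i := fun i => Real.sqrt_pos.2 (hDpos i)
  have hxsq : ∀ i, x i ^ 2 = D i := fun i => Real.sq_sqrt (hDpos i).le
  have hsumx : ∑ i, x i ^ 2 = 2 := by
    simp only [hxsq, hD, Finset.sum_add_distrib, htr, Finset.sum_const, Finset.card_univ,
      nsmul_eq_mul, ← hR]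
    field_simp
    norm_num
  refine Theta.toNW hμ (fun i j => if i = j then 0 else M i j / (x i * x j)) ?_ ?_ x
    (by rw [hsumx]; norm_num) ?_
  · intro i j hx
    by_cases hij : i = j
    · simp [hij]
    · simp [hij, hsupp i j hij hx]
  · refine ((hM.add (psd_idm.smul (c := 1 / R) (by positivity))).hadamard
      (psd_outer (fun i => 1 / x i))).congr ?_
    intro i j
    have hi := hxpos i
    have hj := hxpos j
    by_cases hij : i = j
    · subst hij
      simp only [idm_self, if_true, mul_one, add_zero]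
      have h1 : M i i + 1 / R = x i ^ 2 := (hxsq i).symm
      rw [h1]
      field_simp
    · simp only [idm_ne hij, if_neg hij]
      field_simp
      ring
  · have e : qf (fun i j => if i = j then 0 else M i j / (x i * x j)) x
        = ∑ i, ∑ j, M i j - ∑ i, M i i := by
      unfold qf
      rw [← Finset.sum_sub_distrib]
      refine Finset.sum_congr rfl fun i _ => ?_
      have : ∀ j, x i * (if i = j then 0 else M i j / (x i * x j)) * x j
          = M i j - (if i = j then M i i else 0) := by
        intro j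
        have hi := hxpos i
        have hj := hxpos j
        by_cases hij : i = j
        · subst hij; simp
        · simp only [if_neg hij]; field_simp; ring
      simp only [this, Finset.sum_sub_distrib]
      simp
    rw [e, hsumx, htr]
    linarith

lemma VC.toNW {V : Type} [Fintype V] [Nonempty V] {X Y : V → V → Prop} {μ β : ℝ} (hμ : 0 < μ)
    (hβ : 0 < β) (hXY : ∀ i j, i ≠ j → ¬ Y i j → X i j)
    (hR : β * (μ + 1) ≤ Fintype.card V) (h : VC X (β - 1)) : NW Y (1 / μ) := by
  classical
  obtain ⟨Z, hZ, hd, ha⟩ := h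
  set R : ℝ := (Fintype.card V : ℝ) with hR'
  have hR0 : 0 < R := by
    rw [hR']; exact_mod_cast Fintype.card_pos
  have hs : ∑ _i : V, (1 : ℝ) ^ 2 = R := by simp [hR']
  refine Theta.toNW hμ (fun i j => (1 / β) * (Z i j + 1) + (-1) * idm V i j) ?_ ?_ (fun _ => 1)
    (by rw [hs]; exact hR0) ?_
  · intro i j hy
    by_cases hij : i = j
    · subst hij
      simp only [hd, idm_self]
      field_simp
      ring
    · simp only [ha i j (hXY i j hij hy), idm_ne hij]
      ring
  · refine ((hZ.add psd_one).smul (c := 1 / β) (by positivity)).congr ?_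
    intro i j; ring
  · rw [qf_add, qf_smul, qf_smul, qf_add, qf_idm, qf_one, hs]
    have h1 := hZ.2 (fun _ => 1)
    have h2 : (∑ _i : V, (1 : ℝ)) = R := by simp [hR']
    rw [h2]
    have h3 : (μ + 1) * R ≤ 1 / β * (qf Z (fun _ => 1) + R ^ 2) := by
      rw [one_div, le_inv_mul_iff₀ hβ]
      nlinarith
    linarith

/-- In every two-colouring of a large complete graph one colour class has a large theta number. -/
lemma colour_class {V : Type} [Fintype V] {μ : ℝ} (hμ : 0 < μ)
    (hR : (2 * μ + 1) * (μ + 1) ≤ Fintype.card V) (c : V → V → Bool) (hc : ∀ a b, c a b = c b a) :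
    ∃ b : Bool, NW (fun i j => i ≠ j ∧ c i j = b) (1 / μ) := by
  have hne : Nonempty V := by
    rw [← Fintype.card_pos_iff]
    have : (0 : ℝ) < Fintype.card V := lt_of_lt_of_le (by positivity) hR
    exact_mod_cast this
  rcases dichotomy (fun i j => i ≠ j ∧ c i j = true)
    (fun i j h => ⟨h.1.symm, by rw [hc j i]; exact h.2⟩) (fun i h => h.1 rfl) (2 * μ + 1) with h | h
  · exact ⟨true, h.toNW hμ⟩
  · refine ⟨false, h.toNW hμ (by positivity) ?_ hR⟩
    intro i j hij hy
    refine ⟨hij, ?_⟩
    by_contra h2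
    exact hy ⟨hij, by simpa using h2⟩

/-- a single graph with large theta number mapping to all graphs of a family -/
lemma common {V : Type} [Fintype V] {δ : ℝ} (h0 : 0 ≤ δ) (h1 : δ ≤ 1)
    (X0 : V → V → Prop) (hX0 : NW X0 δ) (hs0 : ∀ i j, X0 i j → X0 j i) (hi0 : ∀ i, ¬ X0 i i)
    {ι : Type} (F : ι → V → V → Prop) (hF : ∀ k, NW (F k) δ) (hFs : ∀ k i j, F k i j → F k j i)
    (S : Finset ι) :
    ∃ (W : Type) (_ : Fintype W) (H : W → W → Prop), (∀ i j, H i j → H j i) ∧ (∀ i, ¬ H i i) ∧
      NW H δ ∧ ∀ k ∈ S, ∃ g : W → V, ∀ i j, H i j → F k (g i) (g j) := by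
  classical
  induction S using Finset.induction_on with
  | empty => exact ⟨V, inferInstance, X0, hs0, hi0, hX0, by simp⟩
  | insert k S hk ih =>
    obtain ⟨W, _, H, hs, hi, hN, hg⟩ := ih
    refine ⟨W × V, inferInstance, fun p q => H p.1 q.1 ∧ F k p.2 q.2,
      fun p q h => ⟨hs _ _ h.1, hFs _ _ _ h.2⟩, fun p h => hi _ h.1, hN.prod h0 h1 (hF k), ?_⟩
    intro l hl
    rcases Finset.mem_insert.1 hl with rfl | hl
    · exact ⟨Prod.snd, fun p q h => h.2⟩
    · obtain ⟨g, hg⟩ := hg l hl
      exact ⟨fun p => g p.1, fun p q h => hg _ _ h.1⟩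

/-- The universal graph: large theta number, and a monochromatic homomorphic image in every
two-colouring of the complete graph on `R` vertices. -/
theorem universal (μ : ℝ) (hμ : 1 ≤ μ) (R : ℕ) (hR : (2 * μ + 1) * (μ + 1) ≤ R) :
    ∃ (n : ℕ) (H : Fin n → Fin n → Prop), (∀ i j, H i j → H j i) ∧ (∀ i, ¬ H i i) ∧
      NW H (1 / μ) ∧ ∀ c : Fin R → Fin R → Bool, (∀ a b, c a b = c b a) →
        ∃ (b : Bool) (g : Fin n → Fin R), ∀ i j, H i j → g i ≠ g j ∧ c (g i) (g j) = b := by
  classical
  have hμ0 : 0 < μ := by linarith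
  have hR' : (2 * μ + 1) * (μ + 1) ≤ Fintype.card (Fin R) := by simpa using hR
  have h := fun c : {c : Fin R → Fin R → Bool // ∀ a b, c a b = c b a} =>
    colour_class hμ0 hR' c.1 c.2
  choose b hb using h
  have hδ1 : 1 / μ ≤ 1 := by rw [div_le_one hμ0]; exact hμ
  let c0 : {c : Fin R → Fin R → Bool // ∀ a b, c a b = c b a} := ⟨fun _ _ => true, fun _ _ => rfl⟩
  obtain ⟨W, _, H, hs, hi, hN, hg⟩ := common (by positivity) hδ1 _ (hb c0)
    (fun i j h => ⟨h.1.symm, by rw [c0.2 j i]; exact h.2⟩) (fun i h => h.1 rfl)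
    (fun c : {c : Fin R → Fin R → Bool // ∀ a b, c a b = c b a} =>
      fun i j => i ≠ j ∧ c.1 i j = b c) hb
    (fun c i j h => ⟨h.1.symm, by rw [c.2 j i]; exact h.2⟩) Finset.univ
  let e := (Fintype.equivFin W).symm
  refine ⟨Fintype.card W, fun i j => H (e i) (e j), fun i j h => hs _ _ h, fun i h => hi _ h,
    ?_, ?_⟩
  · obtain ⟨A, x, hA, h1, h2, hx, hq⟩ := hN
    have hid : ∀ i j, idm W (e i) (e j) = idm _ i j := by
      intro i j
      by_cases hij : i = j
      · subst hij; rw [idm_self, idm_self]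
      · rw [idm_ne hij, idm_ne (fun h => hij (e.injective h))]
    refine ⟨fun i j => A (e i) (e j), fun i => x (e i), fun i j h => hA _ _ h,
      (h1.sub e).congr (fun i j => by rw [hid]), (h2.sub e).congr (fun i j => by rw [hid]), ?_, ?_⟩
    · rw [← hx]; exact e.sum_comp (fun i => x i ^ 2)
    · rw [← hq]
      unfold qf
      rw [← e.sum_comp]
      refine Finset.sum_congr rfl fun i _ => ?_
      exact e.sum_comp (fun j => x (e i) * A (e i) j * x j)
  · intro c hc
    obtain ⟨g, hg⟩ := hg ⟨c, hc⟩ (Finset.mem_univ _)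
    exact ⟨b ⟨c, hc⟩, fun i => g (e i), fun i j h => hg _ _ h⟩

end Pool.Agent.H32Z.Theta
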