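import Pool.Agent.H32Z.Benois

set_option autoImplicit false
set_option linter.unusedSectionVars false

namespace Pool.Agent.H32Z.FIS

open FreeGroup

attribute [fun_prop] Primrec

section tags
variable {α β γ : Type} [Primcodable α] [Primcodable β] [Primcodable γ]

@[fun_prop] theorem pr_id : Primrec (fun x : α => x) := Primrec.id
@[fun_prop] theorem pr_const (b : β) : Primrec (fun _ : α => b) := Primrec.const b
@[fun_prop] theorem pr_comp {f : β → γ} {g : α → β} (hf : Primrec f) (hg : Primrec g) :
    Primrec (fun x => f (g x)) := hf.comp hg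
@[fun_prop] theorem pr_fst {f : α → β × γ} (hf : Primrec f) : Primrec (fun x => (f x).1) :=
  Primrec.fst.comp hf
@[fun_prop] theorem pr_snd {f : α → β × γ} (hf : Primrec f) : Primrec (fun x => (f x).2) :=
  Primrec.snd.comp hf
@[fun_prop] theorem pr_pair {f : α → β} {g : α → γ} (hf : Primrec f) (hg : Primrec g) :
    Primrec (fun x => (f x, g x)) := hf.pair hg
@[fun_prop] theorem pr_append {f g : α → List β} (hf : Primrec f) (hg : Primrec g) :
    Primrec (fun x => f x ++ g x) := Primrec.list_append.comp hf hg
@[fun_prop] theorem pr_cons {f : α → β} {g : α → List β} (hf : Primrec f) (hg : Primrec g) :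
    Primrec (fun x => f x :: g x) := Primrec.list_cons.comp hf hg
@[fun_prop] theorem pr_not {f : α → Bool} (hf : Primrec f) :
    Primrec (fun x => !(f x)) := Primrec.not.comp hf
@[fun_prop] theorem pr_and {f g : α → Bool} (hf : Primrec f) (hg : Primrec g) :
    Primrec (fun x => f x && g x) := Primrec.and.comp hf hg
@[fun_prop] theorem pr_or {f g : α → Bool} (hf : Primrec f) (hg : Primrec g) :
    Primrec (fun x => f x || g x) := Primrec.or.comp hf hg
@[fun_prop] theorem pr_cond {c : α → Bool} {f g : α → β} (hc : Primrec c) (hf : Primrec f)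
    (hg : Primrec g) : Primrec (fun x => bif c x then f x else g x) :=
  Primrec.cond hc hf hg
@[fun_prop] theorem pr_reverse {f : α → List β} (hf : Primrec f) :
    Primrec (fun x => (f x).reverse) := Primrec.list_reverse.comp hf

@[fun_prop] theorem pr_map {f : α → List β} {g : α → β → γ} (hf : Primrec f)
    (hg : Primrec fun p : α × β => g p.1 p.2) : Primrec fun a => (f a).map (g a) :=
  Primrec.list_map hf hg.to₂

@[fun_prop] theorem pr_flatMap {f : α → List β} {g : α → β → List γ} (hf : Primrec f)
    (hg : Primrec fun p : α × β => g p.1 p.2) : Primrec fun a => (f a).flatMap (g a) :=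
  Primrec.list_flatMap hf hg.to₂

theorem pr_foldr {f : α → List β} {g : α → γ} {h : α → β → γ → γ} (hf : Primrec f)
    (hg : Primrec g) (hh : Primrec fun p : α × (β × γ) => h p.1 p.2.1 p.2.2) :
    Primrec fun a => (f a).foldr (fun b s => h a b s) (g a) :=
  Primrec.list_foldr (h := fun a p => h a p.1 p.2) hf hg hh.to₂

@[fun_prop] theorem pr_all {f : α → List β} {g : α → β → Bool} (hf : Primrec f)
    (hg : Primrec fun p : α × β => g p.1 p.2) : Primrec fun a => (f a).all (g a) := by
  refine (pr_foldr (h := fun a b s => g a b && s) hf (Primrec.const true) ?_).of_eq fun a => ?_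
  · exact pr_and (hg.comp (g := fun p : α × (β × Bool) => (p.1, p.2.1)) (by fun_prop))
      (by fun_prop)
  · induction f a with
    | nil => rfl
    | cons b l ih => rw [List.foldr_cons, ih, List.all_cons]

@[fun_prop] theorem pr_any {f : α → List β} {g : α → β → Bool} (hf : Primrec f)
    (hg : Primrec fun p : α × β => g p.1 p.2) : Primrec fun a => (f a).any (g a) := by
  refine (pr_foldr (h := fun a b s => g a b || s) hf (Primrec.const false) ?_).of_eq fun a => ?_
  · exact pr_or (hg.comp (g := fun p : α × (β × Bool) => (p.1, p.2.1)) (by fun_prop))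
      (by fun_prop)
  · induction f a with
    | nil => rfl
    | cons b l ih => rw [List.foldr_cons, ih, List.any_cons]

/-- boolean equality -/
noncomputable def eqb {β : Type} (a b : β) : Bool := by
  classical
  exact decide (a = b)

@[simp] lemma eqb_iff {β : Type} {a b : β} : eqb a b = true ↔ a = b := by simp [eqb]

@[fun_prop] theorem pr_eqb {f g : α → β} (hf : Primrec f) (hg : Primrec g) :
    Primrec fun a => eqb (f a) (g a) := by
  classical
  exact (Primrec.eq.comp hf hg).decide

@[fun_prop] theorem pr_sublists : Primrec (List.sublists' : List α → List (List α)) := by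
  refine (pr_foldr (f := fun l : List α => l) (g := fun _ => ([[]] : List (List α)))
    (h := fun _ b s => s ++ s.map (fun t => b :: t)) (by fun_prop) (by fun_prop)
    (by fun_prop)).of_eq fun l => ?_
  induction l with
  | nil => rfl
  | cons b l ih => rw [List.foldr_cons, ih, List.sublists'_cons]

@[fun_prop] theorem pr_inits : Primrec (List.inits : List α → List (List α)) := by
  refine (pr_foldr (f := fun l : List α => l) (g := fun _ => ([[]] : List (List α)))
    (h := fun _ b s => [] :: s.map (fun t => b :: t)) (by fun_prop) (by fun_prop)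
    (by fun_prop)).of_eq fun l => ?_
  induction l with
  | nil => rfl
  | cons b l ih => rw [List.foldr_cons, ih, List.inits_cons]

@[fun_prop] theorem pr_tails : Primrec (List.tails : List α → List (List α)) := by
  have h : Primrec fun l : List α => (l.reverse.inits).map (fun t => t.reverse) := by fun_prop
  refine (pr_reverse h).of_eq fun l => ?_
  rw [List.inits_reverse, List.map_reverse, List.reverse_reverse, List.map_map]
  simp

@[fun_prop] theorem pr_fl : Primrec (fl : α × Bool → α × Bool) := by
  unfold fl; fun_prop

@[fun_prop] theorem pr_invRev : Primrec (invRev : List (α × Bool) → List (α × Bool)) := by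
  unfold invRev; fun_prop

end tags

@[fun_prop] lemma pr_reduce : Primrec (FreeGroup.reduce : W → W) := by
  have h1 : Primrec fun w : W => w.foldr (fun (l : ℕ × Bool) (acc : W) =>
      (List.casesOn acc [l] fun hd tl => bif eqb l (fl hd) then tl else l :: hd :: tl : W)) [] := by
    refine pr_foldr (α := W) (β := ℕ × Bool) (γ := W) (f := fun w => w)
      (g := fun _ => [])
      (h := fun _ l acc => (List.casesOn acc [l] fun hd tl =>
        bif eqb l (fl hd) then tl else l :: hd :: tl : W)) Primrec.id (Primrec.const []) ?_
    refine Primrec.list_casesOn (α := W × ((ℕ × Bool) × W)) (β := ℕ × Bool) (σ := W)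
      (f := fun q => q.2.2) (g := fun q => [q.2.1])
      (h := fun q r => bif eqb q.2.1 (fl r.1) then r.2 else q.2.1 :: r.1 :: r.2) (by fun_prop)
      (by fun_prop) ?_
    unfold Primrec₂
    fun_prop
  refine h1.of_eq fun w => ?_
  induction w with
  | nil => rfl
  | cons l w ih =>
    rw [FreeGroup.reduce.cons, List.foldr_cons, ih]
    cases FreeGroup.reduce w with
    | nil => rfl
    | cons hd tl =>
      have e : (l = fl hd) ↔ (l.1 = hd.1 ∧ l.2 = !hd.2) := by
        unfold fl
        rw [Prod.ext_iff]
      by_cases h : l = fl hd
      · have h2 := eqb_iff.2 h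
        simp only [h2, cond_true, if_pos (e.1 h)]
      · have h2 : eqb l (fl hd) = false := by
          rw [← Bool.not_eq_true, eqb_iff]; exact h
        simp only [h2, cond_false, if_neg (fun h3 => h (e.2 h3))]

/-- equality in the free group -/
noncomputable def eqg (u v : W) : Bool := eqb (reduce u) (reduce v)

@[simp] lemma eqg_iff {u v : W} : eqg u v = true ↔ mk u = mk v := by
  rw [eqg, eqb_iff]
  exact ⟨reduce.exact, reduce.sound⟩

@[fun_prop] lemma pr_eqg {α : Type} [Primcodable α] {f g : α → W} (hf : Primrec f)
    (hg : Primrec g) : Primrec fun a => eqg (f a) (g a) := by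
  unfold eqg; fun_prop

/-- boolean membership -/
noncomputable def memb {β : Type} (a : β) (l : List β) : Bool := l.any fun b => eqb a b

@[simp] lemma memb_iff {β : Type} {a : β} {l : List β} : memb a l = true ↔ a ∈ l := by
  simp [memb]

@[fun_prop] lemma pr_memb {α β : Type} [Primcodable α] [Primcodable β] {f : α → β}
    {g : α → List β} (hf : Primrec f) (hg : Primrec g) : Primrec fun a => memb (f a) (g a) := by
  unfold memb; fun_prop

/-- substituted word -/
def lw (x : W × Bool) : W := lam id x

@[fun_prop] lemma pr_lw : Primrec lw := by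
  unfold lw lam
  simp only [id]
  fun_prop

@[fun_prop] lemma pr_letters : Primrec letters := by
  unfold letters; fun_prop

@[fun_prop] lemma pr_states : Primrec states := by
  have : Primrec fun Y : List W => (letters Y).flatMap fun x =>
      (lw x).tails.flatMap fun s => ([(false, x, s), (true, x, s)] : List St) := by fun_prop
  exact this

@[fun_prop] lemma pr_pairs : Primrec pairs := by
  unfold pairs; fun_prop

noncomputable def allowedB (u p : W) (x : W × Bool) : Bool :=
  (lw x).inits.all fun s => u.inits.any fun q => eqg (p ++ s) q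

@[simp] lemma allowedB_iff {u p : W} {x : W × Bool} : allowedB u p x = true ↔ Allowed u p x := by
  simp only [allowedB, Allowed, List.all_eq_true, List.any_eq_true, eqg_iff, lw]

@[fun_prop] lemma pr_allowedB {α : Type} [Primcodable α] {f g : α → W} {h : α → W × Bool}
    (hf : Primrec f) (hg : Primrec g) (hh : Primrec h) :
    Primrec fun a => allowedB (f a) (g a) (h a) := by
  unfold allowedB; fun_prop

noncomputable def closedAB (Y : List W) (u : W) (C : List W) : Bool :=
  memb [] C && C.all fun p => (letters Y).all fun x => !(allowedB u p x) ||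
    u.inits.all fun q => !(eqg (p ++ lw x) q) || memb q C

lemma closedAB_iff {Y : List W} {u : W} {C : List W} :
    closedAB Y u C = true ↔ ClosedA Y u C := by
  simp only [closedAB, ClosedA, Bool.and_eq_true, List.all_eq_true, Bool.or_eq_true,
    Bool.not_eq_true', ← Bool.not_eq_true, ← imp_iff_not_or, memb_iff, allowedB_iff, eqg_iff, lw]

@[fun_prop] lemma pr_closedAB {α : Type} [Primcodable α] {f h : α → List W} {g : α → W}
    (hf : Primrec f) (hg : Primrec g) (hh : Primrec h) :
    Primrec fun a => closedAB (f a) (g a) (h a) := by
  unfold closedAB; fun_prop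

noncomputable def conclAB (Y : List W) (u : W) (C : List W) : Bool :=
  (C.any fun p => eqg p u) && u.inits.all fun q => C.any fun p => (letters Y).any fun x =>
    allowedB u p x && (lw x).inits.any fun s => eqg (p ++ s) q

lemma conclAB_iff {Y : List W} {u : W} {C : List W} :
    conclAB Y u C = true ↔ ConclA Y u C := by
  simp only [conclAB, ConclA, Bool.and_eq_true, List.all_eq_true, List.any_eq_true,
    allowedB_iff, eqg_iff, lw]

@[fun_prop] lemma pr_conclAB {α : Type} [Primcodable α] {f h : α → List W} {g : α → W}
    (hf : Primrec f) (hg : Primrec g) (hh : Primrec h) :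
    Primrec fun a => conclAB (f a) (g a) (h a) := by
  unfold conclAB; fun_prop

noncomputable def c1B (Y : List W) (C : List (St × St)) : Bool :=
  (states Y).all fun p => memb (p, p) C

noncomputable def c2B (Y : List W) (C : List (St × St)) : Bool :=
  (states Y).all fun p => (states Y).all fun q =>
    !(eqb p.2.2 [] && (eqb q.1 true && (!(eqb q.2.1 (fl p.2.1)) && eqb q.2.2 (lw q.2.1)))) ||
      memb (p, q) C

noncomputable def c3B (C : List (St × St)) : Bool :=
  C.all fun a => C.all fun b => !(eqb a.2 b.1) || memb (a.1, b.2) C

noncomputable def c4B (Y : List W) (C : List (St × St)) : Bool :=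
  C.all fun a => (states Y).all fun p => (states Y).all fun q => p.2.2.all fun x =>
    !(eqb p (a.1.1, a.1.2.1, x :: a.1.2.2) && eqb a.2 (q.1, q.2.1, fl x :: q.2.2)) ||
      memb (p, q) C

noncomputable def closedBB (Y : List W) (C : List (St × St)) : Bool :=
  c1B Y C && (c2B Y C && (c3B C && c4B Y C))

lemma closedBB_iff {Y : List W} {C : List (St × St)} : closedBB Y C = true ↔ ClosedB Y C := by
  simp only [closedBB, c1B, c2B, c3B, c4B, ClosedB, Bool.and_eq_true, List.all_eq_true,
    Bool.or_eq_true, Bool.not_eq_true', ← Bool.not_eq_true, ← imp_iff_not_or, memb_iff, eqb_iff, lw]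

@[fun_prop] lemma pr_closedBB {α : Type} [Primcodable α] {f : α → List W} {h : α → List (St × St)}
    (hf : Primrec f) (hh : Primrec h) : Primrec fun a => closedBB (f a) (h a) := by
  have h1 : Primrec fun a => c1B (f a) (h a) := by unfold c1B; fun_prop
  have h2 : Primrec fun a => c2B (f a) (h a) := by unfold c2B; fun_prop
  have h3 : Primrec fun a => c3B (h a) := by unfold c3B; fun_prop
  have h4 : Primrec fun a => c4B (f a) (h a) := by unfold c4B; fun_prop
  exact pr_and h1 (pr_and h2 (pr_and h3 h4))

noncomputable def badB (Y : List W) (y : W × Bool) : Bool :=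
  (lw (fl y)).tails.all fun s => (pairs Y).sublists'.all fun C => !(closedBB Y C) ||
    (states Y).any fun q => eqb q.1 true && memb (((false, fl y, s) : St), q) C

@[fun_prop] lemma pr_badB {α : Type} [Primcodable α] {f : α → List W} {h : α → W × Bool}
    (hf : Primrec f) (hh : Primrec h) : Primrec fun a => badB (f a) (h a) := by
  unfold badB; fun_prop

noncomputable def critB (gens : List W) : Bool :=
  (gens.all fun w => !(eqb w [])) && gens.sublists'.any fun Y =>
    (gens.all fun u => u.inits.sublists'.all fun C => !(closedAB Y u C) || conclAB Y u C) &&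
      (letters Y).all fun y => !(badB Y y)

lemma pr_critB : Primrec critB := by
  unfold critB; fun_prop

lemma critB_iff {gens : List W} : critB gens = true ↔ (∀ w ∈ gens, w ≠ []) ∧ Crit gens := by
  simp only [critB, badB, Crit, Bool.and_eq_true, List.all_eq_true, List.any_eq_true,
    Bool.or_eq_true, Bool.not_eq_true', ← Bool.not_eq_true, ← imp_iff_not_or, memb_iff, eqb_iff,
    closedAB_iff, conclAB_iff, closedBB_iff, lw, ne_eq]

theorem decidable_free : ComputablePred fun gens : List W => (∀ w ∈ gens, w ≠ []) ∧ IsFree gens := by
  refine ComputablePred.computable_iff.2 ⟨critB, pr_critB.to_comp, ?_⟩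
  funext gens
  rw [isFree_iff_crit, ← critB_iff]

end Pool.Agent.H32Z.FIS
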