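import Pool.Agent.H32Z.FPNec

set_option autoImplicit false
set_option linter.unusedSectionVars false

namespace Pool.Agent.H32Z.FIS

open FreeGroup
open scoped Pointwise

/-- free semigroup on `m` letters and their formal inverses -/
abbrev FS (m : ℕ) := FreeSemigroup (Fin m ⊕ Fin m)

def cv {m : ℕ} : Fin m ⊕ Fin m → Fin m × Bool := Sum.elim (fun i => (i, true)) (fun i => (i, false))

def vc {m : ℕ} (x : Fin m × Bool) : Fin m ⊕ Fin m := bif x.2 then Sum.inl x.1 else Sum.inr x.1

variable {m : ℕ}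

lemma vc_cv (a : Fin m ⊕ Fin m) : vc (cv a) = a := by cases a <;> rfl
lemma cv_vc (x : Fin m × Bool) : cv (vc x) = x := by
  obtain ⟨i, b⟩ := x
  cases b <;> rfl
lemma cv_swap (a : Fin m ⊕ Fin m) : cv a.swap = fl (cv a) := by cases a <;> rfl

def toL (w : FS m) : List (Fin m × Bool) := (w.head :: w.tail).map cv

lemma toL_mul (u v : FS m) : toL (u * v) = toL u ++ toL v := by simp [toL]
lemma toL_of (a : Fin m ⊕ Fin m) : toL (FreeSemigroup.of a) = [cv a] := rfl
lemma toL_ne (w : FS m) : toL w ≠ [] := by simp [toL]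
lemma toL_surj {l : List (Fin m × Bool)} (h : l ≠ []) : ∃ w : FS m, toL w = l := by
  obtain ⟨x, l, rfl⟩ := List.exists_cons_of_ne_nil h
  exact ⟨⟨vc x, l.map vc⟩, by simp [toL, cv_vc, Function.comp_def]⟩
lemma toL_inj : Function.Injective (toL : FS m → _) := by
  rintro ⟨a, l⟩ ⟨b, k⟩ h
  have := congrArg (List.map vc) h
  simp only [toL, List.map_map, Function.comp_def, vc_cv, List.map_id'] at this
  obtain ⟨rfl, rfl⟩ := List.cons.inj this
  rfl

section
variable (iv : ∀ m : ℕ, FS m → FS m)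
  (hiv : ∀ (m : ℕ) (w : FS m), iv m w = MulOpposite.unop
    (FreeSemigroup.lift (fun a : Fin m ⊕ Fin m => MulOpposite.op (FreeSemigroup.of a.swap)) w))
  (Wg : ∀ m : ℕ, FS m → FS m → Prop)
  (hW : ∀ (m : ℕ) (u v : FS m), Wg m u v ↔ ((∃ w, u = w * iv m w * w ∧ v = w) ∨
    ∃ w w', u = w * iv m w * (w' * iv m w') ∧ v = w' * iv m w' * (w * iv m w)))

include hiv in
lemma toL_iv (w : FS m) : toL (iv m w) = invRev (toL w) := by
  rw [hiv]
  induction w using FreeSemigroup.recOnMul with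
  | ih1 a => rw [FreeSemigroup.lift_of, MulOpposite.unop_op, toL_of, toL_of, invRev_single, cv_swap]
  | ih2 a y h1 h2 =>
    rw [_root_.map_mul, MulOpposite.unop_mul, toL_mul, toL_mul, h1, h2, invRev_append]

/-- evaluation of words in a quotient -/
def fc (c : Con (FS m)) (l : List (Fin m × Bool)) : WithOne c.Quotient :=
  (l.map fun x => (((FreeSemigroup.of (vc x) : FS m) : c.Quotient) : WithOne c.Quotient)).prod

lemma fc_app (c : Con (FS m)) (u v : List (Fin m × Bool)) : fc c (u ++ v) = fc c u * fc c v := by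
  simp [fc]

lemma fc_toL (c : Con (FS m)) (w : FS m) : fc c (toL w) = ((w : c.Quotient) : WithOne _) := by
  induction w using FreeSemigroup.recOnMul with
  | ih1 a => simp [fc, toL_of, vc_cv]
  | ih2 a y h1 h2 => rw [toL_mul, fc_app, h1, h2, Con.coe_mul, WithOne.coe_mul]

include hiv hW in
lemma fc_wag (c : Con (FS m)) (hc : ∀ u v, Wg m u v → c u v) : Wag (fc c) := by
  refine ⟨rfl, fc_app c, ?_, ?_⟩
  · intro w
    by_cases hw : w = []
    · subst hw; simp
    · obtain ⟨w, rfl⟩ := toL_surj hw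
      rw [← toL_iv iv hiv, ← toL_mul, ← toL_mul, fc_toL, fc_toL,
        c.eq.2 (hc _ _ ((hW _ _ _).2 (Or.inl ⟨w, rfl, rfl⟩)))]
  · intro w w'
    by_cases hw : w = []
    · subst hw; simp
    by_cases hw' : w' = []
    · subst hw'; simp
    obtain ⟨w, rfl⟩ := toL_surj hw
    obtain ⟨w', rfl⟩ := toL_surj hw'
    rw [← toL_iv iv hiv, ← toL_iv iv hiv, ← toL_mul, ← toL_mul, ← toL_mul, ← toL_mul, fc_toL,
      fc_toL, c.eq.2 (hc _ _ ((hW _ _ _).2 (Or.inr ⟨w, w', rfl, rfl⟩)))]

lemma M_comm {δ : Type} (w w' : List (δ × Bool)) :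
    M (w ++ invRev w ++ (w' ++ invRev w')) = M (w' ++ invRev w' ++ (w ++ invRev w)) := by
  simp only [M, T_append, T_invRev, mk_app, mk_invRev, smul_smul,
    mul_inv_cancel, one_smul, Set.union_self, Set.union_comm]

include hiv hW in
lemma W_M {u v : FS m} (h : Wg m u v) : M (toL u) = M (toL v) := by
  rcases (hW _ _ _).1 h with ⟨w, rfl, rfl⟩ | ⟨w, w', rfl, rfl⟩
  · rw [toL_mul, toL_mul, toL_iv iv hiv, M_reg]
  · simp only [toL_mul, toL_iv iv hiv]
    exact M_comm _ _

/-- congruence defined by a multiplicative function -/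
def conOf {X : Type} (g : FS m → X)
    (hg : ∀ u u' v v', g u = g u' → g v = g v' → g (u * v) = g (u' * v')) : Con (FS m) where
  r := fun u v => g u = g v
  iseqv := ⟨fun _ => rfl, fun h => h.symm, fun h h' => h.trans h'⟩
  mul' := fun h h' => hg _ _ _ _ h h'

include hiv hW in
theorem munn_con (u v : FS m) : conGen (Wg m) u v ↔ M (toL u) = M (toL v) := by
  constructor
  · intro h
    exact (Con.conGen_le (c := conOf (fun w => M (toL w)) (fun u u' v v' h h' => by
      simp only [toL_mul, M_append, h, h']))).2 (fun x y hxy => W_M iv hiv Wg hW hxy) h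
  · intro h
    have := (fc_wag iv hiv Wg hW (conGen (Wg m)) (fun u v h => ConGen.Rel.of u v h)).munn h
    rw [fc_toL, fc_toL, WithOne.coe_inj] at this
    exact (Con.eq _).1 this

variable {α : Type} {S : Type} [Mul S] (ν : S → Set (FreeGroup α) × FreeGroup α)
  (hν1 : Function.Injective ν) (hν2 : ∀ x y, ν (x * y) = mul (ν x) (ν y))

include hiv hW hν1 hν2 in
theorem pres_of_fpl (γ : Fin m → List (α × Bool))
    (hν3 : ∀ p, (∃ s, ν s = p) ↔ ∃ v, v ≠ [] ∧ M (ev γ v) = p) (h : FPL γ) :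
    ∃ (R : List (FS m × FS m)),
      Nonempty (S ≃* (conGen (fun u v : FS m => Wg m u v ∨ (u, v) ∈ R)).Quotient) := by
  classical
  obtain ⟨R, hfin, hR, hgen⟩ := h
  have hfin' : {q : FS m × FS m | (toL q.1, toL q.2) ∈ R}.Finite := by
    refine hfin.preimage (f := fun q : FS m × FS m => (toL q.1, toL q.2)) ?_
    rintro ⟨a, b⟩ - ⟨c, d⟩ - h
    simp only [Prod.mk.injEq] at h
    rw [toL_inj h.1, toL_inj h.2]
  refine ⟨hfin'.toFinset.toList, ?_⟩
  set c := conGen (fun u v : FS m => Wg m u v ∨ (u, v) ∈ hfin'.toFinset.toList) with hc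
  have key : ∀ u v, c u v ↔ M (ev γ (toL u)) = M (ev γ (toL v)) := by
    intro u v
    constructor
    · intro h
      refine (Con.conGen_le (c := conOf (fun w => M (ev γ (toL w))) (fun u u' v v' h h' => by
        simp only [toL_mul, ev_append, M_append, h, h']))).2 ?_ h
      rintro x y (hxy | hxy)
      · exact M_ev_congr γ (W_M iv hiv Wg hW hxy)
      · rw [Finset.mem_toList, Set.Finite.mem_toFinset] at hxy
        exact (hR _ hxy).2.2
    · intro h
      have := hgen _ (fc c) (fc_wag iv hiv Wg hW c (fun u v h => ConGen.Rel.of u v (Or.inl h))) (by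
        intro p hp
        obtain ⟨h1, h2, -⟩ := hR p hp
        obtain ⟨a, ha⟩ := toL_surj h1
        obtain ⟨b, hb⟩ := toL_surj h2
        rw [← ha, ← hb, fc_toL, fc_toL, c.eq.2 (ConGen.Rel.of a b (Or.inr (by
          rw [Finset.mem_toList, Set.Finite.mem_toFinset, Set.mem_ofPred_eq, ha, hb]
          exact hp)))]) _ _ (toL_ne u) (toL_ne v) h
      rw [fc_toL, fc_toL, WithOne.coe_inj] at this
      exact (Con.eq _).1 this
  have hσ : ∀ w : FS m, ∃ s, ν s = M (ev γ (toL w)) := fun w => (hν3 _).2 ⟨_, toL_ne w, rfl⟩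
  choose σ hσ using hσ
  let g : c.Quotient →ₙ* S :=
    { toFun := fun q => Con.liftOn q σ (fun a b h => hν1 (by rw [hσ, hσ, (key a b).1 h]))
      map_mul' := by
        intro x y
        induction x using Con.induction_on with | H x => ?_
        induction y using Con.induction_on with | H y => ?_
        apply hν1
        rw [← Con.coe_mul]
        simp only [Con.liftOn_coe]
        rw [hν2, hσ, hσ, hσ, toL_mul, ev_append, M_append] }
  have hg : ∀ w : FS m, g (w : c.Quotient) = σ w := fun w => rfl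
  refine ⟨(MulEquiv.ofBijective g ⟨?_, ?_⟩).symm⟩
  · intro x y h
    induction x using Con.induction_on with | H x => ?_
    induction y using Con.induction_on with | H y => ?_
    rw [hg, hg] at h
    exact c.eq.2 ((key x y).2 (by rw [← hσ, ← hσ, h]))
  · intro s
    obtain ⟨v, hv, h⟩ := (hν3 _).1 ⟨s, rfl⟩
    obtain ⟨w, rfl⟩ := toL_surj hv
    exact ⟨w, hν1 (by rw [hg, hσ, h])⟩

include hiv hW hν1 hν2 in
theorem fpl_of_pres {β : Type} [Finite β] (γ : β → List (α × Bool))
    (hν3 : ∀ p, (∃ s, ν s = p) ↔ ∃ v, v ≠ [] ∧ M (ev γ v) = p) (R : List (FS m × FS m))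
    (ψ : S ≃* (conGen (fun u v : FS m => Wg m u v ∨ (u, v) ∈ R)).Quotient) : FPL γ := by
  classical
  set c := conGen (fun u v : FS m => Wg m u v ∨ (u, v) ∈ R) with hc
  have hζ : ∀ i : Fin m, ∃ v, v ≠ [] ∧
      M (ev γ v) = ν (ψ.symm ((FreeSemigroup.of (Sum.inl i) : FS m) : c.Quotient)) :=
    fun i => (hν3 _).1 ⟨_, rfl⟩
  choose ζ hζ1 hζ2 using hζ
  have hreg : ∀ w : FS m, ((w * iv m w * w : FS m) : c.Quotient) = w := fun w =>
    c.eq.2 (ConGen.Rel.of _ _ (Or.inl ((hW _ _ _).2 (Or.inl ⟨w, rfl, rfl⟩))))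
  have hivof : ∀ a : Fin m ⊕ Fin m, iv m (FreeSemigroup.of a) = FreeSemigroup.of a.swap := by
    intro a; rw [hiv]; rfl
  have hκ : ∀ w : FS m, M (ev γ (ev ζ (toL w))) = ν (ψ.symm (w : c.Quotient)) := by
    intro w
    induction w using FreeSemigroup.recOnMul with
    | ih1 a =>
      rw [toL_of, ev_single]
      cases a with
      | inl i => exact hζ2 i
      | inr i =>
        have e : lam ζ (cv (Sum.inr i)) = invRev (ζ i) := rfl
        rw [e, ev_invRev, M_invRev, hζ2]
        symm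
        apply inv_unique
        · rw [← hν2, ← hν2, ← _root_.map_mul, ← _root_.map_mul, ← Con.coe_mul, ← Con.coe_mul]
          have := hreg (FreeSemigroup.of (Sum.inl i))
          rw [hivof] at this
          exact congrArg (fun q => ν (ψ.symm q)) this
        · rw [← hν2, ← hν2, ← _root_.map_mul, ← _root_.map_mul, ← Con.coe_mul, ← Con.coe_mul]
          have := hreg (FreeSemigroup.of (Sum.inr i))
          rw [hivof] at this
          exact congrArg (fun q => ν (ψ.symm q)) this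
    | ih2 a y h1 h2 =>
      rw [toL_mul, ev_append, ev_append, M_append, h1, h2, Con.coe_mul, _root_.map_mul, hν2]
  have hκne : ∀ w : FS m, ev ζ (toL w) ≠ [] := by
    classical
    intro w h
    refine toL_ne w (ev_eq_nil (γ := ζ) hζ1 ?_)
    rw [h, T_nil]
  have hη : ∀ x : β × Bool, ∃ w : FS m, ν (ψ.symm (w : c.Quotient)) = M (ev γ [x]) := by
    intro x
    obtain ⟨s, hs⟩ := (hν3 (M (ev γ [x]))).2 ⟨[x], by simp, rfl⟩
    obtain ⟨w, hw⟩ : ∃ w : FS m, (w : c.Quotient) = ψ s := Quotient.exists_rep (ψ s)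
    exact ⟨w, by rw [hw, MulEquiv.symm_apply_apply, hs]⟩
  choose η hη using hη
  refine ⟨(fun p : FS m × FS m => (ev ζ (toL p.1), ev ζ (toL p.2))) '' {p | p ∈ R} ∪
    Set.range (fun x => (ev ζ (toL (η x)), [x])),
    ((List.finite_toSet R).image _).union (Set.finite_range _), ?_, ?_⟩
  · rintro _ (⟨p, hp, rfl⟩ | ⟨x, rfl⟩)
    · refine ⟨hκne _, hκne _, ?_⟩
      rw [hκ, hκ, c.eq.2 (ConGen.Rel.of p.1 p.2 (Or.inr hp))]
    · exact ⟨hκne _, by simp, by rw [hκ, hη]⟩
  · intro Q _ f hf hR u v hu hv hM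
    have hd : ∀ a b : FS m, c a b → f (ev ζ (toL a)) = f (ev ζ (toL b)) := by
      intro a b h
      refine (Con.conGen_le (c := conOf (fun w => f (ev ζ (toL w))) (fun u u' v v' h h' => by
        simp only [toL_mul, ev_append, hf.app, h, h']))).2 ?_ h
      rintro x y (hxy | hxy)
      · exact hf.munn (M_ev_congr ζ (W_M iv hiv Wg hW hxy))
      · exact hR _ (Or.inl ⟨(x, y), hxy, rfl⟩)
    have key : ∀ v : List (β × Bool), v ≠ [] →
        ∃ w : FS m, f (ev ζ (toL w)) = f v ∧ ν (ψ.symm (w : c.Quotient)) = M (ev γ v) := by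
      intro v
      induction v with
      | nil => intro h; exact absurd rfl h
      | cons x v ih =>
        intro _
        have h1 : f (ev ζ (toL (η x))) = f [x] := hR _ (Or.inr ⟨x, rfl⟩)
        by_cases hv : v = []
        · subst hv; exact ⟨η x, h1, hη x⟩
        · obtain ⟨w, h2, h3⟩ := ih hv
          refine ⟨η x * w, ?_, ?_⟩
          · rw [toL_mul, ev_append, hf.app, h1, h2, ← hf.app]; rfl
          · rw [Con.coe_mul, _root_.map_mul, hν2, hη, h3, ← M_append, ← ev_append]; rfl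
    obtain ⟨w, h1, h2⟩ := key u hu
    obtain ⟨w', h3, h4⟩ := key v hv
    rw [← h1, ← h3]
    refine hd _ _ (c.eq.1 (ψ.symm.injective (hν1 ?_)))
    rw [h2, h4, hM]

/-- the words of the generators -/
def gw {n : ℕ} (g : (Fin n ⊕ Fin n) × List (Fin n ⊕ Fin n)) : List (Fin n × Bool) :=
  (g.1 :: g.2).map cv

include hiv hW in
theorem pres_iff {n : ℕ} (gens : List ((Fin n ⊕ Fin n) × List (Fin n ⊕ Fin n))) :
    (∃ (m : ℕ) (R : List (FS m × FS m)), Nonempty
      (↥(Subsemigroup.closure {x : (conGen (Wg n)).Quotient | ∃ g ∈ gens,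
          x = ((FreeSemigroup.mk g.1 g.2 : FS n) : (conGen (Wg n)).Quotient) ∨
          x = ((iv n (FreeSemigroup.mk g.1 g.2) : FS n) : (conGen (Wg n)).Quotient)}) ≃*
        (conGen (fun u v : FS m => Wg m u v ∨ (u, v) ∈ R)).Quotient)) ↔
    FPL (fun i : Fin gens.length => gw gens[i]) := by
  set c := conGen (Wg n) with hc
  set γ : Fin gens.length → List (Fin n × Bool) := fun i => gw gens[i] with hγ
  set A := {x : c.Quotient | ∃ g ∈ gens,
          x = ((FreeSemigroup.mk g.1 g.2 : FS n) : c.Quotient) ∨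
          x = ((iv n (FreeSemigroup.mk g.1 g.2) : FS n) : c.Quotient)} with hA
  let μ : c.Quotient → Set (FreeGroup (Fin n)) × FreeGroup (Fin n) :=
    fun q => Con.liftOn q (fun w => M (toL w)) (fun a b h => (munn_con iv hiv Wg hW a b).1 h)
  have hμ : ∀ w : FS n, μ (w : c.Quotient) = M (toL w) := fun w => rfl
  have hμ1 : Function.Injective μ := by
    intro x y h
    induction x using Con.induction_on with | H x => ?_
    induction y using Con.induction_on with | H y => ?_
    exact c.eq.2 ((munn_con iv hiv Wg hW x y).2 h)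
  have hμ2 : ∀ x y, μ (x * y) = mul (μ x) (μ y) := by
    intro x y
    induction x using Con.induction_on with | H x => ?_
    induction y using Con.induction_on with | H y => ?_
    rw [← Con.coe_mul, hμ, hμ, hμ, toL_mul, M_append]
  have hAl : ∀ p, (∃ x ∈ A, μ x = p) ↔ ∃ l, M (lam γ l) = p := by
    intro p
    constructor
    · rintro ⟨x, ⟨g, hg, rfl | rfl⟩, rfl⟩
      · obtain ⟨i, rfl⟩ := List.mem_iff_get.1 hg
        exact ⟨(i, true), rfl⟩
      · obtain ⟨i, rfl⟩ := List.mem_iff_get.1 hg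
        exact ⟨(i, false), by rw [hμ, toL_iv iv hiv]; rfl⟩
    · rintro ⟨⟨i, b⟩, rfl⟩
      cases b
      · exact ⟨_, ⟨gens[i], List.getElem_mem _, Or.inr rfl⟩, by rw [hμ, toL_iv iv hiv]; rfl⟩
      · exact ⟨_, ⟨gens[i], List.getElem_mem _, Or.inl rfl⟩, rfl⟩
  have h3 : ∀ p, (∃ s : Subsemigroup.closure A, μ s.1 = p) ↔ ∃ v, v ≠ [] ∧ M (ev γ v) = p := by
    intro p
    constructor
    · rintro ⟨⟨x, hx⟩, rfl⟩
      simp only
      induction hx using Subsemigroup.closure_induction with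
      | mem x hx =>
        obtain ⟨l, hl⟩ := (hAl _).1 ⟨x, hx, rfl⟩
        exact ⟨[l], by simp, by rw [ev_single, hl]⟩
      | mul x y _ _ h1 h2 =>
        obtain ⟨v, hv, h1⟩ := h1
        obtain ⟨v', -, h2⟩ := h2
        exact ⟨v ++ v', by simp [hv], by rw [ev_append, M_append, h1, h2, hμ2]⟩
    · rintro ⟨v, hv, rfl⟩
      induction v with
      | nil => exact absurd rfl hv
      | cons l v ih =>
        obtain ⟨x, hx, h1⟩ := (hAl _).2 ⟨l, rfl⟩
        by_cases hv' : v = []
        · subst hv'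
          exact ⟨⟨x, Subsemigroup.subset_closure hx⟩, by rw [ev_single]; exact h1⟩
        · obtain ⟨s, hs⟩ := ih hv'
          refine ⟨⟨x, Subsemigroup.subset_closure hx⟩ * s, ?_⟩
          rw [ev_cons, M_append, ← h1, ← hs, ← hμ2]; rfl
  have h1 : Function.Injective fun s : Subsemigroup.closure A => μ s.1 :=
    fun s t h => Subtype.ext (hμ1 h)
  have h2 : ∀ x y : Subsemigroup.closure A, μ (x * y).1 = mul (μ x.1) (μ y.1) :=
    fun x y => hμ2 _ _
  constructor
  · rintro ⟨m, R, ⟨ψ⟩⟩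
    exact fpl_of_pres iv hiv Wg hW _ h1 h2 γ h3 R ψ
  · intro h
    exact ⟨_, pres_of_fpl iv hiv Wg hW _ h1 h2 γ h3 h⟩

end

end Pool.Agent.H32Z.FIS
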