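import Pool.Agent.H32Z.FPNec

set_option autoImplicit false
set_option linter.unusedSectionVars false

namespace Pool.Agent.H32Z.FIS

open FreeGroup
open scoped Pointwise

variable {α β : Type} [DecidableEq α]

/-- one move inside `τ` -/
def Move (U : List (List (α × Bool))) (τ : Set (FreeGroup α)) (x x' : FreeGroup α) : Prop :=
  ∃ u ∈ U, (∀ t ∈ T u, x * t ∈ τ) ∧ x' = x * mk u

/-- connection inside `τ` -/
def Conn (U : List (List (α × Bool))) (τ : Set (FreeGroup α)) : FreeGroup α → FreeGroup α → Prop :=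
  Relation.ReflTransGen (Move U τ)

def QC (U : List (List (α × Bool))) (D r : ℕ) : Prop := ∀ (τ : Set (FreeGroup α)) q,
  q.norm ≤ 2 * D + 1 → Conn U τ 1 q → Conn U (τ ∩ {x | x.norm < r}) 1 q

variable {U : List (List (α × Bool))} {D : ℕ}

lemma Conn.mono {τ τ' : Set (FreeGroup α)} {x x' : FreeGroup α}
    (hc : Conn U τ x x') (h : ∀ y ∈ τ, y ∈ τ') : Conn U τ' x x' := by
  induction hc with
  | refl => exact Relation.ReflTransGen.refl
  | tail _ hm ih =>
    obtain ⟨u, hu, h1, h2⟩ := hm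
    exact ih.tail ⟨u, hu, fun t ht => h _ (h1 t ht), h2⟩

lemma Conn.shift {τ τ' : Set (FreeGroup α)} (g : FreeGroup α) (h : ∀ y ∈ τ, g * y ∈ τ')
    {x x' : FreeGroup α} (hc : Conn U τ x x') : Conn U τ' (g * x) (g * x') := by
  induction hc with
  | refl => exact Relation.ReflTransGen.refl
  | tail _ hm ih =>
    obtain ⟨u, hu, h1, rfl⟩ := hm
    exact ih.tail ⟨u, hu, fun t ht => by rw [mul_assoc]; exact h _ (h1 t ht), by rw [mul_assoc]⟩

section words
variable {γ : β → List (α × Bool)} (hU : ∀ u, u ∈ U ↔ ∃ l, lam γ l = u)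
include hU

lemma conn_of_word {τ : Set (FreeGroup α)} (a : List (β × Bool)) (h : T (ev γ a) ⊆ τ) :
    Conn U τ 1 (mk (ev γ a)) := by
  induction a using List.reverseRecOn with
  | nil => rw [ev_nil, mk_nil]; exact Relation.ReflTransGen.refl
  | append_singleton a l ih =>
    refine (ih ((T_ev_left γ _ _).trans h)).tail ⟨lam γ l, (hU _).2 ⟨l, rfl⟩, fun t ht => h ?_, ?_⟩
    · exact (mem_T_ev γ).2 (Or.inr ⟨a, l, [], rfl, t, ht, rfl⟩)
    · rw [mk_ev_append, ev_single]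

lemma word_of_conn {τ : Set (FreeGroup α)} {q : FreeGroup α} (h : Conn U τ 1 q) :
    ∃ a, mk (ev γ a) = q ∧ (a = [] ∨ T (ev γ a) ⊆ τ) := by
  induction h with
  | refl => exact ⟨[], mk_nil, Or.inl rfl⟩
  | tail _ hm ih =>
    obtain ⟨u, hu, h1, rfl⟩ := hm
    obtain ⟨l, rfl⟩ := (hU u).1 hu
    obtain ⟨a, rfl, ha⟩ := ih
    refine ⟨a ++ [l], by rw [mk_ev_append, ev_single], Or.inr (T_ev_append_sub γ ?_ ?_)⟩
    · rcases ha with rfl | ha
      · rw [ev_nil, T_nil]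
        rintro g rfl
        have := h1 1 (one_mem_T _)
        rwa [ev_nil, mk_nil, mul_one] at this
      · exact ha
    · intro t ht; rw [ev_single] at ht; exact h1 t ht

lemma ql_iff_qc : (∃ r, QL γ D r) ↔ ∃ r, QC U D r := by
  constructor
  · rintro ⟨r, h⟩
    refine ⟨r, fun τ q hq hc => ?_⟩
    obtain ⟨a, rfl, ha⟩ := word_of_conn hU hc
    rcases ha with rfl | ha
    · rw [ev_nil, mk_nil]; exact Relation.ReflTransGen.refl
    · obtain ⟨v', h1, h2, h3⟩ := h a hq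
      rw [← h1]
      exact conn_of_word hU v' fun t ht => ⟨ha (h2 ht), h3 t ht⟩
  · rintro ⟨r, h⟩
    refine ⟨r + 1, fun v hv => ?_⟩
    obtain ⟨a, h1, ha⟩ := word_of_conn hU (h _ _ hv (conn_of_word hU v subset_rfl))
    refine ⟨a, h1, ?_⟩
    rcases ha with rfl | ha
    · rw [ev_nil, T_nil]
      refine ⟨?_, ?_⟩
      · rintro g rfl; exact one_mem_T _
      · rintro g rfl; simp
    · exact ⟨fun t ht => (ha ht).1, fun t ht => Nat.lt_succ_of_lt (ha ht).2⟩

end words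

/-- cone of the tree below a vertex reached by the given letter -/
def cone (o : Option (α × Bool)) : Set (FreeGroup α) := {x | ∀ a, o = some a → ¬ side (fl a) x}

def asm (ε : Prop) (σ : α × Bool → Set (FreeGroup α)) : Set (FreeGroup α) :=
  {x | (x = 1 ∧ ε) ∨ ∃ b, ∃ y ∈ σ b, x = mk [b] * y}

def part (τ : Set (FreeGroup α)) (b : α × Bool) : Set (FreeGroup α) :=
  {y | y ∈ cone (some b) ∧ mk [b] * y ∈ τ}

lemma norm_red {w : List (α × Bool)} (hw : IsReduced w) : (mk w).norm = w.length := by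
  rw [FreeGroup.norm, toWord_mk, hw.reduce_eq]

lemma cone_step {b : α × Bool} {y : FreeGroup α} (hy : y ∈ cone (some b)) :
    side b (mk [b] * y) ∧ (mk [b] * y).norm = y.norm + 1 := by
  obtain ⟨w, hw, rfl⟩ := exists_red y
  have h := red_of_not_side hw (hy b rfl)
  rw [fl_fl] at h
  rw [← mk_cons]
  exact ⟨⟨w, h, rfl⟩, by rw [norm_red h, norm_red hw]; rfl⟩

lemma side_unique {b b' : α × Bool} {x : FreeGroup α} (h : side b x) (h' : side b' x) : b = b' := by
  obtain ⟨w, h1, h2⟩ := h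
  obtain ⟨w', h3, h4⟩ := h'
  exact (List.cons.inj (red_inj h1 h3 (h2.trans h4.symm))).1

lemma decomp (x : FreeGroup α) : x = 1 ∨ ∃ b, ∃ y ∈ cone (some b), x = mk [b] * y := by
  obtain ⟨w, hw, rfl⟩ := exists_red x
  cases w with
  | nil => exact Or.inl mk_nil
  | cons b w =>
    refine Or.inr ⟨b, mk w, ?_, mk_cons b w⟩
    rintro a ha ⟨w', h1, h2⟩
    obtain rfl : b = a := Option.some.inj ha
    rw [← red_inj h1 (red_tail hw) h2] at hw
    exact (red_cons_cons.1 hw).1 rfl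

lemma asm_part (τ : Set (FreeGroup α)) : asm (1 ∈ τ) (part τ) = τ := by
  ext x
  constructor
  · rintro (⟨rfl, h⟩ | ⟨b, y, hy, rfl⟩)
    · exact h
    · exact hy.2
  · intro hx
    rcases decomp x with rfl | ⟨b, y, hy, rfl⟩
    · exact Or.inl ⟨rfl, hx⟩
    · exact Or.inr ⟨b, y, ⟨hy, hx⟩, rfl⟩

lemma mem_asm {ε : Prop} {σ : α × Bool → Set (FreeGroup α)} (hσ : ∀ b, σ b ⊆ cone (some b))
    {b : α × Bool} {y : FreeGroup α} (hs : side b (mk [b] * y)) (h : mk [b] * y ∈ asm ε σ) :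
    y ∈ σ b := by
  rcases h with ⟨h, -⟩ | ⟨b', y', hy', h⟩
  · rw [h] at hs; exact absurd hs (not_side_one b)
  · have := side_unique hs (by rw [h]; exact (cone_step (hσ b' hy')).1)
    subst this
    rw [mul_left_cancel h]; exact hy'

lemma asm_cone {ε : Prop} {σ : α × Bool → Set (FreeGroup α)} (hσ : ∀ b, σ b ⊆ cone (some b))
    {o : Option (α × Bool)} (ho : ∀ a, o = some a → σ (fl a) = ∅) : asm ε σ ⊆ cone o := by
  rintro x (⟨rfl, -⟩ | ⟨b, y, hy, rfl⟩) a ha hs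
  · exact not_side_one _ hs
  · have := side_unique hs (cone_step (hσ b hy)).1
    subst this
    rw [ho a ha] at hy
    exact hy

lemma part_empty {τ : Set (FreeGroup α)} {o : Option (α × Bool)} (h : τ ⊆ cone o)
    (a : α × Bool) (ha : o = some a) : part τ (fl a) = ∅ := by
  ext y
  simp only [Set.mem_empty_iff_false, iff_false]
  rintro ⟨h1, h2⟩
  exact h h2 a ha (cone_step h1).1

/-- agreement below depth `k` -/
def Agree (k : ℕ) (τ τ' : Set (FreeGroup α)) : Prop := ∀ x, x.norm < k → (x ∈ τ ↔ x ∈ τ')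

lemma asm_agree {ε : Prop} {σ σ' : α × Bool → Set (FreeGroup α)} (hσ : ∀ b, σ b ⊆ cone (some b))
    (hσ' : ∀ b, σ' b ⊆ cone (some b)) {k : ℕ} (h : ∀ b, Agree k (σ b) (σ' b)) :
    Agree (k + 1) (asm ε σ) (asm ε σ') := by
  intro x hx
  constructor
  · rintro (h1 | ⟨b, y, hy, rfl⟩)
    · exact Or.inl h1
    · rw [(cone_step (hσ b hy)).2] at hx
      exact Or.inr ⟨b, y, (h b y (by omega)).1 hy, rfl⟩
  · rintro (h1 | ⟨b, y, hy, rfl⟩)
    · exact Or.inl h1
    · rw [(cone_step (hσ' b hy)).2] at hx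
      exact Or.inr ⟨b, y, (h b y (by omega)).2 hy, rfl⟩

lemma part_agree {τ τ' : Set (FreeGroup α)} {k : ℕ} (h : Agree (k + 1) τ τ') (b : α × Bool) :
    Agree k (part τ b) (part τ' b) := by
  intro y hy
  refine and_congr_right fun hc => h _ ?_
  rw [(cone_step hc).2]; omega

/-- same behaviour at the interface of depth `E` -/
def Same (U : List (List (α × Bool))) (E : ℕ) (τ τ' : Set (FreeGroup α)) : Prop :=
  Agree (E + 1) τ τ' ∧ ∀ x x', x.norm ≤ E → x'.norm ≤ E → (Conn U τ x x' ↔ Conn U τ' x x')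

lemma Same.symm {E : ℕ} {τ τ' : Set (FreeGroup α)} (h : Same U E τ τ') : Same U E τ' τ :=
  ⟨fun x hx => (h.1 x hx).symm, fun x x' h1 h2 => (h.2 x x' h1 h2).symm⟩

lemma subst_conn (hD : ∀ u ∈ U, u.length ≤ D) {E : ℕ} (hE : D + 1 ≤ E) {ε : Prop}
    {σ σ' : α × Bool → Set (FreeGroup α)} (hσ : ∀ b, σ b ⊆ cone (some b))
    (hσ' : ∀ b, σ' b ⊆ cone (some b)) (h : ∀ b, Same U E (σ b) (σ' b)) {x x' : FreeGroup α}
    (hx : x.norm ≤ E) (hx' : x'.norm ≤ E) (hc : Conn U (asm ε σ) x x') :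
    Conn U (asm ε σ') x x' := by
  have hag := asm_agree (ε := ε) hσ hσ' (fun b => (h b).1)
  have lift : ∀ b y0 z0, z0 ∈ cone (some b) → y0.norm ≤ E → Conn U (σ b) y0 z0 →
      Conn U (asm ε σ') x (mk [b] * y0) → (mk [b] * z0).norm ≤ E →
      Conn U (asm ε σ') x (mk [b] * z0) := by
    intro b y0 z0 h1 h2 h3 h4 h5
    rw [(cone_step h1).2] at h5
    exact h4.trans (Conn.shift (mk [b]) (fun y hy => Or.inr ⟨b, y, hy, rfl⟩)
      (((h b).2 y0 z0 h2 (by omega)).1 h3))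
  have key : ∀ z, Conn U (asm ε σ) x z → (Conn U (asm ε σ') x z ∧ z.norm ≤ E) ∨
      ∃ b y0 z0, z = mk [b] * z0 ∧ z0 ∈ cone (some b) ∧ y0.norm ≤ E ∧ Conn U (σ b) y0 z0 ∧
        Conn U (asm ε σ') x (mk [b] * y0) := by
    intro z hz
    induction hz with
    | refl => exact Or.inl ⟨Relation.ReflTransGen.refl, hx⟩
    | @tail z z' _ hm ih =>
      obtain ⟨u, hu, h1, rfl⟩ := hm
      by_cases h0 : ∃ t0 ∈ T u, z * t0 = 1
      · obtain ⟨t0, ht0, h0⟩ := h0
        have hn : ∀ t ∈ T u, (z * t).norm ≤ D := by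
          intro t ht
          rw [eq_inv_of_mul_eq_one_left h0]
          exact (norm_diam_T ht0 ht).trans (hD u hu)
        have hz : z.norm ≤ D := by
          have := hn 1 (one_mem_T _)
          rwa [mul_one] at this
        have hcz : Conn U (asm ε σ') x z := by
          rcases ih with ih | ⟨b, y0, z0, rfl, h2, h3, h4, h5⟩
          · exact ih.1
          · exact lift b y0 z0 h2 h3 h4 h5 (by omega)
        refine Or.inl ⟨hcz.tail ⟨u, hu, fun t ht => ?_, rfl⟩, ?_⟩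
        · exact (hag _ (by have := hn t ht; omega)).1 (h1 t ht)
        · have := hn _ (mk_mem_T u); omega
      · push Not at h0
        have hz1 : z ≠ 1 := by
          have := h0 1 (one_mem_T _)
          rwa [mul_one] at this
        rcases decomp z with h2 | ⟨b, z0, hz0, rfl⟩
        · exact absurd h2 hz1
        have hs := (cone_step hz0).1
        have hside : ∀ t ∈ T u, side b (mk [b] * (z0 * t)) := by
          intro t ht
          rw [← mul_assoc]
          rcases decomp (mk [b] * z0 * t) with h3 | ⟨b', y', hy', h3⟩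
          · exact absurd h3 (h0 t ht)
          have hs' : side b' (mk [b] * z0 * t) := by rw [h3]; exact (cone_step hy').1
          by_cases hb : b' = b
          · rw [← hb]; rw [← hb] at hs'; exact hs'
          · exfalso
            obtain ⟨p, hp, rfl⟩ := mem_T.1 ht
            obtain ⟨p1, p2, rfl, h4⟩ := cross b' p _ (fun h5 => hb (side_unique h5 hs)) hs'
            exact h0 _ (mem_T.2 ⟨p1, (List.prefix_append _ _).trans hp, rfl⟩) h4
        have hmem : ∀ t ∈ T u, z0 * t ∈ σ b := fun t ht =>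
          mem_asm hσ (hside t ht) (by rw [← mul_assoc]; exact h1 t ht)
        have hmv : Move U (σ b) z0 (z0 * mk u) := ⟨u, hu, hmem, rfl⟩
        right
        rcases ih with ⟨h3, h4⟩ | ⟨b', y0, z0', h2, h3, h4, h5, h6⟩
        · rw [(cone_step hz0).2] at h4
          exact ⟨b, z0, z0 * mk u, mul_assoc _ _ _, hσ b (hmem _ (mk_mem_T u)), by omega,
            Relation.ReflTransGen.single hmv, h3⟩
        · have hb : b = b' := side_unique hs (by rw [h2]; exact (cone_step h3).1)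
          subst hb
          obtain rfl := mul_left_cancel h2
          exact ⟨b, y0, z0 * mk u, mul_assoc _ _ _, hσ b (hmem _ (mk_mem_T u)), h4,
            h5.tail hmv, h6⟩
  rcases key x' hc with h1 | ⟨b, y0, z0, rfl, h2, h3, h4, h5⟩
  · exact h1.1
  · exact lift b y0 z0 h2 h3 h4 h5 hx'

lemma subst_same (hD : ∀ u ∈ U, u.length ≤ D) {E : ℕ} (hE : D + 1 ≤ E) {ε : Prop}
    {σ σ' : α × Bool → Set (FreeGroup α)} (hσ : ∀ b, σ b ⊆ cone (some b))
    (hσ' : ∀ b, σ' b ⊆ cone (some b)) (h : ∀ b, Same U E (σ b) (σ' b)) :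
    Same U E (asm ε σ) (asm ε σ') :=
  ⟨fun x hx => asm_agree hσ hσ' (fun b => (h b).1) x (by omega), fun _ _ h1 h2 =>
    ⟨subst_conn hD hE hσ hσ' h h1 h2, subst_conn hD hE hσ' hσ (fun b => (h b).symm) h1 h2⟩⟩

lemma stab {κ : Type} [Fintype κ] (S : ℕ → Set κ) (hanti : ∀ k, S (k + 1) ⊆ S k)
    (hstep : ∀ k, S k ⊆ S (k + 1) → S (k + 1) ⊆ S (k + 2)) {N : ℕ} (hN : Fintype.card κ ≤ N)
    (j : ℕ) : S N ⊆ S (N + j) := by
  obtain ⟨k, hk, hk2⟩ : ∃ k, k ≤ N ∧ S k ⊆ S (k + 1) := by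
    by_contra hno
    push Not at hno
    have : ∀ k, k ≤ N + 1 → (S k).ncard + k ≤ N := by
      intro k
      induction k with
      | zero =>
        intro _
        have := Set.ncard_le_ncard (Set.subset_univ (S 0))
        rw [Set.ncard_univ, Nat.card_eq_fintype_card] at this
        omega
      | succ k ih =>
        intro h
        have h1 := ih (by omega)
        have h2 : (S (k + 1)).ncard < (S k).ncard :=
          Set.ncard_lt_ncard ⟨hanti k, hno k (by omega)⟩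
        omega
    have := this (N + 1) le_rfl
    omega
  have h1 : ∀ i, S (k + i) ⊆ S (k + i + 1) := by
    intro i
    induction i with
    | zero => exact hk2
    | succ i ih => exact hstep _ ih
  induction j with
  | zero => exact subset_rfl
  | succ j ih =>
    refine ih.trans ?_
    have := h1 (N + j - k)
    rwa [show k + (N + j - k) = N + j by omega] at this

section beh
variable {ι : Type} (e : ι → FreeGroup α)

/-- finite description of the behaviour -/
def beh (U : List (List (α × Bool))) (τ : Set (FreeGroup α)) : Set ι × Set (ι × ι) :=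
  ({i | e i ∈ τ}, {p | Conn U τ (e p.1) (e p.2)})

variable {e} {E : ℕ} (he : ∀ x, x.norm ≤ E ↔ ∃ i, e i = x)
include he

lemma beh_eq {τ τ' : Set (FreeGroup α)} : beh e U τ = beh e U τ' ↔ Same U E τ τ' := by
  simp only [beh, Prod.mk.injEq, Set.ext_iff, Set.mem_ofPred_eq]
  constructor
  · rintro ⟨h1, h2⟩
    refine ⟨fun x hx => ?_, fun x x' hx hx' => ?_⟩
    · obtain ⟨i, rfl⟩ := (he x).1 (by omega)
      exact h1 i
    · obtain ⟨i, rfl⟩ := (he x).1 hx
      obtain ⟨j, rfl⟩ := (he x').1 hx'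
      exact h2 (i, j)
  · rintro ⟨h1, h2⟩
    exact ⟨fun i => h1 _ (Nat.lt_succ_of_le ((he _).2 ⟨i, rfl⟩)),
      fun p => h2 _ _ ((he _).2 ⟨_, rfl⟩) ((he _).2 ⟨_, rfl⟩)⟩

variable [Fintype ι] [Fintype α] (hD : ∀ u ∈ U, u.length ≤ D) (hE : D + 1 ≤ E)
include hD hE

lemma pump_up {N : ℕ}
    (hN : Fintype.card (Option (α × Bool) × (Set ι × Set (ι × ι)) × (Set ι × Set (ι × ι))) ≤ N)
    (j : ℕ) {τ τ' : Set (FreeGroup α)} (h : Agree N τ τ') :
    ∃ σ σ', Agree (N + j) σ σ' ∧ Same U E σ τ ∧ Same U E σ' τ' := by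
  classical
  let S : ℕ → Set (Option (α × Bool) × (Set ι × Set (ι × ι)) × (Set ι × Set (ι × ι))) :=
    fun k => {p | ∃ τ τ', τ ⊆ cone p.1 ∧ τ' ⊆ cone p.1 ∧ Agree k τ τ' ∧
      beh e U τ = p.2.1 ∧ beh e U τ' = p.2.2}
  have := stab S ?_ ?_ hN j (a := (none, beh e U τ, beh e U τ'))
    ⟨τ, τ', fun x _ a ha => by simp at ha, fun x _ a ha => by simp at ha, h, rfl, rfl⟩
  · obtain ⟨σ, σ', -, -, h1, h2, h3⟩ := this
    exact ⟨σ, σ', h1, (beh_eq he).1 h2, (beh_eq he).1 h3⟩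
  · rintro k p ⟨τ, τ', h1, h2, h3, h4⟩
    exact ⟨τ, τ', h1, h2, fun x hx => h3 x (by omega), h4⟩
  · rintro k hk p ⟨τ, τ', h1, h2, h3, h4, h5⟩
    have hb : ∀ b, ∃ σ σ', σ ⊆ cone (some b) ∧ σ' ⊆ cone (some b) ∧ Agree (k + 1) σ σ' ∧
        Same U E σ (part τ b) ∧ Same U E σ' (part τ' b) ∧
        (part τ b = ∅ → part τ' b = ∅ → σ = ∅ ∧ σ' = ∅) := by
      intro b
      by_cases hem : part τ b = ∅ ∧ part τ' b = ∅
      · refine ⟨∅, ∅, Set.empty_subset _, Set.empty_subset _, fun _ _ => Iff.rfl, ?_, ?_,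
          fun _ _ => ⟨rfl, rfl⟩⟩
        · rw [hem.1]; exact (beh_eq he).1 rfl
        · rw [hem.2]; exact (beh_eq he).1 rfl
      · obtain ⟨σ, σ', a1, a2, a3, a4, a5⟩ := hk (a := (some b, beh e U (part τ b),
          beh e U (part τ' b))) ⟨_, _, fun y hy => hy.1, fun y hy => hy.1, part_agree h3 b, rfl, rfl⟩
        exact ⟨σ, σ', a1, a2, a3, (beh_eq he).1 a4, (beh_eq he).1 a5,
          fun b1 b2 => absurd ⟨b1, b2⟩ hem⟩
    choose σ σ' a1 a2 a3 a4 a5 a6 using hb
    have hone : (1 ∈ τ') = (1 ∈ τ) := propext (h3 1 (by simp)).symm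
    refine ⟨asm (1 ∈ τ) σ, asm (1 ∈ τ) σ', asm_cone a1 fun a ha => ?_, asm_cone a2 fun a ha => ?_,
      asm_agree a1 a2 a3, ?_, ?_⟩
    · exact (a6 _ (part_empty h1 a ha) (part_empty h2 a ha)).1
    · exact (a6 _ (part_empty h1 a ha) (part_empty h2 a ha)).2
    · rw [← h4, beh_eq he]
      conv_rhs => rw [← asm_part τ]
      exact subst_same hD hE a1 (fun b y hy => hy.1) a4
    · rw [← h5, beh_eq he]
      conv_rhs => rw [← asm_part τ', hone]
      exact subst_same hD hE a2 (fun b y hy => hy.1) a5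

lemma asm_bound {ε : Prop} {σ : α × Bool → Set (FreeGroup α)} (hσ : ∀ b, σ b ⊆ cone (some b))
    {m : ℕ} (h : ∀ b, ∀ y ∈ σ b, y.norm < m) : ∀ x ∈ asm ε σ, x.norm < m + 1 := by
  rintro x (⟨rfl, -⟩ | ⟨b, y, hy, rfl⟩)
  · simp
  · rw [(cone_step (hσ b hy)).2]
    have := h b y hy
    omega

lemma part_bound {τ : Set (FreeGroup α)} {m : ℕ} (h : ∀ x ∈ τ, x.norm < m + 1) (b : α × Bool) :
    ∀ y ∈ part τ b, y.norm < m := by
  intro y hy
  have := h _ hy.2
  rw [(cone_step hy.1).2] at this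
  omega

lemma pump_down0 {N : ℕ} (hN : Fintype.card (Option (α × Bool) × (Set ι × Set (ι × ι))) ≤ N)
    (m : ℕ) (o : Option (α × Bool)) {τ : Set (FreeGroup α)} (h1 : τ ⊆ cone o)
    (h2 : ∀ x ∈ τ, x.norm < m) :
    ∃ σ, σ ⊆ cone o ∧ (∀ x ∈ σ, x.norm < N) ∧ Same U E σ τ := by
  classical
  let A : ℕ → Set (Option (α × Bool) × (Set ι × Set (ι × ι))) :=
    fun k => {p | ∃ τ, τ ⊆ cone p.1 ∧ (∀ x ∈ τ, x.norm < k) ∧ beh e U τ = p.2}
  have := stab (fun k => (A k)ᶜ) ?_ ?_ hN m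
  · have h3 := (Set.compl_subset_compl.1 this : A (N + m) ⊆ A N) (a := (o, beh e U τ))
      ⟨τ, h1, fun x hx => by have := h2 x hx; omega, rfl⟩
    obtain ⟨σ, a1, a2, a3⟩ := h3
    exact ⟨σ, a1, a2, (beh_eq he).1 a3⟩
  · intro k
    rw [Set.compl_subset_compl]
    rintro p ⟨τ, a1, a2, a3⟩
    exact ⟨τ, a1, fun x hx => by have := a2 x hx; omega, a3⟩
  · intro k hk
    rw [Set.compl_subset_compl] at hk ⊢
    rintro p ⟨τ, a1, a2, a3⟩
    have hb : ∀ b, ∃ σ, σ ⊆ cone (some b) ∧ (∀ x ∈ σ, x.norm < k) ∧ Same U E σ (part τ b) ∧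
        (part τ b = ∅ → σ = ∅) := by
      intro b
      by_cases hem : part τ b = ∅
      · refine ⟨∅, Set.empty_subset _, by simp, ?_, fun _ => rfl⟩
        rw [hem]; exact (beh_eq he).1 rfl
      · obtain ⟨σ, c1, c2, c3⟩ := hk (a := (some b, beh e U (part τ b)))
          ⟨_, fun y hy => hy.1, part_bound he hD hE a2 b, rfl⟩
        exact ⟨σ, c1, c2, (beh_eq he).1 c3, fun b1 => absurd b1 hem⟩
    choose σ c1 c2 c3 c4 using hb
    refine ⟨asm (1 ∈ τ) σ, asm_cone c1 fun a ha => c4 _ (part_empty a1 a ha),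
      asm_bound he hD hE c1 c2, ?_⟩
    rw [← a3, beh_eq he]
    conv_rhs => rw [← asm_part τ]
    exact subst_same hD hE c1 (fun b y hy => hy.1) c3

lemma pump_down {N : ℕ} (hN : Fintype.card (Option (α × Bool) × (Set ι × Set (ι × ι))) ≤ N)
    (k : ℕ) : ∀ (m : ℕ) (o : Option (α × Bool)) (τ : Set (FreeGroup α)), τ ⊆ cone o →
    (∀ x ∈ τ, x.norm < m) →
    ∃ σ, σ ⊆ cone o ∧ (∀ x ∈ σ, x.norm < N + k) ∧ Same U E σ τ ∧ Agree k σ τ := by
  induction k with
  | zero =>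
    intro m o τ h1 h2
    obtain ⟨σ, a1, a2, a3⟩ := pump_down0 he hD hE hN m o h1 h2
    exact ⟨σ, a1, a2, a3, fun x hx => absurd hx (by omega)⟩
  | succ k ih =>
    intro m o τ h1 h2
    have hb : ∀ b, ∃ σ, σ ⊆ cone (some b) ∧ (∀ x ∈ σ, x.norm < N + k) ∧ Same U E σ (part τ b) ∧
        Agree k σ (part τ b) ∧ (part τ b = ∅ → σ = ∅) := by
      intro b
      by_cases hem : part τ b = ∅
      · refine ⟨∅, Set.empty_subset _, by simp, ?_, ?_, fun _ => rfl⟩
        · rw [hem]; exact (beh_eq he).1 rfl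
        · rw [hem]; exact fun _ _ => Iff.rfl
      · obtain ⟨σ, c1, c2, c3, c4⟩ := ih m (some b) (part τ b) (fun y hy => hy.1)
          (part_bound he hD hE (fun x hx => by have := h2 x hx; omega) b)
        exact ⟨σ, c1, c2, c3, c4, fun b1 => absurd b1 hem⟩
    choose σ c1 c2 c3 c4 c5 using hb
    refine ⟨asm (1 ∈ τ) σ, asm_cone c1 fun a ha => c5 _ (part_empty h1 a ha),
      asm_bound he hD hE c1 c2, ?_, ?_⟩
    · conv_rhs => rw [← asm_part τ]
      exact subst_same hD hE c1 (fun b y hy => hy.1) c3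
    · conv_rhs => rw [← asm_part τ]
      exact asm_agree c1 (fun b y hy => hy.1) c4

omit he hD hE in
lemma conn_bounded {τ : Set (FreeGroup α)} {x q : FreeGroup α} (h : Conn U τ x q) :
    ∃ m, Conn U (τ ∩ {x | x.norm < m}) x q := by
  induction h with
  | refl => exact ⟨0, Relation.ReflTransGen.refl⟩
  | @tail z z' _ hm ih =>
    obtain ⟨m, ih⟩ := ih
    obtain ⟨u, hu, h1, rfl⟩ := hm
    refine ⟨m + z.norm + u.length + 1, Relation.ReflTransGen.tail
      (Conn.mono (τ' := τ ∩ {x | x.norm < m + z.norm + u.length + 1}) ih (fun y hy => ⟨hy.1, ?_⟩))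
      ⟨u, hu, fun t ht => ⟨h1 t ht, ?_⟩, rfl⟩⟩
    · have := hy.2
      simp only [Set.mem_ofPred_eq] at this ⊢
      omega
    · have t1 := norm_mul_le z t
      have t2 := norm_mem_T ht
      simp only [Set.mem_ofPred_eq]
      omega

theorem qc_iff_bounded (hE2 : 2 * D + 1 ≤ E) {N : ℕ}
    (hN : Fintype.card (Option (α × Bool) × (Set ι × Set (ι × ι)) × (Set ι × Set (ι × ι))) ≤ N) :
    (∃ r, QC U D r) ↔ ∀ (τ : Set (FreeGroup α)) q, (∀ x ∈ τ, x.norm < N + N) →
      q.norm ≤ 2 * D + 1 → Conn U τ 1 q → Conn U (τ ∩ {x | x.norm < N}) 1 q := by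
  have hN' : Fintype.card (Option (α × Bool) × (Set ι × Set (ι × ι))) ≤ N := by
    refine le_trans (Fintype.card_le_of_injective (fun p => (p.1, p.2, p.2)) ?_) hN
    rintro ⟨a, b⟩ ⟨c, d⟩ h
    simp only [Prod.mk.injEq] at h
    exact Prod.ext h.1 h.2.1
  constructor
  · rintro ⟨r, hr⟩ τ q _ hq hc
    obtain ⟨σ, σ', h1, h2, h3⟩ := pump_up he hD hE hN r (τ := τ) (τ' := τ ∩ {x | x.norm < N})
      (fun x hx => ⟨fun h => ⟨h, hx⟩, fun h => h.1⟩)
    have h4 := hr σ q hq ((h2.2 1 q (by simp) (by omega)).2 hc)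
    refine (h3.2 1 q (by simp) (by omega)).1 (Conn.mono h4 fun x hx => (h1 x ?_).1 hx.1)
    have := hx.2
    simp only [Set.mem_ofPred_eq] at this
    omega
  · intro h
    refine ⟨N, fun τ q hq hc => ?_⟩
    obtain ⟨m, hm⟩ := conn_bounded hc
    obtain ⟨σ, -, h1, h2, h3⟩ := pump_down he hD hE hN' N m none (τ ∩ {x | x.norm < m})
      (fun x _ a ha => by simp at ha) (fun x hx => hx.2)
    refine Conn.mono (h σ q h1 hq ((h2.2 1 q (by simp) (by omega)).2 hm)) fun x hx => ⟨?_, hx.2⟩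
    exact ((h3 x hx.2).1 hx.1).1

end beh

end Pool.Agent.H32Z.FIS
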