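import Pool.Agent.H32Z.FISDec
import Pool.Agent.H32Z.FPCone
import Pool.Agent.H32Z.FPBridge

set_option autoImplicit false
set_option linter.unusedSectionVars false

namespace Pool.Agent.H32Z.FIS

open FreeGroup

section tags2
variable {α β : Type} [Primcodable α] [Primcodable β]

@[fun_prop] theorem pr_length {f : α → List β} (hf : Primrec f) :
    Primrec fun a => (f a).length := Primrec.list_length.comp hf
@[fun_prop] theorem pr_flatten {f : α → List (List β)} (hf : Primrec f) :
    Primrec fun a => (f a).flatten := Primrec.list_flatten.comp hf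
@[fun_prop] theorem pr_add {f g : α → ℕ} (hf : Primrec f) (hg : Primrec g) :
    Primrec fun a => f a + g a := Primrec.nat_add.comp hf hg
@[fun_prop] theorem pr_mul {f g : α → ℕ} (hf : Primrec f) (hg : Primrec g) :
    Primrec fun a => f a * g a := Primrec.nat_mul.comp hf hg
@[fun_prop] theorem pr_pow {f g : α → ℕ} (hf : Primrec f) (hg : Primrec g) :
    Primrec fun a => f a ^ g a :=
  (Primrec₂.unpaired'.1 Nat.Primrec.pow : Primrec₂ ((· ^ ·) : ℕ → ℕ → ℕ)).comp hf hg

/-- boolean comparison -/
def ltb (a b : ℕ) : Bool := decide (a < b)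

@[simp] lemma ltb_iff {a b : ℕ} : ltb a b = true ↔ a < b := by simp [ltb]

@[fun_prop] theorem pr_ltb {f g : α → ℕ} (hf : Primrec f) (hg : Primrec g) :
    Primrec fun a => ltb (f a) (g a) := (Primrec.nat_lt.comp hf hg).decide

end tags2

variable {α : Type} [DecidableEq α]

/-- words -/
abbrev Wd (α : Type) := List (α × Bool)

@[fun_prop] lemma pr_reduce2 [Primcodable α] : Primrec (FreeGroup.reduce : Wd α → Wd α) := by
  have h1 : Primrec fun w : Wd α => w.foldr (fun (l : α × Bool) (acc : Wd α) =>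
      (List.casesOn acc [l] fun hd tl => bif eqb l (fl hd) then tl else l :: hd :: tl : Wd α))
        [] := by
    refine pr_foldr (α := Wd α) (β := α × Bool) (γ := Wd α) (f := fun w => w)
      (g := fun _ => [])
      (h := fun _ l acc => (List.casesOn acc [l] fun hd tl =>
        bif eqb l (fl hd) then tl else l :: hd :: tl : Wd α)) Primrec.id (Primrec.const []) ?_
    refine Primrec.list_casesOn (α := Wd α × ((α × Bool) × Wd α)) (β := α × Bool) (σ := Wd α)
      (f := fun q => q.2.2) (g := fun q => [q.2.1])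
      (h := fun q r => bif eqb q.2.1 (fl r.1) then r.2 else q.2.1 :: r.1 :: r.2) (by fun_prop)
      (by fun_prop) ?_
    unfold Primrec₂
    fun_prop
  refine h1.of_eq fun w => ?_
  induction w with
  | nil => rfl
  | cons l w ih =>
    rw [FreeGroup.reduce.cons, List.foldr_cons, ih]
    cases FreeGroup.reduce w with
    | nil => rfl
    | cons hd tl =>
      have e : (l = fl hd) ↔ (l.1 = hd.1 ∧ l.2 = !hd.2) := by
        unfold fl
        rw [Prod.ext_iff]
      by_cases h : l = fl hd
      · have h2 := eqb_iff.2 h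
        simp only [h2, cond_true, if_pos (e.1 h)]
      · have h2 : eqb l (fl hd) = false := by
          rw [← Bool.not_eq_true, eqb_iff]; exact h
        simp only [h2, cond_false, if_neg (fun h3 => h (e.2 h3))]

/-- equality in the free group -/
noncomputable def eqh (u v : Wd α) : Bool := eqb (reduce u) (reduce v)

@[simp] lemma eqh_iff {u v : Wd α} : eqh u v = true ↔ mk u = mk v := by
  rw [eqh, eqb_iff]
  exact ⟨reduce.exact, reduce.sound⟩

@[fun_prop] lemma pr_eqh [Primcodable α] {δ : Type} [Primcodable δ] {f g : δ → Wd α}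
    (hf : Primrec f) (hg : Primrec g) : Primrec fun a => eqh (f a) (g a) := by
  unfold eqh; fun_prop

/-- one more letter -/
def stepW (LA : List (α × Bool)) (L : List (Wd α)) : List (Wd α) :=
  [] :: L.flatMap fun w => LA.map fun a => a :: w

/-- all words of bounded length -/
def allW (LA : List (α × Bool)) (k : ℕ) : List (Wd α) := (stepW LA)^[k] [[]]

lemma mem_allW {LA : List (α × Bool)} (hLA : ∀ a, a ∈ LA) {k : ℕ} {w : Wd α} :
    w ∈ allW LA k ↔ w.length ≤ k := by
  induction k generalizing w with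
  | zero => simp [allW]
  | succ k ih =>
    have e : allW LA (k + 1) = stepW LA (allW LA k) := Function.iterate_succ_apply' _ _ _
    rw [e, stepW, List.mem_cons, List.mem_flatMap]
    cases w with
    | nil => simp
    | cons a w =>
      simp only [List.mem_map, List.length_cons, Nat.add_le_add_iff_right]
      constructor
      · rintro (h | ⟨v, hv, b, -, h⟩)
        · exact absurd h (List.cons_ne_nil _ _)
        · obtain ⟨-, rfl⟩ := List.cons.inj h
          exact ih.1 hv
      · intro h
        exact Or.inr ⟨w, ih.2 h, a, hLA a, rfl⟩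

@[fun_prop] lemma pr_allW [Primcodable α] (LA : List (α × Bool)) : Primrec (allW LA) := by
  refine Primrec.nat_iterate (f := fun k : ℕ => k) (g := fun _ => ([[]] : List (Wd α)))
    (h := fun _ L => stepW LA L) Primrec.id (Primrec.const _) ?_
  unfold Primrec₂ stepW
  fun_prop

lemma norm_le_iff {LA : List (α × Bool)} (hLA : ∀ a, a ∈ LA) {k : ℕ} {x : FreeGroup α} :
    x.norm ≤ k ↔ ∃ w ∈ allW LA k, mk w = x := by
  constructor
  · intro h
    exact ⟨x.toWord, (mem_allW hLA).2 h, mk_toWord⟩
  · rintro ⟨w, hw, rfl⟩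
    exact norm_mk_le.trans ((mem_allW hLA).1 hw)

/-- membership in the finite region -/
noncomputable def inT (τl : List (Wd α)) (m : ℕ) (w : Wd α) : Bool :=
  τl.any fun y => eqh y w && ltb (reduce w).length m

/-- the region -/
def reg (τl : List (Wd α)) (m : ℕ) : Set (FreeGroup α) :=
  {x | (∃ y ∈ τl, mk y = x) ∧ x.norm < m}

lemma inT_iff {τl : List (Wd α)} {m : ℕ} {w : Wd α} : inT τl m w = true ↔ mk w ∈ reg τl m := by
  simp only [inT, reg, List.any_eq_true, Bool.and_eq_true, eqh_iff, ltb_iff, Set.mem_ofPred_eq,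
    FreeGroup.norm, toWord_mk]
  constructor
  · rintro ⟨y, h1, h2, h3⟩
    exact ⟨⟨y, h1, h2⟩, h3⟩
  · rintro ⟨⟨y, h1, h2⟩, h3⟩
    exact ⟨y, h1, h2, h3⟩

@[fun_prop] lemma pr_inT [Primcodable α] {δ : Type} [Primcodable δ] {f : δ → List (Wd α)}
    {g : δ → ℕ} {h : δ → Wd α} (hf : Primrec f) (hg : Primrec g) (hh : Primrec h) :
    Primrec fun a => inT (f a) (g a) (h a) := by
  unfold inT; fun_prop

noncomputable def clB (U B τl : List (Wd α)) (m : ℕ) (C : List (Wd α)) : Bool :=
  memb [] C && C.all fun p => U.all fun u => !(u.inits.all fun s => inT τl m (p ++ s)) ||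
    B.all fun w => !(eqh w (p ++ u)) || memb w C

@[fun_prop] lemma pr_clB [Primcodable α] {δ : Type} [Primcodable δ] {U B f C : δ → List (Wd α)}
    {g : δ → ℕ} (hU : Primrec U) (hB : Primrec B) (hf : Primrec f) (hg : Primrec g)
    (hC : Primrec C) : Primrec fun a => clB (U a) (B a) (f a) (g a) (C a) := by
  unfold clB; fun_prop

noncomputable def connB (U B τl : List (Wd α)) (m : ℕ) (q : Wd α) : Bool :=
  B.sublists'.all fun C => !(clB U B τl m C) || C.any fun w => eqh w q

@[fun_prop] lemma pr_connB [Primcodable α] {δ : Type} [Primcodable δ] {U B f : δ → List (Wd α)}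
    {g : δ → ℕ} {q : δ → Wd α} (hU : Primrec U) (hB : Primrec B) (hf : Primrec f) (hg : Primrec g)
    (hq : Primrec q) : Primrec fun a => connB (U a) (B a) (f a) (g a) (q a) := by
  unfold connB; fun_prop

lemma connB_iff {U B τl : List (Wd α)} {m : ℕ} {q : Wd α} (h0 : [] ∈ B) (hB : τl ⊆ B) :
    connB U B τl m q = true ↔ Conn U (reg τl m) 1 (mk q) := by
  classical
  simp only [connB, clB, List.all_eq_true, List.any_eq_true, Bool.or_eq_true, Bool.and_eq_true,
    Bool.not_eq_true', ← Bool.not_eq_true, ← imp_iff_not_or, memb_iff, eqh_iff, inT_iff,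
    List.mem_sublists', List.mem_inits]
  constructor
  · intro h
    obtain ⟨w, hw, e⟩ := h (B.filter fun w => decide (Conn U (reg τl m) 1 (mk w)))
      List.filter_sublist (by
        refine ⟨?_, ?_⟩
        · rw [List.mem_filter, decide_eq_true_eq, mk_nil]
          exact ⟨h0, Relation.ReflTransGen.refl⟩
        · intro p hp u hu hs w hw e
          rw [List.mem_filter, decide_eq_true_eq] at hp ⊢
          refine ⟨hw, hp.2.tail ⟨u, hu, ?_, by rw [e, mk_app]⟩⟩
          intro t ht
          obtain ⟨s, h1, rfl⟩ := mem_T.1 ht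
          rw [← mk_app]
          exact hs s h1)
    rw [List.mem_filter, decide_eq_true_eq] at hw
    rw [← e]; exact hw.2
  · intro h C _ hC
    generalize mk q = x at h
    induction h with
    | refl => exact ⟨[], hC.1, mk_nil⟩
    | tail _ hm ih =>
      obtain ⟨p, hp, rfl⟩ := ih
      obtain ⟨u, hu, h1, rfl⟩ := hm
      obtain ⟨⟨y, hy, e⟩, -⟩ := h1 (mk u) (mem_T.2 ⟨u, List.prefix_rfl, rfl⟩)
      refine ⟨y, hC.2 p hp u hu (fun s hs => ?_) y (hB hy) (by rw [e, mk_app]), e⟩
      rw [mk_app]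
      exact h1 _ (mem_T.2 ⟨s, hs, rfl⟩)

/-- the size bound -/
def bnd (a b : ℕ) : ℕ := (a + 1) * ((2 ^ b * 2 ^ (b * b)) * (2 ^ b * 2 ^ (b * b)))

@[fun_prop] lemma pr_bnd {δ : Type} [Primcodable δ] {f g : δ → ℕ}
    (hf : Primrec f) (hg : Primrec g) : Primrec fun a => bnd (f a) (g a) := by
  unfold bnd; fun_prop

noncomputable def testB (LA : List (α × Bool)) (U : List (Wd α)) (E N : ℕ) : Bool :=
  (allW LA (N + N)).sublists'.all fun τl => (allW LA E).all fun q =>
    !(connB U (allW LA (N + N)) τl (N + N) q) || connB U (allW LA (N + N)) τl N q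

@[fun_prop] lemma pr_testB [Primcodable α] (LA : List (α × Bool)) {δ : Type} [Primcodable δ]
    {U : δ → List (Wd α)} {f g : δ → ℕ} (hU : Primrec U) (hf : Primrec f) (hg : Primrec g) :
    Primrec fun a => testB LA (U a) (f a) (g a) := by
  unfold testB; fun_prop

lemma testB_iff {LA : List (α × Bool)} (hLA : ∀ a, a ∈ LA) {U : List (Wd α)} {E N : ℕ} :
    testB LA U E N = true ↔ ∀ (τ : Set (FreeGroup α)) q, (∀ x ∈ τ, x.norm < N + N) →
      q.norm ≤ E → Conn U τ 1 q → Conn U (τ ∩ {x | x.norm < N}) 1 q := by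
  classical
  have h0 : [] ∈ allW LA (N + N) := (mem_allW hLA).2 (Nat.zero_le _)
  simp only [testB, List.all_eq_true, Bool.or_eq_true,
    Bool.not_eq_true', ← Bool.not_eq_true, ← imp_iff_not_or, List.mem_sublists']
  constructor
  · intro h τ q hτ hq hc
    obtain ⟨w, hw, rfl⟩ := (norm_le_iff hLA).1 hq
    have hs : ((allW LA (N + N)).filter fun w => decide (mk w ∈ τ)).Sublist (allW LA (N + N)) :=
      List.filter_sublist
    have := h _ hs w hw
    rw [connB_iff h0 hs.subset, connB_iff h0 hs.subset] at this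
    refine (this (hc.mono fun y hy => ⟨?_, hτ y hy⟩)).mono ?_
    · obtain ⟨v, hv, rfl⟩ := (norm_le_iff hLA).1 (hτ y hy).le
      exact ⟨v, by rw [List.mem_filter, decide_eq_true_eq]; exact ⟨hv, hy⟩, rfl⟩
    · rintro y ⟨⟨v, hv, rfl⟩, h2⟩
      rw [List.mem_filter, decide_eq_true_eq] at hv
      exact ⟨hv.2, h2⟩
  · intro h τl hs q hq
    rw [connB_iff h0 hs.subset, connB_iff h0 hs.subset]
    intro hc
    refine (h _ _ (fun x hx => hx.2) ((norm_le_iff hLA).2 ⟨q, hq, rfl⟩) hc).mono ?_
    rintro y ⟨⟨h1, -⟩, h2⟩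
    exact ⟨h1, h2⟩

noncomputable def decB (LA : List (α × Bool)) (G : List (Wd α)) : Bool :=
  testB LA (G ++ G.map fun w => invRev w) (2 * G.flatten.length + 1)
    (bnd LA.length (allW LA (2 * G.flatten.length + 1)).length)

@[fun_prop] lemma pr_decB [Primcodable α] (LA : List (α × Bool)) : Primrec (decB LA) := by
  unfold decB; fun_prop

theorem decB_iff [Fintype α] {LA : List (α × Bool)} (hLA : ∀ a, a ∈ LA) {G : List (Wd α)}
    {β : Type} [Finite β] (γ : β → Wd α) (hγ : ∀ u, u ∈ G ↔ ∃ z, γ z = u)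
    (hne : ∀ z, γ z ≠ []) : decB LA G = true ↔ FPL γ := by
  classical
  have hD : ∀ z, (γ z).length ≤ G.flatten.length := fun z =>
    (List.sublist_flatten_of_mem ((hγ _).2 ⟨z, rfl⟩)).length_le
  have hU : ∀ u, u ∈ (G ++ G.map fun w => invRev w) ↔ ∃ l, lam γ l = u := by
    intro u
    rw [List.mem_append, List.mem_map]
    constructor
    · rintro (h | ⟨w, h, rfl⟩)
      · obtain ⟨z, rfl⟩ := (hγ _).1 h
        exact ⟨(z, true), rfl⟩
      · obtain ⟨z, rfl⟩ := (hγ _).1 h
        exact ⟨(z, false), rfl⟩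
    · rintro ⟨⟨z, b⟩, rfl⟩
      cases b
      · exact Or.inr ⟨γ z, (hγ _).2 ⟨z, rfl⟩, rfl⟩
      · exact Or.inl ((hγ _).2 ⟨z, rfl⟩)
  have hD' : ∀ u ∈ (G ++ G.map fun w => invRev w), u.length ≤ G.flatten.length := by
    intro u hu
    obtain ⟨l, rfl⟩ := (hU u).1 hu
    exact lam_len hD l
  have he : ∀ x : FreeGroup α, x.norm ≤ 2 * G.flatten.length + 1 ↔
      ∃ i : Fin (allW LA (2 * G.flatten.length + 1)).length,
        mk ((allW LA (2 * G.flatten.length + 1)).get i) = x := by
    intro x
    rw [norm_le_iff hLA]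
    constructor
    · rintro ⟨w, hw, rfl⟩
      obtain ⟨i, rfl⟩ := List.mem_iff_get.1 hw
      exact ⟨i, rfl⟩
    · rintro ⟨i, rfl⟩
      exact ⟨_, List.get_mem _ i, rfl⟩
  have hc : Fintype.card (α × Bool) ≤ LA.length := by
    have : (Finset.univ : Finset (α × Bool)) ⊆ LA.toFinset := fun a _ => List.mem_toFinset.2 (hLA a)
    exact (Finset.card_le_card this).trans (List.toFinset_card_le _)
  rw [decB, testB_iff hLA, ← qc_iff_bounded he hD' (by omega) le_rfl, ← ql_iff_qc hU]
  · exact ⟨fun ⟨r, h⟩ => fpl_of_ql hD hne h, ql_of_fpl hD⟩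
  · simp only [Fintype.card_prod (Option (α × Bool)), Fintype.card_option,
      Fintype.card_prod (Set _ × Set _), Fintype.card_prod (Set _), Fintype.card_set,
      Fintype.card_prod (Fin _), Fintype.card_fin, bnd]
    exact Nat.mul_le_mul_right _ (Nat.succ_le_succ hc)

theorem fp_decidable (n : ℕ) :
    ComputablePred fun gens : List ((Fin n ⊕ Fin n) × List (Fin n ⊕ Fin n)) =>
      FPL (fun i : Fin gens.length => gw gens[i]) := by
  classical
  have hcv : Primrec (cv : Fin n ⊕ Fin n → Fin n × Bool) := Primrec.dom_finite _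
  have hgw : Primrec (gw : (Fin n ⊕ Fin n) × List (Fin n ⊕ Fin n) → _) := by
    unfold gw
    exact pr_map (g := fun _ a => cv a) (by fun_prop) (hcv.comp Primrec.snd)
  have h1 : Primrec fun gens : List ((Fin n ⊕ Fin n) × List (Fin n ⊕ Fin n)) => gens.map gw :=
    pr_map (g := fun _ a => gw a) Primrec.id (hgw.comp Primrec.snd)
  refine ComputablePred.computable_iff.2
    ⟨fun gens => decB (Finset.univ : Finset (Fin n × Bool)).toList (gens.map gw),
      ((pr_decB _).comp h1).to_comp, ?_⟩
  funext gens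
  rw [decB_iff (fun a => Finset.mem_toList.2 (Finset.mem_univ a))
    (fun i : Fin gens.length => gw gens[i])]
  · intro u
    rw [List.mem_map]
    constructor
    · rintro ⟨g, hg, rfl⟩
      obtain ⟨i, rfl⟩ := List.mem_iff_get.1 hg
      exact ⟨i, rfl⟩
    · rintro ⟨i, rfl⟩
      exact ⟨_, List.getElem_mem _, rfl⟩
  · intro z
    simp [gw]

end Pool.Agent.H32Z.FIS
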