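import Pool.Agent.H32Z.FPSuff

set_option autoImplicit false
set_option linter.unusedSectionVars false

namespace Pool.Agent.H32Z.FIS

open FreeGroup
open scoped Pointwise

variable {α β : Type} [DecidableEq α] {γ : β → List (α × Bool)} {D : ℕ}

/-- sum of an edge weight along a path -/
def wsum (γ : β → List (α × Bool)) (φ : FreeGroup α → β × Bool → ℤ) :
    FreeGroup α → List (β × Bool) → ℤ
  | _, [] => 0
  | x, l :: v => φ x l + wsum γ φ (x * mk (lam γ l)) v

lemma wsum_append (φ : FreeGroup α → β × Bool → ℤ) (u v : List (β × Bool)) :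
    ∀ x, wsum γ φ x (u ++ v) = wsum γ φ x u + wsum γ φ (x * mk (ev γ u)) v := by
  induction u with
  | nil => intro x; simp [wsum, ev_nil, mk_nil]
  | cons l u ih =>
    intro x
    simp only [List.cons_append, wsum, ih, ev_cons, mk_app, mul_assoc, add_assoc]

lemma cons_sub {x : FreeGroup α} {l : β × Bool} {v : List (β × Bool)} {p : FreeGroup α → Prop}
    (h : ∀ t ∈ T (ev γ (l :: v)), p (x * t)) :
    (∀ t ∈ T (lam γ l), p (x * t)) ∧ ∀ t ∈ T (ev γ v), p (x * mk (lam γ l) * t) := by
  rw [ev_cons, T_append] at h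
  refine ⟨fun t ht => h t (Or.inl ht), fun t ht => ?_⟩
  rw [mul_assoc]
  exact h _ (Or.inr ⟨t, ht, rfl⟩)

/-- a weight which is a coboundary along a path -/
lemma wsum_cob (φ : FreeGroup α → β × Bool → ℤ) (ψ : FreeGroup α → ℤ) (p : FreeGroup α → Prop)
    (h : ∀ x l, (∀ t ∈ T (lam γ l), p (x * t)) → φ x l = ψ (x * mk (lam γ l)) - ψ x)
    (v : List (β × Bool)) : ∀ x, (∀ t ∈ T (ev γ v), p (x * t)) →
      wsum γ φ x v = ψ (x * mk (ev γ v)) - ψ x := by
  induction v with
  | nil => intro x _; simp [wsum, ev_nil, mk_nil]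
  | cons l v ih =>
    intro x hx
    obtain ⟨h1, h2⟩ := cons_sub hx
    rw [wsum, h x l h1, ih _ h2, ev_cons, mk_app, mul_assoc]
    ring

lemma wsum_inv (φ : FreeGroup α → β × Bool → ℤ) (p : FreeGroup α → Prop)
    (h : ∀ x l, (∀ t ∈ T (lam γ l), p (x * t)) → φ x l + φ (x * mk (lam γ l)) (fl l) = 0)
    (v : List (β × Bool)) : ∀ x, (∀ t ∈ T (ev γ v), p (x * t)) →
      wsum γ φ x (v ++ invRev v) = 0 := by
  induction v with
  | nil => intro x _; simp [wsum]
  | cons l v ih =>
    intro x hx
    obtain ⟨h1, h2⟩ := cons_sub hx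
    have e : l :: v ++ invRev (l :: v) = l :: ((v ++ invRev v) ++ [fl l]) := by
      rw [invRev_cons, invRev_single]; simp
    rw [e, wsum, wsum_append, ih _ h2, mk_ev_append, mk_ev_invRev, mul_inv_cancel, mul_one]
    simp only [wsum]
    have := h x l h1
    omega

theorem ql_of_fpl [Finite α] (hD : ∀ z, (γ z).length ≤ D) (h : FPL γ) : ∃ r, QL γ D r := by
  classical
  obtain ⟨R, hfin, hR, hgen⟩ := h
  -- bound on the relations
  obtain ⟨K, hKD, hK⟩ : ∃ K, D ≤ K ∧ ∀ p ∈ R, (ev γ p.1).length ≤ K := by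
    obtain ⟨K, hK⟩ := (hfin.image (fun p => (ev γ p.1).length)).bddAbove
    exact ⟨max K D, le_max_right _ _, fun p hp => (hK ⟨p, hp, rfl⟩).trans (le_max_left _ _)⟩
  -- short representatives
  obtain ⟨K', hK'⟩ : ∃ K', ∀ v, (mk (ev γ v)).norm ≤ 2 * D + 1 →
      ∃ P, mk (ev γ P) = mk (ev γ v) ∧ (ev γ P).length ≤ K' := by
    let rep : FreeGroup α → List (β × Bool) :=
      fun q => if h : ∃ v, mk (ev γ v) = q then h.choose else []
    obtain ⟨K', hK'⟩ := ((ball_finite (α := α) (2 * D + 2)).image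
      (fun q => (ev γ (rep q)).length)).bddAbove
    refine ⟨K', fun v hv => ⟨rep (mk (ev γ v)), ?_, hK' ⟨_, ?_, rfl⟩⟩⟩
    · have h : ∃ v', mk (ev γ v') = mk (ev γ v) := ⟨v, rfl⟩
      simp only [rep, dif_pos h]
      exact h.choose_spec
    · simp only [Set.mem_ofPred_eq]; omega
  refine ⟨K' + 2 * K + 1, ?_⟩
  by_contra hn
  unfold QL at hn
  push Not at hn
  obtain ⟨v, hv, hno⟩ := hn
  obtain ⟨P, hP1, hP2⟩ := hK' v hv
  set r := K' + 2 * K + 1 with hr
  set s := K' + K with hs
  set τ := T (ev γ v) with hτ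
  let Z : FreeGroup α → Prop := fun x => ∃ a, mk (ev γ a) = x ∧ T (ev γ a) ⊆ τ ∧
    ∀ t ∈ T (ev γ a), t.norm < r
  let a : FreeGroup α → ℤ := fun x => if Z x then 1 else 0
  let hh : FreeGroup α → ℤ := fun x => if s < x.norm then 1 else 0
  let φ : FreeGroup α → β × Bool → ℤ := fun x l => a x * (hh (x * mk (lam γ l)) - hh x)
  let τ0 : FreeGroup α → Prop := fun t => t ∈ τ ∨ t ∈ T (ev γ P)
  have hZ1 : ∀ x l, (∀ t ∈ T (lam γ l), x * t ∈ τ ∧ (x * t).norm < r) → Z x →
      Z (x * mk (lam γ l)) := by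
    rintro x l h ⟨c, rfl, c2, c3⟩
    refine ⟨c ++ [l], by rw [mk_ev_append, ev_single], T_ev_append_sub γ c2 ?_, ?_⟩
    · intro t ht; rw [ev_single] at ht; exact (h t ht).1
    · intro t ht
      rcases mem_T_ev_append γ ht with h1 | ⟨t', ht', rfl⟩
      · exact c3 t h1
      · rw [ev_single] at ht'; exact (h t' ht').2
  have hZ : ∀ x l, (∀ t ∈ T (lam γ l), x * t ∈ τ ∧ (x * t).norm < r) →
      a (x * mk (lam γ l)) = a x := by
    intro x l h
    have : Z (x * mk (lam γ l)) ↔ Z x := by
      refine ⟨fun hz => ?_, hZ1 x l h⟩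
      have := hZ1 (x * mk (lam γ l)) (fl l) (by
        intro t ht
        rw [lam_fl, T_invRev] at ht
        obtain ⟨t', ht', rfl⟩ := ht
        simp only [smul_eq_mul, mul_assoc, mul_inv_cancel_left]
        exact h t' ht') hz
      rwa [lam_fl, mk_invRev, mul_inv_cancel_right] at this
    simp only [a, this]
  -- local dichotomy
  have dich : ∀ (x : FreeGroup α) (w : List (α × Bool)), w.length ≤ K → (∀ t ∈ T w, τ0 (x * t)) →
      (∀ t ∈ T w, x * t ∈ τ ∧ (x * t).norm < r) ∨ (∀ t ∈ T w, hh (x * t) = hh x) := by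
    intro x w hw h0
    by_cases hc : ∀ t ∈ T w, K' < (x * t).norm ∧ (x * t).norm < r
    · left
      intro t ht
      refine ⟨?_, (hc t ht).2⟩
      rcases h0 t ht with h | h
      · exact h
      · have := (norm_mem_T h).trans hP2
        have := (hc t ht).1
        omega
    · right
      push Not at hc
      obtain ⟨t0, ht0, hc⟩ := hc
      have hd : ∀ t ∈ T w, (x * t).norm ≤ (x * t0).norm + K ∧ (x * t0).norm ≤ (x * t).norm + K := by
        intro t ht
        have t1 := norm_le_add (x * t0) (x * t)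
        have t2 := norm_le_add (x * t) (x * t0)
        have e1 : (x * t0)⁻¹ * (x * t) = t0⁻¹ * t := by group
        have e2 : (x * t)⁻¹ * (x * t0) = t⁻¹ * t0 := by group
        rw [e1] at t1
        rw [e2] at t2
        have t3 := norm_diam_T ht0 ht
        have t4 := norm_diam_T ht ht0
        omega
      intro t ht
      have h1 := hd t ht
      have h2 := hd 1 (one_mem_T _)
      rw [mul_one] at h2
      by_cases h3 : K' < (x * t0).norm
      · have h4 := hc h3
        simp only [hh]
        rw [if_pos (by omega), if_pos (by omega)]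
      · simp only [hh]
        rw [if_neg (by omega), if_neg (by omega)]
  have hanti : ∀ x l, (∀ t ∈ T (lam γ l), τ0 (x * t)) →
      φ x l + φ (x * mk (lam γ l)) (fl l) = 0 := by
    intro x l h
    simp only [φ]
    rw [lam_fl, mk_invRev, mul_inv_cancel_right]
    rcases dich x _ ((lam_len hD l).trans hKD) h with h1 | h1
    · rw [hZ x l h1]; ring
    · rw [h1 _ (mk_mem_T _)]; ring
  have hloc : ∀ (x : FreeGroup α) (u : List (β × Bool)),
      ((∀ t ∈ T (ev γ u), x * t ∈ τ ∧ (x * t).norm < r) ∨ (∀ t ∈ T (ev γ u), hh (x * t) = hh x)) →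
      wsum γ φ x u = a x * (hh (x * mk (ev γ u)) - hh x) := by
    intro x u
    induction u generalizing x with
    | nil => intro _; simp [wsum, ev_nil, mk_nil]
    | cons l u ih =>
      rintro (h | h)
      · obtain ⟨h1, h2⟩ := cons_sub (p := fun t => t ∈ τ ∧ t.norm < r) h
        rw [wsum, ih _ (Or.inl h2), hZ x l h1, ev_cons, mk_app, ← mul_assoc]
        simp only [φ]; ring
      · obtain ⟨h1, h2⟩ := cons_sub (p := fun t => hh t = hh x) h
        have h3 := h1 _ (mk_mem_T _)
        rw [wsum, ih _ (Or.inr fun t ht => (h2 t ht).trans h3.symm), h2 _ (mk_mem_T _),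
          h _ (mk_mem_T _)]
        simp only [φ]
        rw [h3]; ring
  -- the congruence
  let c : Con (FreeMonoid (β × Bool)) :=
    { r := fun u u' => M (ev γ u.toList) = M (ev γ u'.toList) ∧
        ∀ x, (∀ t ∈ T (ev γ u.toList), τ0 (x * t)) → wsum γ φ x u.toList = wsum γ φ x u'.toList
      iseqv := ⟨fun _ => ⟨rfl, fun _ _ => rfl⟩,
        fun {u u'} h => ⟨h.1.symm, fun x hx => (h.2 x (by
          have : T (ev γ u.toList) = T (ev γ u'.toList) := congrArg Prod.fst h.1
          rw [this]; exact hx)).symm⟩,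
        fun {u u' u''} h h' => ⟨h.1.trans h'.1, fun x hx => (h.2 x hx).trans (h'.2 x (by
          have : T (ev γ u.toList) = T (ev γ u'.toList) := congrArg Prod.fst h.1
          rw [← this]; exact hx))⟩⟩
      mul' := by
        rintro u u' w w' ⟨h1, h2⟩ ⟨h3, h4⟩
        simp only [FreeMonoid.toList_mul]
        refine ⟨by rw [ev_append, ev_append, M_append, M_append, h1, h3], fun x hx => ?_⟩
        have e : mk (ev γ u.toList) = mk (ev γ u'.toList) := congrArg Prod.snd h1
        rw [wsum_append, wsum_append, h2 x (fun t ht => hx t (T_ev_left γ _ _ ht)), ← e,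
          h4 _ (fun t ht => ?_)]
        rw [mul_assoc]
        apply hx
        rw [ev_append, T_append]
        exact Or.inr ⟨t, ht, rfl⟩ }
  let f : List (β × Bool) → c.Quotient := fun u => c.mk' (FreeMonoid.ofList u)
  have hfeq : ∀ u u', f u = f u' ↔ (M (ev γ u) = M (ev γ u') ∧
      ∀ x, (∀ t ∈ T (ev γ u), τ0 (x * t)) → wsum γ φ x u = wsum γ φ x u') :=
    fun u u' => c.eq
  have hW : Wag f := by
    refine ⟨rfl, fun u v => by simp only [f, FreeMonoid.ofList_append, _root_.map_mul], ?_, ?_⟩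
    · intro w
      refine (hfeq _ _).2 ⟨M_ev_congr γ (M_reg w), fun x hx => ?_⟩
      rw [wsum_append, wsum_inv φ τ0 hanti w x (fun t ht => hx t (by
        rw [List.append_assoc]; exact T_ev_left γ _ _ ht)), mk_ev_append, mk_ev_invRev,
        mul_inv_cancel, mul_one, zero_add]
    · intro w w'
      have hT : ∀ w w' : List (β × Bool), T (ev γ (w ++ invRev w ++ (w' ++ invRev w'))) =
          T (ev γ w) ∪ T (ev γ w') := by
        intro w w'
        simp only [ev_append, ev_invRev, T_append, T_invRev, mk_app, mk_invRev, smul_smul,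
          mul_inv_cancel, one_smul, Set.union_self]
      refine (hfeq _ _).2 ⟨?_, fun x hx => ?_⟩
      · simp only [M, hT, mk_ev_append, mk_ev_invRev, mul_inv_cancel, Set.union_comm]
      · rw [hT] at hx
        have h1 := wsum_inv φ τ0 hanti w x (fun t ht => hx t (Or.inl ht))
        have h2 := wsum_inv φ τ0 hanti w' x (fun t ht => hx t (Or.inr ht))
        rw [wsum_append, wsum_append φ (w' ++ invRev w'), mk_ev_append, mk_ev_append,
          mk_ev_invRev, mk_ev_invRev, mul_inv_cancel, mul_inv_cancel, mul_one, h1, h2]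
  have hvne : v ≠ [] := by
    rintro rfl
    obtain ⟨t, ht, h⟩ := hno [] rfl subset_rfl
    rw [ev_nil, T_nil] at ht
    rw [ht, FreeGroup.norm_one] at h
    omega
  have hu : mk (ev γ (v ++ invRev P)) = 1 := by
    rw [mk_ev_append, mk_ev_invRev, hP1, mul_inv_cancel]
  have hfin2 := hgen c.Quotient f hW (by
    intro p hp
    obtain ⟨-, -, h3⟩ := hR p hp
    refine (hfeq _ _).2 ⟨h3, fun x hx => ?_⟩
    have hd := dich x _ (hK p hp) hx
    have e1 : T (ev γ p.1) = T (ev γ p.2) := congrArg Prod.fst h3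
    have e2 : mk (ev γ p.1) = mk (ev γ p.2) := congrArg Prod.snd h3
    rw [hloc x p.1 hd, hloc x p.2 (by rw [← e1]; exact hd), e2])
    (v ++ invRev P) (v ++ invRev P ++ (v ++ invRev P)) (by simp [hvne]) (by simp [hvne]) (by
      rw [ev_append γ (v ++ invRev P), M_loop_absorb hu (by rw [hu, one_smul])])
  have h2 := ((hfeq _ _).1 hfin2).2 1 (by
    intro t ht
    rw [one_mul]
    rcases mem_T_ev_append γ ht with h | ⟨t', ht', rfl⟩
    · exact Or.inl h
    · right
      rw [ev_invRev, T_invRev] at ht'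
      obtain ⟨t'', ht'', rfl⟩ := ht'
      rw [← hP1]
      simp only [smul_eq_mul, mul_inv_cancel_left]
      exact ht'')
  rw [wsum_append φ (v ++ invRev P), hu, mul_one, wsum_append, one_mul] at h2
  have h3 : wsum γ φ (mk (ev γ v)) (invRev P) = 0 := by
    have hsm : ∀ t ∈ T (ev γ (invRev P)), hh (mk (ev γ v) * t) = 0 := by
      intro t ht
      rw [ev_invRev, T_invRev] at ht
      obtain ⟨t'', ht'', rfl⟩ := ht
      rw [← hP1]
      simp only [smul_eq_mul, mul_inv_cancel_left, hh]
      have := (norm_mem_T ht'').trans hP2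
      rw [if_neg (by omega)]
    have h0 := hsm 1 (one_mem_T _)
    rw [mul_one] at h0
    rw [hloc _ _ (Or.inr fun t ht => (hsm t ht).trans h0.symm), hsm _ (mk_mem_T _), h0]
    ring
  have h4 : wsum γ φ 1 v = 1 := by
    rw [wsum_cob φ (fun x => -(a x * (1 - hh x))) (fun t => t ∈ τ) ?_ v 1
      (fun t ht => by rw [one_mul]; exact ht)]
    · have e1 : a (1 * mk (ev γ v)) = 0 := by
        simp only [a]
        rw [if_neg]
        rintro ⟨c, c1, c2, c3⟩
        rw [one_mul] at c1
        obtain ⟨t, ht, h⟩ := hno c c1 c2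
        have := c3 t ht
        omega
      have e2 : a 1 = 1 := by
        simp only [a]
        rw [if_pos]
        refine ⟨[], mk_nil, ?_, ?_⟩
        · rw [ev_nil, T_nil]; rintro g rfl; exact one_mem_T _
        · rw [ev_nil, T_nil]; rintro g rfl; rw [FreeGroup.norm_one]; omega
      have e3 : hh 1 = 0 := by simp [hh]
      rw [e1, e2, e3]; ring
    · intro x l h
      by_cases hc : ∀ t ∈ T (lam γ l), (x * t).norm < r
      · simp only [φ]
        rw [hZ x l (fun t ht => ⟨h t ht, hc t ht⟩)]; ring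
      · push Not at hc
        obtain ⟨t0, ht0, hc⟩ := hc
        have hd : ∀ t ∈ T (lam γ l), hh (x * t) = 1 := by
          intro t ht
          have t2 := norm_le_add (x * t) (x * t0)
          have e2 : (x * t)⁻¹ * (x * t0) = t⁻¹ * t0 := by group
          rw [e2] at t2
          have t4 := (norm_diam_T ht ht0).trans (lam_len hD l)
          simp only [hh]
          rw [if_pos (by omega)]
        have h0 := hd 1 (one_mem_T _)
        rw [mul_one] at h0
        simp only [φ]
        rw [hd _ (mk_mem_T _), h0]; ring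
  rw [h3, h4] at h2
  omega

end Pool.Agent.H32Z.FIS
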