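import Pool.Agent.H32Z.MunnThm

set_option autoImplicit false
set_option linter.unusedSectionVars false

namespace Pool.Agent.H32Z.FIS

open FreeGroup
open scoped Pointwise

variable {α β : Type} [DecidableEq α]

lemma norm_mem_T {w : List (α × Bool)} {t : FreeGroup α} (h : t ∈ T w) : t.norm ≤ w.length := by
  obtain ⟨p, hp, rfl⟩ := mem_T.1 h
  exact norm_mk_le.trans hp.length_le

lemma norm_diam_T {w : List (α × Bool)} {s t : FreeGroup α} (hs : s ∈ T w) (ht : t ∈ T w) :
    (s⁻¹ * t).norm ≤ w.length := by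
  obtain ⟨p, hp, rfl⟩ := mem_T.1 hs
  obtain ⟨q, hq, rfl⟩ := mem_T.1 ht
  rcases List.prefix_or_prefix_of_prefix hp hq with ⟨r, rfl⟩ | ⟨r, rfl⟩
  · rw [mk_app, inv_mul_cancel_left]
    have := hq.length_le
    rw [List.length_append] at this
    exact norm_mk_le.trans (by omega)
  · rw [← norm_inv_eq, mul_inv_rev, inv_inv, mk_app, inv_mul_cancel_left]
    have := hp.length_le
    rw [List.length_append] at this
    exact norm_mk_le.trans (by omega)

lemma norm_le_add (s t : FreeGroup α) : t.norm ≤ s.norm + (s⁻¹ * t).norm := by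
  have := norm_mul_le s (s⁻¹ * t)
  rwa [mul_inv_cancel_left] at this

lemma norm_le_add' (s t : FreeGroup α) : s.norm ≤ (s * t).norm + t.norm := by
  have := norm_mul_le (s * t) t⁻¹
  rwa [mul_inv_cancel_right, norm_inv_eq] at this

lemma prefix_closed {u w : List (α × Bool)} (hw : IsReduced w) (h : mk w ∈ T u) :
    ∀ p, p <+: w → mk p ∈ T u := by
  intro p
  induction p using List.reverseRecOn with
  | nil => intro _; rw [mk_nil]; exact one_mem_T _
  | append_singleton p x ih =>
    intro hp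
    obtain ⟨r, hr⟩ := hp
    rw [mk_app]
    refine side_mem_T (ih ⟨x :: r, by rw [← hr]; simp⟩) h ?_
    have e : w = p ++ (x :: r) := by rw [← hr]; simp
    rw [e, mk_app, inv_mul_cancel_left]
    rw [e] at hw
    exact ⟨r, List.IsChain.right_of_append hw, rfl⟩

lemma ball_finite [Finite α] (k : ℕ) : {x : FreeGroup α | x.norm < k}.Finite := by
  refine ((List.finite_length_lt (α × Bool) k).image mk).subset ?_
  intro x hx
  exact ⟨x.toWord, hx, mk_toWord⟩

variable (γ : β → List (α × Bool))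

lemma T_ev_left (u v : List (β × Bool)) : T (ev γ u) ⊆ T (ev γ (u ++ v)) := by
  rw [ev_append, T_append]; exact Set.subset_union_left

lemma T_ev_append_sub {u v : List (β × Bool)} {τ : Set (FreeGroup α)} (h1 : T (ev γ u) ⊆ τ)
    (h2 : ∀ t ∈ T (ev γ v), mk (ev γ u) * t ∈ τ) : T (ev γ (u ++ v)) ⊆ τ := by
  rw [ev_append, T_append]
  refine Set.union_subset h1 ?_
  rintro _ ⟨t, ht, rfl⟩
  exact h2 t ht

lemma mem_T_ev_append {u v : List (β × Bool)} {g : FreeGroup α} (h : g ∈ T (ev γ (u ++ v))) :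
    g ∈ T (ev γ u) ∨ ∃ t ∈ T (ev γ v), g = mk (ev γ u) * t := by
  rw [ev_append, T_append] at h
  rcases h with h | ⟨t, ht, rfl⟩
  · exact Or.inl h
  · exact Or.inr ⟨t, ht, rfl⟩

lemma mk_ev_append (u v : List (β × Bool)) : mk (ev γ (u ++ v)) = mk (ev γ u) * mk (ev γ v) := by
  rw [ev_append, mk_app]

lemma mk_ev_invRev (u : List (β × Bool)) : mk (ev γ (invRev u)) = (mk (ev γ u))⁻¹ := by
  rw [ev_invRev, mk_invRev]

/-- a path between two points reached inside `τ` -/
lemma T_between {a b : List (β × Bool)} {τ : Set (FreeGroup α)} (ha : T (ev γ a) ⊆ τ)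
    (hb : T (ev γ b) ⊆ τ) : ∀ t ∈ T (ev γ (invRev a ++ b)), mk (ev γ a) * t ∈ τ := by
  intro t ht
  rcases mem_T_ev_append γ ht with h | ⟨s, hs, rfl⟩
  · rw [ev_invRev, T_invRev] at h
    obtain ⟨s, hs, rfl⟩ := h
    simp only [smul_eq_mul, mul_inv_cancel_left]
    exact ha hs
  · rw [mk_ev_invRev, mul_inv_cancel_left]; exact hb hs

/-- uniform locality of connections -/
def QL (D r : ℕ) : Prop := ∀ v, (mk (ev γ v)).norm ≤ 2 * D + 1 →
  ∃ v', mk (ev γ v') = mk (ev γ v) ∧ T (ev γ v') ⊆ T (ev γ v) ∧ ∀ t ∈ T (ev γ v'), t.norm < r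

/-- finite presentability, in terms of monoid valued functions on words -/
def FPL : Prop := ∃ R : Set (List (β × Bool) × List (β × Bool)), R.Finite ∧
  (∀ p ∈ R, p.1 ≠ [] ∧ p.2 ≠ [] ∧ M (ev γ p.1) = M (ev γ p.2)) ∧
  ∀ (Q : Type) [Monoid Q] (f : List (β × Bool) → Q), Wag f → (∀ p ∈ R, f p.1 = f p.2) →
    ∀ u v, u ≠ [] → v ≠ [] → M (ev γ u) = M (ev γ v) → f u = f v

variable {γ} {D r : ℕ}

lemma lam_len (hD : ∀ z, (γ z).length ≤ D) (x : β × Bool) : (lam γ x).length ≤ D := by
  obtain ⟨z, b⟩ := x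
  cases b <;> simp [lam, hD]

lemma near (hD : ∀ z, (γ z).length ≤ D) {v : List (β × Bool)} {t : FreeGroup α}
    (ht : t ∈ T (ev γ v)) : ∃ a, T (ev γ a) ⊆ T (ev γ v) ∧ ((mk (ev γ a))⁻¹ * t).norm ≤ D := by
  rcases (mem_T_ev γ).1 ht with rfl | ⟨v1, x, v2, rfl, s, hs, rfl⟩
  · exact ⟨[], by rw [ev_nil, T_nil]; rintro g rfl; exact one_mem_T _, by simp [ev_nil, mk_nil]⟩
  · refine ⟨v1, T_ev_left γ _ _, ?_⟩
    simp only [smul_eq_mul, inv_mul_cancel_left]
    exact (norm_mem_T hs).trans (lam_len hD x)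

lemma QL.all (hD : ∀ z, (γ z).length ≤ D) (hQ : QL γ D r) (v : List (β × Bool)) :
    ∃ v', mk (ev γ v') = mk (ev γ v) ∧ T (ev γ v') ⊆ T (ev γ v) ∧
      ∀ t ∈ T (ev γ v'), t.norm < (mk (ev γ v)).norm + D + r := by
  set w := (mk (ev γ v)).toWord with hw
  have hwm : mk w = mk (ev γ v) := mk_toWord
  have key : ∀ p, p <+: w → ∀ a, T (ev γ a) ⊆ T (ev γ v) → ((mk (ev γ a))⁻¹ * mk p).norm ≤ D →
      ∃ a', mk (ev γ a') = mk (ev γ a) ∧ T (ev γ a') ⊆ T (ev γ v) ∧
        ∀ t ∈ T (ev γ a'), t.norm < w.length + D + r := by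
    intro p
    induction p using List.reverseRecOn with
    | nil =>
      intro _ a ha hn
      rw [mk_nil, mul_one, norm_inv_eq] at hn
      obtain ⟨a', h1, h2, h3⟩ := hQ a (by omega)
      exact ⟨a', h1, h2.trans ha, fun t ht => by have := h3 t ht; omega⟩
    | append_singleton p x ih =>
      intro hp a ha hn
      have hp' : p <+: w := (List.prefix_append _ _).trans hp
      have hm : mk p ∈ T (ev γ v) :=
        prefix_closed isReduced_toWord (by rw [hwm]; exact mk_mem_T _) p hp'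
      obtain ⟨a0, h0, h0'⟩ := near hD hm
      obtain ⟨a1, h1, h2, h3⟩ := ih hp' a0 h0 h0'
      obtain ⟨b, b1, b2, b3⟩ := hQ (invRev a0 ++ a) (by
        rw [mk_ev_append, mk_ev_invRev]
        have e : (mk (ev γ a0))⁻¹ * mk (ev γ a) =
            ((mk (ev γ a0))⁻¹ * mk p) * mk [x] * ((mk (ev γ a))⁻¹ * mk (p ++ [x]))⁻¹ := by
          rw [mk_app]; group
        rw [e]
        have t1 := norm_mul_le (((mk (ev γ a0))⁻¹ * mk p) * mk [x])
          ((mk (ev γ a))⁻¹ * mk (p ++ [x]))⁻¹
        have t2 := norm_mul_le ((mk (ev γ a0))⁻¹ * mk p) (mk [x])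
        have t3 : (mk [x]).norm ≤ 1 := norm_mk_le
        rw [norm_inv_eq] at t1
        omega)
      refine ⟨a1 ++ b, ?_, T_ev_append_sub γ h2 ?_, ?_⟩
      · rw [mk_ev_append, h1, b1, mk_ev_append, mk_ev_invRev, mul_inv_cancel_left]
      · intro t ht
        rw [h1]
        exact T_between γ h0 ha t (b2 ht)
      · intro t ht
        rcases mem_T_ev_append γ ht with h | ⟨s, hs, rfl⟩
        · exact h3 t h
        · rw [h1]
          have t1 := norm_mul_le (mk (ev γ a0)) s
          have t2 := b3 s hs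
          have t3 := norm_le_add (mk p) (mk (ev γ a0))
          have t4 : ((mk p)⁻¹ * mk (ev γ a0)).norm ≤ D := by
            rw [← norm_inv_eq, mul_inv_rev, inv_inv]; exact h0'
          have t5 : (mk p).norm ≤ p.length := norm_mk_le
          have t6 := hp'.length_le
          omega
  exact key w List.prefix_rfl v subset_rfl (by rw [hwm, inv_mul_cancel, FreeGroup.norm_one]; omega)

lemma ev_eq_nil (hne : ∀ z, γ z ≠ []) {v : List (β × Bool)} (h : T (ev γ v) ⊆ {1}) : v = [] := by
  cases v with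
  | nil => rfl
  | cons x v =>
    exfalso
    have hx : lam γ x ≠ [] := by
      obtain ⟨z, b⟩ := x
      cases b
      · intro h2
        apply hne z
        have : invRev (γ z) = [] := h2
        rw [← invRev_invRev (L₁ := γ z), this, invRev_empty]
      · exact hne z
    obtain ⟨c, w, hc⟩ := List.exists_cons_of_ne_nil hx
    have : mk [c] ∈ T (ev γ (x :: v)) := by
      rw [ev_cons, hc]
      exact mem_T.2 ⟨[c], ⟨w ++ ev γ v, rfl⟩, rfl⟩
    exact mk_single_ne c (h this)

/-- finitely many relations give all relations inside a ball -/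
lemma local_rel [Finite α] [Finite β] (hne : ∀ z, γ z ≠ []) (ρ : ℕ) :
    ∃ R : Set (List (β × Bool) × List (β × Bool)), R.Finite ∧
      (∀ p ∈ R, p.1 ≠ [] ∧ p.2 ≠ [] ∧ M (ev γ p.1) = M (ev γ p.2)) ∧
      ∀ (Q : Type) [Monoid Q] (f : List (β × Bool) → Q), Wag f → (∀ p ∈ R, f p.1 = f p.2) →
        ∀ u v, (∀ t ∈ T (ev γ u), t.norm < ρ) → M (ev γ u) = M (ev γ v) → f u = f v := by
  classical
  let rep' : Set (FreeGroup α) × FreeGroup α → List (β × Bool) :=
    fun s => if h : ∃ v, M (ev γ v) = s then h.choose else []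
  have hrep : ∀ v, M (ev γ (rep' (M (ev γ v)))) = M (ev γ v) := by
    intro v
    have h : ∃ v', M (ev γ v') = M (ev γ v) := ⟨v, rfl⟩
    simp only [rep', dif_pos h]
    exact h.choose_spec
  let S : Set (Set (FreeGroup α) × FreeGroup α) :=
    {s | s.1 ⊆ {x | x.norm < ρ} ∧ s.2 ∈ {x : FreeGroup α | x.norm < ρ}}
  have hS : S.Finite := ((ball_finite ρ).finite_subsets.prod (ball_finite ρ)).subset
    (fun s hs => ⟨hs.1, hs.2⟩)
  refine ⟨(fun q : (Set (FreeGroup α) × FreeGroup α) × (β × Bool) =>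
    (rep' q.1 ++ [q.2], rep' (M (ev γ (rep' q.1 ++ [q.2]))))) '' (S ×ˢ Set.univ),
    (hS.prod Set.finite_univ).image _, ?_, ?_⟩
  · rintro _ ⟨⟨s, x⟩, -, rfl⟩
    refine ⟨by simp, ?_, (hrep _).symm⟩
    intro h
    simp only at h
    have h1 := hrep (rep' s ++ [x])
    rw [h] at h1
    have h2 : T (ev γ (rep' s ++ [x])) ⊆ {1} := by
      have := congrArg Prod.fst h1
      simp only [M, ev_nil, T_nil] at this
      exact this.symm.subset
    simpa using ev_eq_nil hne h2
  · intro Q _ f hf hR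
    have key : ∀ u, (∀ t ∈ T (ev γ u), t.norm < ρ) → f u = f (rep' (M (ev γ u))) := by
      intro u
      induction u using List.reverseRecOn with
      | nil =>
        intro _
        have h1 := hrep []
        have h2 : T (ev γ (rep' (M (ev γ [])))) ⊆ {1} := by
          have := congrArg Prod.fst h1
          simp only [M, ev_nil, T_nil] at this
          simp only [M, ev_nil, T_nil]
          exact this.subset
        rw [ev_eq_nil hne h2]
      | append_singleton u x ih =>
        intro h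
        have h' : ∀ t ∈ T (ev γ u), t.norm < ρ := fun t ht => h t (T_ev_left γ _ _ ht)
        have h1 := hR _ ⟨(M (ev γ u), x), ⟨⟨h', h' _ (mk_mem_T _)⟩, trivial⟩, rfl⟩
        simp only at h1
        rw [hf.app, ih h', ← hf.app, h1]
        congr 2
        rw [ev_append, ev_append, M_append, M_append, hrep]
    intro u v hu hM
    have hv : ∀ t ∈ T (ev γ v), t.norm < ρ := by
      have : T (ev γ u) = T (ev γ v) := congrArg Prod.fst hM
      rw [← this]; exact hu
    rw [key u hu, key v hv, hM]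

lemma M_loop_absorb {δ : Type} {P c : List (δ × Bool)} (h1 : mk c = 1)
    (h2 : mk P • T c ⊆ T P) : M (P ++ c) = M P := by
  simp only [M, T_append, mk_app, h1, mul_one, Set.union_eq_left.2 h2]

section step
variable (hD : ∀ z, (γ z).length ≤ D) (hQ : QL γ D r)
  {Q : Type} [Monoid Q] {f : List (β × Bool) → Q} (hf : Wag f)
  (hloc : ∀ u v, (∀ t ∈ T (ev γ u), t.norm < 3 * r + 7 * D + 1) → M (ev γ u) = M (ev γ v) →
    f u = f v)
include hD hQ hf hloc

lemma two_paths_step (u : List (β × Bool)) (y : β × Bool)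
    (ih : ∀ a a', T (ev γ a) ⊆ T (ev γ (invRev u)) → T (ev γ a') ⊆ T (ev γ (invRev u)) →
      mk (ev γ a) = mk (ev γ a') → f (u ++ a) = f (u ++ a')) :
    ∀ a a', T (ev γ a) ⊆ T (ev γ (invRev u)) ∪ T (lam γ y) →
      T (ev γ a') ⊆ T (ev γ (invRev u)) ∪ T (lam γ y) →
      mk (ev γ a) = mk (ev γ a') → f (u ++ [y, fl y] ++ a) = f (u ++ [y, fl y] ++ a') := by
  set τ1 := T (ev γ (invRev u)) with hτ1
  set τ2 := τ1 ∪ T (lam γ y) with hτ2
  set P := u ++ [y, fl y] with hP
  have hyy : mk [y, fl y] = 1 := by rw [mk_cons, mk_fl, mul_inv_cancel]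
  have hmkP : mk P = mk u := by rw [hP, mk_app, hyy, mul_one]
  have hr : 0 < r := by
    obtain ⟨v', -, -, h⟩ := hQ [] (by simp [ev_nil, mk_nil])
    have := h 1 (one_mem_T _)
    omega
  have G1 : ∀ b b', T (ev γ b) ⊆ τ1 → T (ev γ b') ⊆ τ1 → mk (ev γ b) = mk (ev γ b') →
      f (P ++ b) = f (P ++ b') := by
    intro b b' h1 h2 h3
    have e : f P = f (P ++ (invRev u ++ u)) := by
      refine (hf.munn (M_loop_absorb (by rw [mk_app, mk_invRev, inv_mul_cancel]) ?_)).symm
      rw [hmkP, T_append, T_invRev, mk_invRev, Set.union_self, smul_smul, mul_inv_cancel, one_smul,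
        hP, T_append]
      exact Set.subset_union_left
    have := ih b b' h1 h2 h3
    rw [hf.app, hf.app] at this
    rw [hf.app, hf.app P b', e, hf.app P, hf.app (invRev u)]
    simp only [mul_assoc]
    rw [this]
  -- a loop covering the part of the old tree near the base point
  obtain ⟨E, hE1, hE2, hE3, hE4⟩ : ∃ E, mk (ev γ E) = 1 ∧ T (ev γ E) ⊆ τ1 ∧
      (∀ t ∈ T (ev γ E), t.norm < 3 * r + 7 * D + 1) ∧
      ∀ t ∈ τ1, t.norm < 2 * r + 5 * D → t ∈ T (ev γ E) := by
    have h1 : ∀ p : List (α × Bool), ∃ c, T (ev γ c) ⊆ τ1 ∧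
        (∀ t ∈ T (ev γ c), t.norm < 3 * r + 7 * D + 1) ∧
        (mk p ∈ τ1 → (mk p).norm < 2 * r + 5 * D → mk p ∈ T (ev γ c)) := by
      intro p
      by_cases hp : mk p ∈ τ1 ∧ (mk p).norm < 2 * r + 5 * D ∧ mk p ≠ 1
      · obtain ⟨hp1, hp2, hp3⟩ := hp
        rcases (mem_T_ev γ).1 hp1 with h | ⟨v1, x, v2, hv, s, hs, hs2⟩
        · exact absurd h hp3
        obtain ⟨a, a1, a2, a3⟩ := hQ.all hD v1
        have hs3 := (norm_mem_T hs).trans (lam_len hD x)
        have hz : (mk (ev γ v1)).norm ≤ (mk p).norm + D := by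
          have := norm_le_add' (mk (ev γ v1)) s
          simp only [smul_eq_mul] at hs2
          rw [hs2] at this
          omega
        refine ⟨a ++ [x], T_ev_append_sub γ (a2.trans ?_) ?_, ?_, fun _ _ => ?_⟩
        · rw [hτ1, hv]; exact T_ev_left γ _ _
        · intro t ht
          rw [ev_single] at ht
          rw [a1]
          exact (mem_T_ev γ).2 (Or.inr ⟨v1, x, v2, hv, t, ht, rfl⟩)
        · intro t ht
          rcases mem_T_ev_append γ ht with h | ⟨t', ht', rfl⟩
          · have := a3 t h; omega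
          · rw [ev_single] at ht'
            have t1 := (norm_mem_T ht').trans (lam_len hD x)
            have t2 := norm_mul_le (mk (ev γ a)) t'
            rw [a1] at t2 ⊢
            omega
        · exact (mem_T_ev γ).2 (Or.inr ⟨a, x, [], rfl, s, hs, by rw [a1]; exact hs2⟩)
      · refine ⟨[], ?_, ?_, fun h1 h2 => ?_⟩
        · rw [ev_nil, T_nil]; rintro g rfl; exact one_mem_T _
        · rw [ev_nil, T_nil]; rintro g rfl; simp
        · have : mk p = 1 := by
            by_contra h3; exact hp ⟨h1, h2, h3⟩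
          rw [this]; exact one_mem_T _
    choose c hc1 hc2 hc3 using h1
    refine ⟨loop ((ev γ (invRev u)).inits.map c), by rw [ev_loop, mk_loop], ?_, ?_, ?_⟩
    · rw [ev_loop]
      intro t ht
      rcases mem_T_loop.1 ht with rfl | ⟨w, hw, ht⟩
      · exact one_mem_T _
      · obtain ⟨w', hw', rfl⟩ := List.mem_map.1 hw
        obtain ⟨q, -, rfl⟩ := List.mem_map.1 hw'
        exact hc1 q ht
    · rw [ev_loop]
      intro t ht
      rcases mem_T_loop.1 ht with rfl | ⟨w, hw, ht⟩
      · simp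
      · obtain ⟨w', hw', rfl⟩ := List.mem_map.1 hw
        obtain ⟨q, -, rfl⟩ := List.mem_map.1 hw'
        exact hc2 q t ht
    · intro t ht hn
      obtain ⟨q, hq, rfl⟩ := mem_T.1 ht
      rw [ev_loop]
      exact mem_T_loop.2 (Or.inr ⟨_, List.mem_map.2 ⟨c q, List.mem_map.2
        ⟨q, by simpa using hq, rfl⟩, rfl⟩, hc3 q ht hn⟩)
  have hone : T (ev γ []) ⊆ τ1 := by rw [ev_nil, T_nil]; rintro g rfl; exact one_mem_T _
  have hyn : ∀ t ∈ T (lam γ y), t.norm ≤ D := fun t ht => (norm_mem_T ht).trans (lam_len hD y)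
  have G2 : ∀ b b', T (ev γ b) ⊆ τ2 → (∀ t ∈ T (ev γ b), t.norm < 2 * r + 5 * D) →
      T (ev γ b') ⊆ τ2 → (∀ t ∈ T (ev γ b'), t.norm < 2 * r + 5 * D) →
      mk (ev γ b) = mk (ev γ b') → f (P ++ b) = f (P ++ b') := by
    intro b b' h1 h2 h3 h4 h5
    have e : f P = f (P ++ E) := by
      have := G1 [] E hone hE2 (by rw [hE1, ev_nil, mk_nil])
      rwa [List.append_nil] at this
    have hev : ev γ [y, fl y] = lam γ y ++ invRev (lam γ y) := by
      rw [ev_cons, ev_single, lam_fl]
    have hT : ∀ b, T (ev γ b) ⊆ τ2 → (∀ t ∈ T (ev γ b), t.norm < 2 * r + 5 * D) →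
        M (ev γ ([y, fl y] ++ E ++ b)) = (T (lam γ y) ∪ T (ev γ E), mk (ev γ b)) := by
      intro b h1 h2
      simp only [M, ev_append, hev, T_append, mk_app, mk_invRev, T_invRev, hE1, smul_smul,
        mul_inv_cancel, one_smul, Set.union_self, one_mul, Prod.mk.injEq, and_true,
        Set.union_eq_left]
      intro t ht
      rcases h1 ht with h | h
      · exact Or.inr (hE4 t h (h2 t ht))
      · exact Or.inl h
    have h6 := hloc ([y, fl y] ++ E ++ b) ([y, fl y] ++ E ++ b') (by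
      have := congrArg Prod.fst (hT b h1 h2)
      simp only [M] at this
      rw [this]
      rintro t (ht | ht)
      · have := hyn t ht; omega
      · exact hE3 t ht) (by rw [hT b h1 h2, hT b' h3 h4, h5])
    rw [hf.app, hf.app P b', e, ← hf.app, ← hf.app, hP]
    simp only [List.append_assoc] at h6 ⊢
    rw [hf.app u, hf.app u, h6]
  let good : List (β × Bool) → Prop := fun b => T (ev γ b) ⊆ τ1 ∨
    (T (ev γ b) ⊆ τ2 ∧ (mk (ev γ b)).norm ≤ r + 3 * D ∧ ∀ t ∈ T (ev γ b), t.norm < 2 * r + 5 * D)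
  have Gmix : ∀ b b', T (ev γ b) ⊆ τ1 → (T (ev γ b') ⊆ τ2 ∧ (mk (ev γ b')).norm ≤ r + 3 * D ∧
      ∀ t ∈ T (ev γ b'), t.norm < 2 * r + 5 * D) → mk (ev γ b) = mk (ev γ b') →
      f (P ++ b) = f (P ++ b') := by
    rintro b b' h1 ⟨h2, h3, h4⟩ h5
    obtain ⟨c, c1, c2, c3⟩ := hQ.all hD b
    rw [G1 b c h1 (c2.trans h1) c1.symm]
    refine G2 c b' ((c2.trans h1).trans Set.subset_union_left) (fun t ht => ?_) h2 h4 (c1.trans h5)
    have := c3 t ht
    rw [h5] at this
    omega
  have G : ∀ b b', good b → good b' → mk (ev γ b) = mk (ev γ b') → f (P ++ b) = f (P ++ b') := by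
    rintro b b' (h1 | h1) (h2 | h2) h3
    · exact G1 b b' h1 h2 h3
    · exact Gmix b b' h1 h2 h3
    · exact (Gmix b' b h2 h1 h3.symm).symm
    · exact G2 b b' h1.1 h1.2.2 h2.1 h2.2.2 h3
  have far : ∀ w, T (ev γ w) ⊆ τ2 → r + 2 * D < (mk (ev γ w)).norm →
      ∃ a, T (ev γ a) ⊆ τ1 ∧ mk (ev γ a) = mk (ev γ w) := by
    intro w hw hn
    have hx : mk (ev γ w) ∈ τ1 := by
      rcases hw (mk_mem_T _) with h | h
      · exact h
      · have := hyn _ h; omega
    obtain ⟨a0, h0, h0'⟩ := near hD hx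
    obtain ⟨c, c1, c2, c3⟩ := hQ (invRev a0 ++ w) (by
      rw [mk_ev_append, mk_ev_invRev]; omega)
    refine ⟨a0 ++ c, T_ev_append_sub γ h0 ?_, ?_⟩
    · intro t ht
      rcases T_between γ (h0.trans Set.subset_union_left) hw t (c2 ht) with h | h
      · exact h
      · have t1 := hyn _ h
        have t2 := norm_le_add' (mk (ev γ a0)) t
        have t3 := c3 t ht
        have t4 := norm_le_add (mk (ev γ a0)) (mk (ev γ w))
        omega
    · rw [mk_ev_append, c1, mk_ev_append, mk_ev_invRev, mul_inv_cancel_left]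
  have main : ∀ w, T (ev γ w) ⊆ τ2 →
      ∃ b, good b ∧ mk (ev γ b) = mk (ev γ w) ∧ f (P ++ w) = f (P ++ b) := by
    intro w
    induction w using List.reverseRecOn with
    | nil => intro _; exact ⟨[], Or.inl hone, rfl, rfl⟩
    | append_singleton w x ihw =>
      intro hw
      have hw' : T (ev γ w) ⊆ τ2 := (T_ev_left γ _ _).trans hw
      have htile : ∀ t ∈ T (lam γ x), mk (ev γ w) * t ∈ τ2 := fun t ht =>
        hw ((mem_T_ev γ).2 (Or.inr ⟨w, x, [], rfl, t, ht, rfl⟩))
      obtain ⟨b, hb, hb1, hb2⟩ := ihw hw'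
      have fin : ∀ c, good c → mk (ev γ c) = mk (ev γ w) → good (c ++ [x]) →
          ∃ b, good b ∧ mk (ev γ b) = mk (ev γ (w ++ [x])) ∧ f (P ++ (w ++ [x])) = f (P ++ b) := by
        intro c hc hc1 hc2
        refine ⟨c ++ [x], hc2, by rw [mk_ev_append, mk_ev_append, hc1], ?_⟩
        rw [← List.append_assoc, ← List.append_assoc, hf.app, hf.app (P ++ c), hb2,
          G b c hb hc (hb1.trans hc1.symm)]
      by_cases hn : r + 2 * D < (mk (ev γ w)).norm
      · obtain ⟨a, a1, a2⟩ := far w hw' hn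
        refine fin a (Or.inl a1) a2 (Or.inl (T_ev_append_sub γ a1 ?_))
        intro t ht
        rw [ev_single] at ht
        rw [a2]
        rcases htile t ht with h | h
        · exact h
        · have t1 := hyn _ h
          have t2 := norm_le_add' (mk (ev γ w)) t
          have t3 := (norm_mem_T ht).trans (lam_len hD x)
          omega
      · obtain ⟨c, c1, c2, c3⟩ := hQ.all hD w
        refine fin c (Or.inr ⟨c2.trans hw', by rw [c1]; omega, fun t ht => ?_⟩) c1
          (Or.inr ⟨T_ev_append_sub γ (c2.trans hw') ?_, ?_, ?_⟩)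
        · have := c3 t ht; omega
        · intro t ht
          rw [ev_single] at ht
          rw [c1]; exact htile t ht
        · rw [mk_ev_append, c1, ev_single]
          have t1 := norm_mul_le (mk (ev γ w)) (mk (lam γ x))
          have t3 := (norm_mem_T (mk_mem_T (lam γ x))).trans (lam_len hD x)
          omega
        · intro t ht
          rcases mem_T_ev_append γ ht with h | ⟨s, hs, rfl⟩
          · have := c3 t h; omega
          · rw [ev_single] at hs
            have t1 := norm_mul_le (mk (ev γ c)) s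
            have t3 := (norm_mem_T hs).trans (lam_len hD x)
            rw [c1] at t1 ⊢
            omega
  intro a a' ha ha' hm
  obtain ⟨b, hb, hb1, hb2⟩ := main a ha
  obtain ⟨b', hb', hb1', hb2'⟩ := main a' ha'
  rw [hb2, hb2', G b b' hb hb' (by rw [hb1, hb1', hm])]

lemma two_paths (hne : ∀ z, γ z ≠ []) (u : List (β × Bool)) :
    ∀ a a', T (ev γ a) ⊆ T (ev γ (invRev u)) → T (ev γ a') ⊆ T (ev γ (invRev u)) →
      mk (ev γ a) = mk (ev γ a') → f (u ++ a) = f (u ++ a') := by
  induction u using List.reverseRecOn with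
  | nil =>
    intro a a' h1 h2 _
    rw [invRev_empty, ev_nil, T_nil] at h1 h2
    rw [ev_eq_nil hne h1, ev_eq_nil hne h2]
  | append_singleton u y ih =>
    have hT : ∀ a, T (ev γ a) ⊆ T (ev γ (invRev (u ++ [y]))) →
        T (ev γ ([y] ++ a)) ⊆ T (ev γ (invRev u)) ∪ T (lam γ y) := by
      intro a ha
      refine T_ev_append_sub γ (by rw [ev_single]; exact Set.subset_union_right) ?_
      intro t ht
      have h := ha ht
      rw [invRev_append] at h
      rcases mem_T_ev_append γ h with h | ⟨s, hs, rfl⟩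
      · rw [ev_invRev, T_invRev] at h
        obtain ⟨s, hs, rfl⟩ := h
        simp only [smul_eq_mul, mul_inv_cancel_left]
        rw [ev_single] at hs
        exact Or.inr hs
      · rw [mk_ev_invRev, mul_inv_cancel_left]; exact Or.inl hs
    intro a a' h1 h2 h3
    have h := two_paths_step hD hQ hf hloc u y ih ([y] ++ a) ([y] ++ a') (hT a h1) (hT a' h2)
      (by rw [mk_ev_append, mk_ev_append, h3])
    have e : ∀ a, f (u ++ [y, fl y] ++ ([y] ++ a)) = f (u ++ [y] ++ a) := by
      intro a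
      have h1 := hf.reg [y]
      rw [invRev_single] at h1
      have e1 : u ++ [y, fl y] ++ ([y] ++ a) = u ++ (([y] ++ [fl y] ++ [y]) ++ a) := by simp
      rw [e1, hf.app, hf.app, h1, ← hf.app, ← hf.app, List.append_assoc]
    rwa [e, e] at h

end step

theorem fpl_of_ql [Finite α] [Finite β] (hD : ∀ z, (γ z).length ≤ D) (hne : ∀ z, γ z ≠ [])
    (hQ : QL γ D r) : FPL γ := by
  obtain ⟨R, h1, h2, h3⟩ := local_rel hne (3 * r + 7 * D + 1)
  refine ⟨R, h1, h2, fun Q _ f hf hR u v _ _ hM => ?_⟩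
  have hloc := h3 Q f hf hR
  simp only [M, Prod.mk.injEq] at hM
  have hone : ∀ w : List (β × Bool), T (ev γ []) ⊆ T (ev γ w) := by
    intro w; rw [ev_nil, T_nil]; rintro g rfl; exact one_mem_T _
  have hsub : ∀ u v c : List (β × Bool), T (ev γ c) ⊆ T (ev γ u) →
      T (ev γ (invRev u ++ c)) ⊆ T (ev γ (invRev u)) := by
    intro u v c hc
    refine T_ev_append_sub γ subset_rfl ?_
    intro t ht
    rw [mk_ev_invRev, ev_invRev, T_invRev]
    exact ⟨t, hc ht, rfl⟩
  have e1 := two_paths hD hQ hf hloc hne u (invRev u ++ v) [] (hsub u v v hM.1.symm.subset)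
    (hone _) (by rw [mk_ev_append, mk_ev_invRev, hM.2, inv_mul_cancel, ev_nil, mk_nil])
  have e2 := two_paths hD hQ hf hloc hne v (invRev v ++ (u ++ invRev u ++ v)) []
    (hsub v v _ (by
      rw [ev_append, ev_append, ev_invRev, T_append, T_append, T_invRev, mk_app, mk_invRev,
        smul_smul, mul_inv_cancel, one_smul, one_smul, hM.1, Set.union_self, Set.union_self]))
    (hone _) (by
      rw [mk_ev_append, mk_ev_append, mk_ev_append, mk_ev_invRev, mk_ev_invRev, ev_nil, mk_nil]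
      group)
  rw [List.append_nil] at e1 e2
  rw [← e1, ← e2]
  have c := hf.comm' u v
  simp only [hf.app]
  calc f u * (f (invRev u) * f v) = f u * f (invRev u) * (f v * f (invRev v) * f v) := by
        rw [hf.reg', mul_assoc]
    _ = f u * f (invRev u) * (f v * f (invRev v)) * f v := by simp only [mul_assoc]
    _ = _ := by rw [c]; simp only [mul_assoc]

end Pool.Agent.H32Z.FIS
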