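import Pool.Agent.H954Z.FT.St

/-!
# A complete local ring with coefficient field is finite over the power series ring in parameters
-/

set_option autoImplicit false

namespace Pool.Agent.H32Z.FT

open IsLocalRing Pool.Agent.H954Z.FT

theorem mem_smul_top_pi {A ι : Type} [CommRing A] [Fintype ι] (I : Ideal A) (v : ι → A) :
    v ∈ (I • ⊤ : Submodule A (ι → A)) ↔ ∀ i, v i ∈ I := by
  classical
  constructor
  · intro h i
    refine Submodule.smul_induction_on h (fun a ha w _ => ?_) (fun x y hx hy => ?_)
    · exact I.mul_mem_right _ ha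
    · exact I.add_mem hx hy
  · intro h
    have e : v = ∑ i, v i • (Pi.single i 1 : ι → A) := by
      ext j
      simp [Finset.sum_apply, Pi.single_apply]
    rw [e]
    exact Submodule.sum_mem _ fun i _ => Submodule.smul_mem_smul (h i) Submodule.mem_top

theorem precomplete_pi {A ι : Type} [CommRing A] [Fintype ι] (I : Ideal A)
    [h : IsPrecomplete I A] : IsPrecomplete I (ι → A) := by
  refine ⟨fun f hf => ?_⟩
  have h1 : ∀ i, ∃ L : A, ∀ n, f n i ≡ L [SMOD (I ^ n • ⊤ : Submodule A A)] := by
    intro i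
    apply h.prec
    intro m n hmn
    have := hf hmn
    rw [SModEq.sub_mem, mem_smul_top_pi] at this
    rw [SModEq.sub_mem, smul_eq_mul, Ideal.mul_top]
    exact this i
  choose L hL using h1
  refine ⟨L, fun n => ?_⟩
  rw [SModEq.sub_mem, mem_smul_top_pi]
  intro i
  have := hL i n
  rwa [SModEq.sub_mem, smul_eq_mul, Ideal.mul_top] at this

theorem exists_eval (T : Type) [CommRing T] (m : Ideal T) [hT : IsAdicComplete m T]
    (k : Type) [Field k] (φ : k →+* T) (d : ℕ) (x : Fin d → T) (hx : ∀ i, x i ∈ m) :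
    ∃ ψ : PS d k →+* T, (∀ i, ψ (MvPowerSeries.X i) = x i) ∧
      ∀ a, ψ (MvPowerSeries.C a) = φ a := by
  letI : WithIdeal T := ⟨m⟩
  have hc : CompleteSpace T ∧ T2Space T :=
    (IsAdic.isAdicComplete_iff (I := m) (by rfl)).1 hT
  have := hc.1
  have := hc.2
  letI : UniformSpace k := ⊥
  have : DiscreteUniformity k := ⟨rfl⟩
  have hφ : Continuous φ := continuous_of_discreteTopology
  have ha : MvPowerSeries.HasEval x :=
    ⟨fun i => WithIdeal.isTopologicallyNilpotent_of_mem (hx i), by simp⟩
  refine ⟨MvPowerSeries.eval₂Hom hφ ha, fun i => ?_, fun a => ?_⟩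
  · rw [MvPowerSeries.coe_eval₂Hom, MvPowerSeries.eval₂_X]
  · rw [MvPowerSeries.coe_eval₂Hom, MvPowerSeries.eval₂_C]

theorem exists_gen {A T : Type} [CommRing A] [CommRing T] [Algebra A T] (m : Ideal T)
    (hm : m.FG) (hs : ∀ c : T, ∃ a : A, c - algebraMap A T a ∈ m) (s : ℕ) :
    ∃ N : Submodule A T, N.FG ∧ N ⊔ (m ^ s).restrictScalars A = ⊤ := by
  induction s with
  | zero => exact ⟨⊥, Submodule.fg_bot, by simp⟩
  | succ s ih =>
    obtain ⟨N, hN, hN'⟩ := ih
    obtain ⟨G, hG⟩ : (m ^ s).FG := hm.pow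
    refine ⟨N ⊔ Submodule.span A (G : Set T), hN.sup ⟨G, rfl⟩, ?_⟩
    have key : ∀ y ∈ Ideal.span (G : Set T), ∀ c : T,
        c * y ∈ Submodule.span A (G : Set T) ⊔ (m ^ (s + 1)).restrictScalars A := by
      intro y hy
      induction hy using Submodule.span_induction with
      | mem g hg =>
        intro c
        obtain ⟨a, ha⟩ := hs c
        have e : c * g = a • g + (c - algebraMap A T a) * g := by
          rw [Algebra.smul_def]
          ring
        rw [e]
        refine Submodule.add_mem_sup (Submodule.smul_mem _ _ (Submodule.subset_span hg)) ?_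
        rw [Submodule.restrictScalars_mem, pow_succ']
        exact Ideal.mul_mem_mul ha (hG ▸ Ideal.subset_span hg)
      | zero => intro c; simp
      | add y z _ _ hy hz =>
        intro c
        rw [mul_add]
        exact Submodule.add_mem _ (hy c) (hz c)
      | smul r y _ hy =>
        intro c
        rw [smul_eq_mul, ← mul_assoc]
        exact hy _
    rw [eq_top_iff, ← hN', sup_assoc]
    refine sup_le_sup_left (fun y hy => ?_) _
    have := key y (by rw [hG]; exact hy) 1
    rwa [one_mul] at this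

theorem thm_fin : S_fin := by
  intro T _ _ _ k _ φ d x hm hres hx ⟨s, hs⟩
  obtain ⟨ψ, hX, hC⟩ := exists_eval T (maximalIdeal T) k φ d x hx
  refine ⟨ψ, hX, hC, ?_⟩
  letI : Algebra (PS d k) T := ψ.toAlgebra
  change Module.Finite (PS d k) T
  set I : Ideal (PS d k) := Ideal.span (Set.range MvPowerSeries.X) with hI
  have hmap : I.map (algebraMap (PS d k) T) = Ideal.span (Set.range x) := by
    rw [hI, Ideal.map_span, ← Set.range_comp]
    congr 2
    funext i
    exact hX i
  have hle : I.map (algebraMap (PS d k) T) ≤ maximalIdeal T := by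
    rw [hmap, Ideal.span_le]
    rintro _ ⟨i, rfl⟩
    exact hx i
  have hH : IsHausdorff I T := IsHausdorff.of_map hle
  obtain ⟨N, hN, hN'⟩ := exists_gen (A := PS d k) (maximalIdeal T) hm (fun c => by
    obtain ⟨a, ha⟩ := hres (residue T c)
    refine ⟨MvPowerSeries.C a, ?_⟩
    have : algebraMap (PS d k) T (MvPowerSeries.C a) = φ a := hC a
    rw [this, ← residue_eq_zero_iff, map_sub, sub_eq_zero]
    exact ha.symm) s
  obtain ⟨n, t, ht⟩ := Submodule.fg_iff_exists_fin_generating_family.1 hN
  have hP : IsPrecomplete I (Fin n → PS d k) := precomplete_pi I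
  let f : (Fin n → PS d k) →ₗ[PS d k] T := Fintype.linearCombination (PS d k) t
  have hf : LinearMap.range f = N := by
    rw [← ht]
    exact Fintype.range_linearCombination _ _
  refine Module.Finite.of_surjective f (surjective_of_mkQ_comp_surjective (I := I) ?_)
  intro y
  obtain ⟨y, rfl⟩ := Submodule.mkQ_surjective _ y
  have hy : y ∈ N ⊔ (maximalIdeal T ^ s).restrictScalars (PS d k) := hN' ▸ Submodule.mem_top
  obtain ⟨u, hu, v, hv, rfl⟩ := Submodule.mem_sup.1 hy
  rw [← hf] at hu
  obtain ⟨w, rfl⟩ := hu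
  refine ⟨w, ?_⟩
  have hv' : v ∈ (I • ⊤ : Submodule (PS d k) T) := by
    rw [Ideal.smul_top_eq_map, hmap]
    exact hs hv
  rw [LinearMap.comp_apply, map_add, Submodule.mkQ_apply _ v,
    (Submodule.Quotient.mk_eq_zero _).2 hv', add_zero]

end Pool.Agent.H32Z.FT
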