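import Mathlib

set_option autoImplicit false
set_option linter.unusedSectionVars false

namespace Pool.Agent.H32Z.FIS

open FreeGroup
open scoped Pointwise

variable {α β : Type}

/-- inverse letter -/
def fl (x : α × Bool) : α × Bool := (x.1, !x.2)

@[simp] lemma fl_fl (x : α × Bool) : fl (fl x) = x := by simp [fl]
lemma fl_ne (x : α × Bool) : fl x ≠ x := by
  intro h
  have := congrArg Prod.snd h
  simp [fl] at this

lemma invRev_single (x : α × Bool) : invRev [x] = [fl x] := by simp [invRev, fl]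

lemma mk_fl (x : α × Bool) : mk [fl x] = (mk [x])⁻¹ := by rw [inv_mk, invRev_single]

lemma mk_app (u v : List (α × Bool)) : mk (u ++ v) = mk u * mk v := mul_mk.symm

lemma mk_nil : mk ([] : List (α × Bool)) = 1 := one_eq_mk.symm

lemma mk_cons (x : α × Bool) (v : List (α × Bool)) : mk (x :: v) = mk [x] * mk v := by
  rw [mul_mk]; rfl

lemma mk_invRev (u : List (α × Bool)) : mk (invRev u) = (mk u)⁻¹ := inv_mk.symm

lemma red_cons_cons {a b : α × Bool} {L : List (α × Bool)} :
    IsReduced (a :: b :: L) ↔ b ≠ fl a ∧ IsReduced (b :: L) := by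
  rw [isReduced_cons_cons]
  refine and_congr_left fun _ => ?_
  obtain ⟨a1, a2⟩ := a
  obtain ⟨b1, b2⟩ := b
  simp only [fl, ne_eq, Prod.mk.injEq, not_and]
  constructor
  · intro h h1 h2
    have := h h1.symm
    subst this
    simp at h2
  · intro h h1
    have := h h1.symm
    cases a2 <;> cases b2 <;> simp_all

lemma red_pre {u v : List (α × Bool)} (hv : IsReduced v) (h : u <+: v) : IsReduced u := by
  obtain ⟨t, rfl⟩ := h
  exact List.IsChain.left_of_append hv

lemma red_tail {a : α × Bool} {v : List (α × Bool)} (hv : IsReduced (a :: v)) : IsReduced v :=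
  List.IsChain.right_of_append (l₁ := [a]) hv

lemma red_inj {u v : List (α × Bool)} (hu : IsReduced u) (hv : IsReduced v) (h : mk u = mk v) :
    u = v := by
  classical
  rw [← hu.reduce_eq, ← hv.reduce_eq]
  exact reduce.sound h

lemma mk_single_inj {x y : α × Bool} (h : mk [x] = mk [y]) : x = y := by
  have := red_inj IsReduced.singleton IsReduced.singleton h
  simpa using this

lemma mk_single_ne (x : α × Bool) : mk [x] ≠ 1 := by
  intro h
  have := red_inj IsReduced.singleton IsReduced.nil (h.trans mk_nil.symm)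
  simp at this

/-- vertex set of the Munn tree of a word -/
def T (w : List (α × Bool)) : Set (FreeGroup α) := Set.range (fun i : ℕ => mk (w.take i))

lemma mem_T {w : List (α × Bool)} {g : FreeGroup α} : g ∈ T w ↔ ∃ p, p <+: w ∧ mk p = g := by
  constructor
  · rintro ⟨i, rfl⟩
    exact ⟨_, List.take_prefix i w, rfl⟩
  · rintro ⟨p, hp, rfl⟩
    exact ⟨p.length, by simp only [← List.prefix_iff_eq_take.1 hp]⟩

lemma one_mem_T (w : List (α × Bool)) : 1 ∈ T w := mem_T.2 ⟨[], List.nil_prefix, mk_nil⟩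
lemma mk_mem_T (w : List (α × Bool)) : mk w ∈ T w := mem_T.2 ⟨w, List.prefix_rfl, rfl⟩

lemma T_nil : T ([] : List (α × Bool)) = {1} := by
  ext g
  simp only [mem_T, List.prefix_nil, Set.mem_singleton_iff]
  constructor
  · rintro ⟨p, rfl, rfl⟩; exact mk_nil
  · rintro rfl; exact ⟨[], rfl, mk_nil⟩

lemma T_finite (w : List (α × Bool)) : (T w).Finite := by
  refine ((List.finite_toSet w.inits).image mk).subset ?_
  intro g hg
  obtain ⟨p, hp, rfl⟩ := mem_T.1 hg
  exact ⟨p, by simpa using hp, rfl⟩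

lemma T_append (u v : List (α × Bool)) : T (u ++ v) = T u ∪ mk u • T v := by
  ext g
  simp only [Set.mem_union, Set.mem_smul_set, mem_T, smul_eq_mul]
  constructor
  · rintro ⟨p, hp, rfl⟩
    rcases List.prefix_or_prefix_of_prefix hp (List.prefix_append u v) with h | h
    · exact Or.inl ⟨p, h, rfl⟩
    · obtain ⟨q, rfl⟩ := h
      right
      exact ⟨mk q, ⟨q, (List.prefix_append_right_inj u).1 hp, rfl⟩, mul_mk⟩
  · rintro (⟨p, hp, rfl⟩ | ⟨_, ⟨q, hq, rfl⟩, rfl⟩)
    · exact ⟨p, hp.trans (List.prefix_append u v), rfl⟩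
    · exact ⟨u ++ q, (List.prefix_append_right_inj u).2 hq, mul_mk.symm⟩

lemma T_invRev_sub (u : List (α × Bool)) : (mk u)⁻¹ • T u ⊆ T (invRev u) := by
  rintro _ ⟨_, hg, rfl⟩
  obtain ⟨p, ⟨q, rfl⟩, rfl⟩ := mem_T.1 hg
  refine mem_T.2 ⟨invRev q, ?_, ?_⟩
  · rw [invRev_append]; exact List.prefix_append _ _
  · simp only [mk_invRev, mk_app, smul_eq_mul]; group

lemma T_invRev (u : List (α × Bool)) : T (invRev u) = (mk u)⁻¹ • T u := by
  refine Set.Subset.antisymm ?_ (T_invRev_sub u)
  have h := T_invRev_sub (invRev u)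
  rw [invRev_invRev, mk_invRev, inv_inv] at h
  intro g hg
  exact ⟨mk u * g, h ⟨g, hg, rfl⟩, inv_mul_cancel_left _ _⟩

lemma T_single (x : α × Bool) : T [x] = {1, mk [x]} := by
  ext g
  simp only [mem_T, Set.mem_insert_iff, Set.mem_singleton_iff]
  constructor
  · rintro ⟨p, hp, rfl⟩
    rcases List.prefix_cons_iff.1 hp with rfl | ⟨t, rfl, ht⟩
    · exact Or.inl mk_nil
    · rw [List.prefix_nil] at ht
      subst ht
      exact Or.inr rfl
  · rintro (rfl | rfl)
    · exact ⟨[], List.nil_prefix, mk_nil⟩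
    · exact ⟨[x], List.prefix_rfl, rfl⟩

/-- Munn pair of a word -/
def M (w : List (α × Bool)) : Set (FreeGroup α) × FreeGroup α := (T w, mk w)

/-- product of Munn pairs -/
def mul (x y : Set (FreeGroup α) × FreeGroup α) : Set (FreeGroup α) × FreeGroup α :=
  (x.1 ∪ x.2 • y.1, x.2 * y.2)

/-- inverse of a Munn pair -/
def inv (x : Set (FreeGroup α) × FreeGroup α) : Set (FreeGroup α) × FreeGroup α :=
  (x.2⁻¹ • x.1, x.2⁻¹)

lemma M_append (u v : List (α × Bool)) : M (u ++ v) = mul (M u) (M v) := by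
  simp only [M, mul, T_append, mk_app]

lemma M_invRev (u : List (α × Bool)) : M (invRev u) = inv (M u) := by
  simp only [M, inv, T_invRev, mk_invRev]

lemma inv_unique {x y : Set (FreeGroup α) × FreeGroup α} (h1 : mul (mul x y) x = x)
    (h2 : mul (mul y x) y = y) : y = inv x := by
  obtain ⟨A, g⟩ := x
  obtain ⟨B, h⟩ := y
  simp only [mul, inv, Prod.mk.injEq] at h1 h2 ⊢
  have hg : h = g⁻¹ := by
    have := h1.2
    rw [mul_eq_right] at this
    exact eq_inv_of_mul_eq_one_right this
  subst hg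
  refine ⟨Set.Subset.antisymm ?_ ?_, rfl⟩
  · intro b hb
    have : g • b ∈ A := by
      rw [← h1.1]
      exact Or.inl (Or.inr ⟨b, hb, rfl⟩)
    exact ⟨g • b, this, by simp⟩
  · rw [← h2.1]
    exact fun a ha => Or.inl (Or.inr ha)

lemma M_reg (u : List (α × Bool)) : M (u ++ invRev u ++ u) = M u := by
  simp only [M, T_append, mk_app, T_invRev, mk_invRev, smul_smul, mul_inv_cancel, one_smul,
    Set.union_self, one_mul]

/-! ### The tree structure of the Cayley graph -/

lemma red_step (w : List (α × Bool)) (hw : IsReduced w) (x : α × Bool) :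
    IsReduced (w ++ [x]) ∨ ∃ w', w = w' ++ [fl x] := by
  rcases List.eq_nil_or_concat w with rfl | ⟨w', y, rfl⟩
  · exact Or.inl IsReduced.singleton
  · by_cases h : y = fl x
    · exact Or.inr ⟨w', by simp [h]⟩
    · left
      have h2 : IsReduced ([y] ++ [x]) := by
        refine red_cons_cons.2 ⟨?_, IsReduced.singleton⟩
        intro h3
        apply h
        rw [h3, fl_fl]
      have := IsReduced.append_overlap (L₁ := w') (L₂ := [y]) (L₃ := [x]) (by simpa using hw) h2
        (by simp)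
      simpa using this

/-- the reduced word of `g` starts with the letter `y` -/
def side (y : α × Bool) (g : FreeGroup α) : Prop :=
  ∃ w, IsReduced (y :: w) ∧ mk (y :: w) = g

lemma exists_red (g : FreeGroup α) : ∃ w, IsReduced w ∧ mk w = g := by
  classical
  exact ⟨g.toWord, isReduced_toWord, mk_toWord⟩

lemma side_iff {y : α × Bool} {w : List (α × Bool)} (hw : IsReduced w) :
    side y (mk w) ↔ w.head? = some y := by
  constructor
  · rintro ⟨w', h1, h2⟩
    rw [← red_inj h1 hw h2]; rfl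
  · intro h
    obtain ⟨w', rfl⟩ := List.head?_eq_some_iff.1 h
    exact ⟨w', hw, rfl⟩

lemma not_side_one (y : α × Bool) : ¬ side y 1 := by
  rw [← mk_nil, side_iff IsReduced.nil]; simp

lemma side_self (y : α × Bool) : side y (mk [y]) := ⟨[], IsReduced.singleton, rfl⟩

lemma side_step {y x : α × Bool} {g : FreeGroup α} (h1 : ¬ side y g) (h2 : side y (g * mk [x])) :
    g = 1 ∧ x = y := by
  obtain ⟨w, hw, rfl⟩ := exists_red g
  rcases red_step w hw x with h | ⟨w', rfl⟩
  · rw [← mk_app, side_iff h] at h2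
    rw [side_iff hw] at h1
    cases w with
    | nil => exact ⟨mk_nil, by simpa using h2⟩
    | cons a w => exact absurd (by simpa using h2) h1
  · exfalso
    have hw' : IsReduced w' := red_pre hw (List.prefix_append _ _)
    rw [mk_app, mk_fl, inv_mul_cancel_right, side_iff hw'] at h2
    apply h1
    rw [side_iff hw]
    obtain ⟨t, rfl⟩ := List.head?_eq_some_iff.1 h2
    rfl

lemma cross (y : α × Bool) : ∀ (v : List (α × Bool)) (g : FreeGroup α), ¬ side y g →
    side y (g * mk v) → ∃ v1 v2, v = v1 ++ y :: v2 ∧ g * mk v1 = 1 := by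
  intro v
  induction v with
  | nil => intro g h1 h2; rw [mk_nil, mul_one] at h2; exact absurd h2 h1
  | cons x v ih =>
    intro g h1 h2
    by_cases h : side y (g * mk [x])
    · obtain ⟨rfl, rfl⟩ := side_step h1 h
      exact ⟨[], v, rfl, by simp [mk_nil]⟩
    · rw [mk_cons, ← mul_assoc] at h2
      obtain ⟨v1, v2, rfl, h3⟩ := ih _ h h2
      exact ⟨x :: v1, v2, rfl, by rw [mk_cons, ← mul_assoc]; exact h3⟩

/-- crossing between two vertices of the tree of `v` -/
lemma cross_T {v : List (α × Bool)} {a g : FreeGroup α} {y : α × Bool} (ha : a ∈ T v)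
    (hg : g ∈ T v) (hs : side y (a⁻¹ * g)) :
    (∃ v1 v2, v = v1 ++ y :: v2 ∧ mk v1 = a) ∨
      (∃ v1 v2, v = v1 ++ fl y :: v2 ∧ mk v1 = a * mk [y]) := by
  obtain ⟨p, hp, rfl⟩ := mem_T.1 ha
  obtain ⟨q, hq, rfl⟩ := mem_T.1 hg
  rcases List.prefix_or_prefix_of_prefix hp hq with ⟨r, rfl⟩ | ⟨r, rfl⟩
  · left
    rw [mk_app, inv_mul_cancel_left, ← one_mul (mk r)] at hs
    obtain ⟨r1, r2, rfl, h⟩ := cross y r 1 (not_side_one y) hs
    obtain ⟨t, rfl⟩ := hq
    refine ⟨p ++ r1, r2 ++ t, by simp, ?_⟩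
    rw [one_mul] at h
    rw [mk_app, h, mul_one]
  · right
    have e : (mk (q ++ r))⁻¹ * mk q = 1 * mk (invRev r) := by
      rw [mk_app, mk_invRev]; group
    rw [e] at hs
    obtain ⟨r1, r2, h1, h⟩ := cross y _ 1 (not_side_one y) hs
    have h2 : r = invRev r2 ++ fl y :: invRev r1 := by
      rw [← invRev_invRev (L₁ := r), h1, invRev_append, invRev_cons, invRev_single]
      simp
    obtain ⟨t, rfl⟩ := hp
    rw [one_mul] at h
    refine ⟨q ++ invRev r2, invRev r1 ++ t, by rw [h2]; simp, ?_⟩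
    rw [h2, mk_app, mk_app, mk_app, mk_cons (fl y), mk_fl, mk_invRev r1, h]
    group

lemma side_mem_T {v : List (α × Bool)} {a g : FreeGroup α} {y : α × Bool} (ha : a ∈ T v)
    (hg : g ∈ T v) (hs : side y (a⁻¹ * g)) : a * mk [y] ∈ T v := by
  rcases cross_T ha hg hs with ⟨v1, v2, rfl, rfl⟩ | ⟨v1, v2, rfl, h⟩
  · exact mem_T.2 ⟨v1 ++ [y], ⟨v2, by simp⟩, mk_app _ _⟩
  · exact mem_T.2 ⟨v1, List.prefix_append _ _, h⟩

/-- first return decomposition of a trivial word -/
lemma first_return {x : α × Bool} {w : List (α × Bool)} (h : mk (x :: w) = 1) :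
    ∃ w1 w2, w = w1 ++ fl x :: w2 ∧ mk w1 = 1 ∧ mk w2 = 1 := by
  have h1 : mk w = mk [fl x] := by
    rw [mk_cons] at h
    rw [mk_fl]
    exact eq_inv_of_mul_eq_one_right h
  obtain ⟨w1, w2, rfl, h2⟩ := cross (fl x) w 1 (not_side_one _) (by
    rw [one_mul, h1]; exact side_self _)
  rw [one_mul] at h2
  refine ⟨w1, w2, rfl, h2, ?_⟩
  rw [mk_app, h2, one_mul, mk_cons] at h1
  exact mul_eq_left.1 h1

/-- a generator is prime -/
lemma prime_gen {x : α × Bool} {u v : List (α × Bool)} (hu : u ≠ [])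
    (h : mul (M u) (M v) = M [x]) : M u = M [x] ∨ M v = M [x] := by
  simp only [mul, M, Prod.mk.injEq, T_single] at h ⊢
  obtain ⟨h1, h2⟩ := h
  have hsub : T u ⊆ {1, mk [x]} := by rw [← h1]; exact Set.subset_union_left
  have hTu : T u = {1, mk [x]} := by
    refine Set.Subset.antisymm hsub ?_
    obtain ⟨y, u', rfl⟩ := List.exists_cons_of_ne_nil hu
    have hy : mk [y] ∈ T (y :: u') := mem_T.2 ⟨[y], ⟨u', rfl⟩, rfl⟩
    rintro g (rfl | rfl)
    · exact one_mem_T _
    · rcases hsub hy with h | h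
      · exact absurd h (mk_single_ne y)
      · rw [← h]; exact hy
  rcases hsub (mk_mem_T u) with h | h
  · right
    rw [h, one_mul] at h2
    rw [h, one_smul] at h1
    refine ⟨Set.Subset.antisymm (by rw [← h1]; exact Set.subset_union_right) ?_, h2⟩
    rintro g (rfl | rfl)
    · exact one_mem_T _
    · rw [← h2]; exact mk_mem_T _
  · exact Or.inl ⟨hTu, h⟩

/-- a sequence of loops -/
def loop (ws : List (List (α × Bool))) : List (α × Bool) := ws.flatMap fun w => w ++ invRev w

lemma mk_loop (ws : List (List (α × Bool))) : mk (loop ws) = 1 := by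
  induction ws with
  | nil => exact mk_nil
  | cons w ws ih =>
    have : loop (w :: ws) = w ++ invRev w ++ loop ws := by simp [loop]
    rw [this, mk_app, mk_app, ih, mk_invRev]; group

lemma mem_T_loop {ws : List (List (α × Bool))} {g : FreeGroup α} :
    g ∈ T (loop ws) ↔ g = 1 ∨ ∃ w ∈ ws, g ∈ T w := by
  induction ws with
  | nil => simp [loop, T_nil]
  | cons w ws ih =>
    have : loop (w :: ws) = w ++ invRev w ++ loop ws := by simp [loop]
    rw [this, T_append, T_append, mk_app, T_invRev, mk_invRev, smul_smul, mul_inv_cancel,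
      one_smul, one_smul, Set.union_self, Set.mem_union, ih]
    simp only [List.mem_cons, exists_eq_or_imp]
    tauto

end Pool.Agent.H32Z.FIS
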