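import Pool.Agent.H32Z.Reilly

set_option autoImplicit false
set_option linter.unusedSectionVars false

namespace Pool.Agent.H32Z.FIS

open FreeGroup
open scoped Pointwise

variable {α : Type}

/-- a monoid valued function on words satisfying the Wagner identities -/
structure Wag {Q : Type} [Monoid Q] (f : List (α × Bool) → Q) : Prop where
  intro ::
  nil : f [] = 1
  app : ∀ u v, f (u ++ v) = f u * f v
  reg : ∀ w, f (w ++ invRev w ++ w) = f w
  comm : ∀ w w', f (w ++ invRev w ++ (w' ++ invRev w')) = f (w' ++ invRev w' ++ (w ++ invRev w))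

namespace Wag
variable {Q : Type} [Monoid Q] {f : List (α × Bool) → Q} (h : Wag f)
include h

lemma reg' (w : List (α × Bool)) : f w * f (invRev w) * f w = f w := by
  rw [← h.app, ← h.app, h.reg]

lemma reg'' (w : List (α × Bool)) : f (invRev w) * f w * f (invRev w) = f (invRev w) := by
  have := h.reg' (invRev w)
  rwa [invRev_invRev] at this

lemma comm' (w w' : List (α × Bool)) : f w * f (invRev w) * (f w' * f (invRev w')) =
    f w' * f (invRev w') * (f w * f (invRev w)) := by
  rw [← h.app, ← h.app, ← h.app, h.comm, h.app, h.app, h.app]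

/-- moving an idempotent through a word -/
lemma move (w s : List (α × Bool)) : f w * (f s * f (invRev s)) =
    f (w ++ s) * f (invRev (w ++ s)) * f w := by
  have h1 := h.comm' (invRev w) s
  rw [invRev_invRev] at h1
  rw [invRev_append, h.app, h.app]
  calc f w * (f s * f (invRev s)) = f w * f (invRev w) * f w * (f s * f (invRev s)) := by
        rw [h.reg']
    _ = f w * (f (invRev w) * f w * (f s * f (invRev s))) := by simp only [mul_assoc]
    _ = f w * (f s * f (invRev s) * (f (invRev w) * f w)) := by rw [h1]
    _ = _ := by simp only [mul_assoc]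

omit h in
/-- idempotents -/
def Id (f : List (α × Bool) → Q) (e : Q) : Prop := ∃ s, e = f s * f (invRev s)

lemma id_comm {e e' : Q} (he : Id f e) (he' : Id f e') : e * e' = e' * e := by
  obtain ⟨s, rfl⟩ := he
  obtain ⟨t, rfl⟩ := he'
  exact h.comm' s t

lemma id_idem {e : Q} (he : Id f e) : e * e = e := by
  obtain ⟨s, rfl⟩ := he
  rw [← mul_assoc, h.reg']

lemma id_mul {e e' : Q} (he : Id f e) (he' : Id f e') : Id f (e * e') := by
  have h1 : e * e' = e * e' * e := by
    rw [mul_assoc, h.id_comm he' he, ← mul_assoc, h.id_idem he]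
  obtain ⟨s, rfl⟩ := he
  obtain ⟨t, rfl⟩ := he'
  refine ⟨s ++ invRev s ++ t, ?_⟩
  rw [h1, invRev_append, invRev_append, invRev_invRev]
  simp only [h.app, mul_assoc]

/-- each word lies below its reduced form -/
lemma le_red (a : List (α × Bool)) : ∀ b, IsReduced b → mk b = mk a →
    ∃ e, Id f e ∧ f a = e * f b := by
  induction a using List.reverseRecOn with
  | nil =>
    intro b hb hm
    rw [red_inj hb IsReduced.nil hm]
    exact ⟨1, ⟨[], by rw [invRev_empty, h.nil, one_mul]⟩, (one_mul _).symm⟩
  | append_singleton a x ih =>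
    intro b hb hm
    obtain ⟨c, hc, hc2⟩ := exists_red (mk a)
    obtain ⟨e, he, he2⟩ := ih c hc hc2
    rcases red_step c hc x with h1 | ⟨w, rfl⟩
    · have : b = c ++ [x] := red_inj hb h1 (by rw [hm, mk_app, mk_app, hc2])
      subst this
      exact ⟨e, he, by rw [h.app, h.app, he2, mul_assoc]⟩
    · have : b = w := red_inj hb (red_pre hc (List.prefix_append _ _)) (by
        rw [hm, mk_app, ← hc2, mk_app, mk_fl, inv_mul_cancel_right])
      subst this
      have h2 := h.move b [fl x]
      rw [invRev_single, fl_fl] at h2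
      refine ⟨e * (f (b ++ [fl x]) * f (invRev (b ++ [fl x]))), h.id_mul he ⟨_, rfl⟩, ?_⟩
      rw [h.app, he2, mul_assoc e (_ * _), ← h2, h.app]
      simp only [mul_assoc]

lemma absorb {u b : List (α × Bool)} (hb : IsReduced b) (hm : mk b ∈ T u) :
    f u * f (invRev u) = f u * f (invRev u) * (f b * f (invRev b)) := by
  obtain ⟨p, ⟨r, rfl⟩, hp⟩ := mem_T.1 hm
  obtain ⟨e, he, he2⟩ := h.le_red p b hb hp.symm
  have h1 : f b * f (invRev b) * f p = f p := by
    rw [he2, ← mul_assoc, h.id_comm ⟨b, rfl⟩ he, mul_assoc, h.reg']
  rw [h.comm' (p ++ r) b, h.app p r]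
  simp only [← mul_assoc]
  rw [h1]

lemma read {u : List (α × Bool)} (a : List (α × Bool)) : T a ⊆ T u → ∀ b, IsReduced b →
    mk b = mk a → f u * f (invRev u) * f a = f u * f (invRev u) * f b := by
  induction a using List.reverseRecOn with
  | nil =>
    intro _ b hb hm
    rw [red_inj hb IsReduced.nil hm]
  | append_singleton a x ih =>
    intro hT b hb hm
    obtain ⟨c, hc, hc2⟩ := exists_red (mk a)
    have hT' : T a ⊆ T u := by
      refine Set.Subset.trans ?_ hT
      rw [T_append]; exact Set.subset_union_left
    have ih' := ih hT' c hc hc2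
    rw [h.app, ← mul_assoc, ih']
    rcases red_step c hc x with h1 | ⟨w, rfl⟩
    · have : b = c ++ [x] := red_inj hb h1 (by rw [hm, mk_app, mk_app, hc2])
      subst this
      rw [h.app, mul_assoc]
    · have : b = w := red_inj hb (red_pre hc (List.prefix_append _ _)) (by
        rw [hm, mk_app, ← hc2, mk_app, mk_fl, inv_mul_cancel_right])
      subst this
      have h2 := h.absorb hc (u := u) (by rw [hc2]; exact hT' (mk_mem_T a))
      have h3 := h.comm' [fl x] (invRev b)
      rw [invRev_append, invRev_single, fl_fl, h.app, h.app] at h2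
      rw [invRev_single, fl_fl, invRev_invRev] at h3
      conv_rhs => rw [h2]
      rw [h.app]
      calc f u * f (invRev u) * (f b * f [fl x]) * f [x]
          = f u * f (invRev u) * (f b * f (invRev b) * f b * (f [fl x] * f [x])) := by
            rw [h.reg']; simp only [mul_assoc]
        _ = f u * f (invRev u) * (f b * (f (invRev b) * f b * (f [fl x] * f [x]))) := by
            simp only [mul_assoc]
        _ = _ := by rw [← h3]; simp only [mul_assoc]

/-- Munn's solution of the word problem -/
theorem munn {u v : List (α × Bool)} (hM : M u = M v) : f u = f v := by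
  simp only [M, Prod.mk.injEq] at hM
  obtain ⟨b, hb, hb2⟩ := exists_red (mk u)
  have key : ∀ u v : List (α × Bool), T v ⊆ T u →
      f u * f (invRev u) * (f v * f (invRev v)) = f u * f (invRev u) := by
    intro u v hT
    have := h.read (u := u) (v ++ invRev v) (by
      rw [T_append, T_invRev, smul_smul, mul_inv_cancel, one_smul, Set.union_self]; exact hT) []
      IsReduced.nil (by rw [mk_app, mk_invRev, mul_inv_cancel, mk_nil])
    rwa [h.app, h.nil, mul_one] at this
  have e : f u * f (invRev u) = f v * f (invRev v) := by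
    rw [← key u v hM.1.symm.subset, h.comm', key v u hM.1.subset]
  rw [← h.reg' u, ← h.reg' v, h.read u subset_rfl b hb hb2,
    h.read v subset_rfl b hb (hb2.trans hM.2), e]

end Wag

end Pool.Agent.H32Z.FIS
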