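import Pool.Agent.H32Z.Munn

set_option autoImplicit false
set_option linter.unusedSectionVars false

namespace Pool.Agent.H32Z.FIS

open FreeGroup
open scoped Pointwise

variable {α β : Type}

/-- the word substituted for a letter -/
def lam (γ : β → List (α × Bool)) (x : β × Bool) : List (α × Bool) :=
  bif x.2 then γ x.1 else invRev (γ x.1)

/-- substitution of words for letters -/
def ev (γ : β → List (α × Bool)) (v : List (β × Bool)) : List (α × Bool) := v.flatMap (lam γ)

variable (γ : β → List (α × Bool))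

lemma lam_fl (x : β × Bool) : lam γ (fl x) = invRev (lam γ x) := by
  obtain ⟨z, b⟩ := x
  cases b <;> simp [lam, fl]

lemma ev_nil : ev γ [] = [] := rfl
lemma ev_cons (x : β × Bool) (v : List (β × Bool)) : ev γ (x :: v) = lam γ x ++ ev γ v := by
  simp [ev]
lemma ev_single (x : β × Bool) : ev γ [x] = lam γ x := by simp [ev]
lemma ev_append (u v : List (β × Bool)) : ev γ (u ++ v) = ev γ u ++ ev γ v := by simp [ev]

lemma ev_invRev (v : List (β × Bool)) : ev γ (invRev v) = invRev (ev γ v) := by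
  induction v with
  | nil => simp [ev]
  | cons x v ih =>
    rw [invRev_cons, ev_append, ih, invRev_single, ev_single, ev_cons, invRev_append, lam_fl]

/-- induced group homomorphism -/
def th : FreeGroup β →* FreeGroup α := FreeGroup.lift fun z => mk (γ z)

lemma th_single (x : β × Bool) : th γ (mk [x]) = mk (lam γ x) := by
  obtain ⟨z, b⟩ := x
  cases b
  · simp [th, lam]
  · simp [th, lam]

lemma th_mk (v : List (β × Bool)) : th γ (mk v) = mk (ev γ v) := by
  induction v with
  | nil => rw [mk_nil, _root_.map_one, ev_nil, mk_nil]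
  | cons x v ih => rw [mk_cons, _root_.map_mul, ih, th_single, ev_cons, mk_app]

lemma mem_T_ev {v : List (β × Bool)} {g : FreeGroup α} : g ∈ T (ev γ v) ↔
    g = 1 ∨ ∃ v1 x v2, v = v1 ++ x :: v2 ∧ g ∈ mk (ev γ v1) • T (lam γ x) := by
  induction v using List.reverseRecOn with
  | nil => simp [ev_nil, T_nil]
  | append_singleton v y ih =>
    rw [ev_append, ev_single, T_append, Set.mem_union, ih]
    constructor
    · rintro ((h | ⟨v1, x, v2, rfl, h⟩) | h)
      · exact Or.inl h
      · exact Or.inr ⟨v1, x, v2 ++ [y], by simp, h⟩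
      · exact Or.inr ⟨v, y, [], rfl, h⟩
    · rintro (h | ⟨v1, x, v2, h1, h⟩)
      · exact Or.inl (Or.inl h)
      · rcases List.eq_nil_or_concat v2 with rfl | ⟨v3, z, rfl⟩
        · obtain ⟨rfl, h2⟩ := List.append_inj' h1 rfl
          obtain rfl : y = x := by simpa using h2
          exact Or.inr h
        · have h1' : v ++ [y] = (v1 ++ x :: v3) ++ [z] := by simpa using h1
          obtain ⟨rfl, -⟩ := List.append_inj' h1' rfl
          exact Or.inl (Or.inr ⟨v1, x, v3, rfl, h⟩)

lemma mem_T_ev' {v : List (β × Bool)} (hv : v ≠ []) {g : FreeGroup α} (hg : g ∈ T (ev γ v)) :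
    ∃ v1 x v2, v = v1 ++ x :: v2 ∧ g ∈ mk (ev γ v1) • T (lam γ x) := by
  rcases (mem_T_ev γ).1 hg with rfl | h
  · obtain ⟨x, v2, rfl⟩ := List.exists_cons_of_ne_nil hv
    exact ⟨[], x, v2, rfl, by rw [ev_nil, mk_nil, one_smul]; exact one_mem_T _⟩
  · exact h

lemma smul_T_fl (a : FreeGroup α) (x : β × Bool) :
    (a * mk (lam γ x)) • T (lam γ (fl x)) = a • T (lam γ x) := by
  rw [lam_fl, T_invRev, smul_smul, mul_inv_cancel_right]

lemma T_ev_mono {v v' : List (β × Bool)} (h : T v ⊆ T v') : T (ev γ v) ⊆ T (ev γ v') := by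
  intro g hg
  rcases (mem_T_ev γ).1 hg with rfl | ⟨v1, x, v2, rfl, h1⟩
  · exact one_mem_T _
  · have ha : mk v1 ∈ T v' := h (mem_T.2 ⟨v1, List.prefix_append _ _, rfl⟩)
    have hb : mk v1 * mk [x] ∈ T v' := h (mem_T.2 ⟨v1 ++ [x], ⟨v2, by simp⟩, mk_app _ _⟩)
    rcases cross_T (y := x) ha hb (by rw [inv_mul_cancel_left]; exact side_self x) with
      ⟨w1, w2, rfl, h2⟩ | ⟨w1, w2, rfl, h2⟩
    · refine (mem_T_ev γ).2 (Or.inr ⟨w1, x, w2, rfl, ?_⟩)
      rw [← th_mk, h2, th_mk]; exact h1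
    · refine (mem_T_ev γ).2 (Or.inr ⟨w1, fl x, w2, rfl, ?_⟩)
      rw [← th_mk, h2, _root_.map_mul, th_mk, th_single, smul_T_fl]; exact h1

lemma M_ev_congr {v v' : List (β × Bool)} (h : M v = M v') : M (ev γ v) = M (ev γ v') := by
  simp only [M, Prod.mk.injEq] at h ⊢
  refine ⟨Set.Subset.antisymm (T_ev_mono γ h.1.subset) (T_ev_mono γ h.1.symm.subset), ?_⟩
  rw [← th_mk, h.2, th_mk]

/-- the words `γ z` freely generate an inverse subsemigroup -/
def Free : Prop :=
  ∀ v v' : List (β × Bool), v ≠ [] → v' ≠ [] → M (ev γ v) = M (ev γ v') → M v = M v'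

/-- failure of Reilly's condition at the letter `y` -/
def Bad (y : β × Bool) : Prop :=
  ∀ t ∈ T (lam γ y), ∃ w, IsReduced (fl y :: w) ∧ w ≠ [] ∧ t ∈ T (ev γ w)

lemma red_of_not_side {y : β × Bool} {w : List (β × Bool)} (hw : IsReduced w)
    (h : ¬ side y (mk w)) : IsReduced (fl y :: w) := by
  cases w with
  | nil => exact IsReduced.singleton
  | cons b w =>
    refine red_cons_cons.2 ⟨?_, hw⟩
    rw [fl_fl]
    rintro rfl
    exact h ⟨w, hw, rfl⟩

lemma T_sub_of_not_bad (hb : ∀ y, ¬ Bad γ y) {v v' : List (β × Bool)} (hv' : v' ≠ [])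
    (h : T (ev γ v) ⊆ T (ev γ v')) : T v ⊆ T v' := by
  have key : ∀ p, p <+: v → mk p ∈ T v' := by
    intro p
    induction p using List.reverseRecOn with
    | nil => intro _; rw [mk_nil]; exact one_mem_T _
    | append_singleton p y ih =>
      intro hp
      have ha : mk p ∈ T v' := ih ((List.prefix_append _ _).trans hp)
      by_contra hn
      rw [mk_app] at hn
      apply hb y
      intro t ht
      obtain ⟨r, hr⟩ := hp
      have h1 : mk (ev γ p) * t ∈ T (ev γ v') := by
        apply h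
        refine (mem_T_ev γ).2 (Or.inr ⟨p, y, r, by rw [← hr]; simp, ⟨t, ht, rfl⟩⟩)
      obtain ⟨v1, x, v2, rfl, h2⟩ := mem_T_ev' γ hv' h1
      have hb1 : mk v1 ∈ T (v1 ++ x :: v2) := mem_T.2 ⟨v1, List.prefix_append _ _, rfl⟩
      have hb2 : mk v1 * mk [x] ∈ T (v1 ++ x :: v2) :=
        mem_T.2 ⟨v1 ++ [x], ⟨v2, by simp⟩, mk_app _ _⟩
      obtain ⟨w0, hw0, hw1⟩ := exists_red ((mk p)⁻¹ * mk v1)
      have h3 : t ∈ mk (ev γ w0) • T (lam γ x) := by
        rw [← th_mk, hw1, _root_.map_mul, _root_.map_inv, th_mk, th_mk, mul_smul]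
        obtain ⟨s, hs, hs2⟩ := h2
        refine ⟨_, ⟨s, hs, rfl⟩, ?_⟩
        simp only [smul_eq_mul] at hs2 ⊢
        rw [hs2, inv_mul_cancel_left]
      rcases red_step w0 hw0 x with h4 | ⟨w', rfl⟩
      · refine ⟨w0 ++ [x], red_of_not_side h4 ?_, by simp, ?_⟩
        · rw [mk_app, hw1, mul_assoc]
          exact fun hs => hn (side_mem_T ha hb2 hs)
        · exact (mem_T_ev γ).2 (Or.inr ⟨w0, x, [], rfl, h3⟩)
      · refine ⟨w' ++ [fl x], red_of_not_side hw0 ?_, by simp, ?_⟩
        · rw [hw1]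
          exact fun hs => hn (side_mem_T ha hb1 hs)
        · refine (mem_T_ev γ).2 (Or.inr ⟨w', fl x, [], rfl, ?_⟩)
          rw [ev_append, ev_single, mk_app] at h3
          rw [← smul_T_fl, fl_fl]
          exact h3
  intro g hg
  obtain ⟨p, hp, rfl⟩ := mem_T.1 hg
  exact key p hp

lemma free_of_not_bad (hb : ∀ y, ¬ Bad γ y) : Free γ := by
  intro v v' hv hv' h
  simp only [M, Prod.mk.injEq] at h ⊢
  refine ⟨Set.Subset.antisymm (T_sub_of_not_bad γ hb hv' h.1.subset)
    (T_sub_of_not_bad γ hb hv h.1.symm.subset), ?_⟩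
  by_contra hne
  have hne' : mk v * (mk v')⁻¹ ≠ 1 := fun h => hne (mul_inv_eq_one.1 h)
  have key : ∀ n : ℕ, ∃ y : List (β × Bool), mk y = (mk v * (mk v')⁻¹) ^ n ∧ mk (ev γ y) = 1 ∧
      T (ev γ y) ⊆ T (ev γ v') := by
    intro n
    induction n with
    | zero =>
      refine ⟨[], by rw [pow_zero, mk_nil], mk_nil, ?_⟩
      rw [ev_nil, T_nil]
      rintro g rfl
      exact one_mem_T _
    | succ n ih =>
      obtain ⟨y, h1, h2, h3⟩ := ih
      refine ⟨y ++ (v ++ invRev v'), ?_, ?_, ?_⟩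
      · rw [mk_app, mk_app, h1, mk_invRev, pow_succ]
      · rw [ev_append, ev_append, mk_app, mk_app, h2, ev_invRev, mk_invRev, h.2]; group
      · rw [ev_append, ev_append, T_append, T_append, h2, one_smul, ev_invRev, T_invRev, h.2,
          smul_smul, mul_inv_cancel, one_smul, h.1, Set.union_self]
        exact Set.union_subset h3 subset_rfl
  have hinj : Function.Injective fun n : ℕ => (mk v * (mk v')⁻¹) ^ n :=
    injective_pow_iff_not_isOfFinOrder.2 (not_isOfFinOrder_of_isMulTorsionFree hne')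
  refine Set.infinite_range_of_injective hinj ((T_finite v').subset ?_)
  rintro _ ⟨n, rfl⟩
  obtain ⟨y, h1, -, h3⟩ := key n
  have := T_sub_of_not_bad γ hb hv' h3 (mk_mem_T y)
  rw [h1] at this
  exact this

lemma ev_loop (ws : List (List (β × Bool))) : ev γ (loop ws) = loop (ws.map (ev γ)) := by
  induction ws with
  | nil => rfl
  | cons w ws ih =>
    have e1 : loop (w :: ws) = w ++ invRev w ++ loop ws := by simp [loop]
    have e2 : loop ((w :: ws).map (ev γ)) = ev γ w ++ invRev (ev γ w) ++ loop (ws.map (ev γ)) := by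
      simp [loop]
    rw [e1, e2, ev_append, ev_append, ih, ev_invRev]

lemma loop_ne_nil {ws : List (List (β × Bool))} {w : List (β × Bool)} (h : w ∈ ws) (hw : w ≠ []) :
    loop ws ≠ [] := by
  intro h0
  have := (List.flatMap_eq_nil_iff.1 h0) w h
  simp at this
  exact hw this.1

lemma not_bad_of_free (hf : Free γ) (y : β × Bool) : ¬ Bad γ y := by
  intro hb
  have hb' : ∀ p : List (α × Bool), ∃ w, IsReduced (fl y :: w) ∧ w ≠ [] ∧
      (p <+: lam γ y → mk p ∈ T (ev γ w)) := by
    intro p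
    by_cases hp : p <+: lam γ y
    · obtain ⟨w, h1, h2, h3⟩ := hb _ (mem_T.2 ⟨p, hp, rfl⟩)
      exact ⟨w, h1, h2, fun _ => h3⟩
    · obtain ⟨w, h1, h2, -⟩ := hb _ (one_mem_T _)
      exact ⟨w, h1, h2, fun h => absurd h hp⟩
  choose c hc1 hc2 hc3 using hb'
  set ws := (lam γ y).inits.map c with hws
  have hmem : c [] ∈ ws := List.mem_map.2 ⟨[], by simp, rfl⟩
  have h := hf (loop ws) (loop ([y] :: ws)) (loop_ne_nil hmem (hc2 _))
    (loop_ne_nil (w := [y]) (by simp) (by simp)) (by
      rw [ev_loop, ev_loop]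
      simp only [M, mk_loop, Prod.mk.injEq, and_true]
      ext g
      simp only [mem_T_loop, List.map_cons, List.mem_cons, exists_eq_or_imp, ev_single]
      constructor
      · rintro (h | h)
        · exact Or.inl h
        · exact Or.inr (Or.inr h)
      · rintro (h | h | h)
        · exact Or.inl h
        · obtain ⟨p, hp, rfl⟩ := mem_T.1 h
          exact Or.inr ⟨_, List.mem_map.2 ⟨c p, List.mem_map.2 ⟨p, by simpa using hp, rfl⟩, rfl⟩,
            hc3 p hp⟩
        · exact Or.inr h)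
  have h1 : mk [y] ∈ T (loop ws) := by
    have : T (loop ws) = T (loop ([y] :: ws)) := congrArg Prod.fst h
    rw [this]
    exact mem_T_loop.2 (Or.inr ⟨[y], by simp, mk_mem_T _⟩)
  rcases mem_T_loop.1 h1 with h2 | ⟨w, hw, h2⟩
  · exact mk_single_ne y h2
  · obtain ⟨p, -, rfl⟩ := List.mem_map.1 hw
    obtain ⟨q, hq, h3⟩ := mem_T.1 h2
    have hred : IsReduced (c p) := red_tail (hc1 p)
    have h4 := red_inj (red_pre hred hq) IsReduced.singleton h3
    subst h4
    obtain ⟨r, hr⟩ := hq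
    have h5 := hc1 p
    rw [← hr] at h5
    exact (red_cons_cons.1 h5).1 (fl_fl y).symm

theorem reilly : Free γ ↔ ∀ y, ¬ Bad γ y := ⟨not_bad_of_free γ, free_of_not_bad γ⟩

end Pool.Agent.H32Z.FIS
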