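import Pool.Agent.H816Z.Spec

set_option autoImplicit false

open Topology Filter
open scoped Manifold ContDiff

namespace Pool.Agent.H816Z

/-- two paths inside a simply connected set with the same ends are homotopic -/
theorem homotopic_of_range_subset {M : Type} [TopologicalSpace M] {U : Set M}
    (hs : IsSimplyConnected U) {x y : M} (δ δ' : Path x y) (h : Set.range δ ⊆ U)
    (h' : Set.range δ' ⊆ U) : δ.Homotopic δ' := by
  have := hs.simplyConnectedSpace
  have hx : x ∈ U := h ⟨0, δ.source⟩
  have hy : y ∈ U := h ⟨1, δ.target⟩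
  let p : Path (⟨x, hx⟩ : U) ⟨y, hy⟩ :=
    { toFun := fun t => ⟨δ t, h ⟨t, rfl⟩⟩
      continuous_toFun := δ.continuous.subtype_mk _
      source' := by simp
      target' := by simp }
  let q : Path (⟨x, hx⟩ : U) ⟨y, hy⟩ :=
    { toFun := fun t => ⟨δ' t, h' ⟨t, rfl⟩⟩
      continuous_toFun := δ'.continuous.subtype_mk _
      source' := by simp
      target' := by simp }
  have hpq := (SimplyConnectedSpace.paths_homotopic p q).map
    (⟨Subtype.val, continuous_subtype_val⟩ : C(U, M))
  exact hpq

/-- an open simply connected set is good for the path system -/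
theorem good_of_simplyConnected {M : Type} [TopologicalSpace M] (x₀ : M) {U : Set M}
    (hU : IsOpen U) (hs : IsSimplyConnected U) : (pathSys x₀).Good U := by
  refine ⟨hU, fun a ha y hy => ?_⟩
  obtain ⟨δ, hδ⟩ := hs.isPathConnected.joinedIn a.1 ha y hy
  have hδ' : Set.range δ ⊆ U := by
    rintro _ ⟨t, rfl⟩
    exact hδ t
  refine ⟨⟨y, a.2.trans (Path.Homotopic.Quotient.mk δ)⟩, ⟨rfl, δ, hδ', rfl⟩, ?_⟩
  rintro ⟨y', β⟩ ⟨h1, δ', h2, h3⟩
  have h1' : y' = y := h1
  subst h1'
  have h4 : β = a.2.trans (Path.Homotopic.Quotient.mk δ') := h3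
  have h5 : Path.Homotopic.Quotient.mk δ' = Path.Homotopic.Quotient.mk δ :=
    Path.Homotopic.Quotient.eq.2 (homotopic_of_range_subset hs δ' δ h2 hδ')
  rw [h4, h5]

theorem t2 : S_T2 := by
  intro n M _ _ _ _ _ _
  refine ⟨?_, ?_, ?_⟩
  · have : LocallyPathConnectedSpace M :=
      ChartedSpace.locallyPathConnectedSpace (EuclideanSpace ℝ (Fin n)) M
    exact PathConnectedSpace.of_locallyPathConnectedSpace
  · obtain ⟨N, e, -, he, -⟩ := exists_embedding_euclidean_of_compact (I := 𝓡 n) (M := M)
    refine ⟨N, fun y i => e y i, ?_, ?_⟩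
    · exact continuous_pi fun i => (EuclideanSpace.proj i).continuous.comp he.continuous
    · intro y y' h
      apply he.injective
      ext i
      exact congrFun h i
  · intro x₀ z W hW
    set e := chartAt (EuclideanSpace ℝ (Fin n)) z with he
    have hz : z ∈ e.source := mem_chart_source _ z
    have h1 : e.target ∩ e.symm ⁻¹' W ∈ 𝓝 (e z) := by
      refine inter_mem (e.open_target.mem_nhds (e.map_source hz)) ?_
      apply (e.continuousAt_symm (e.map_source hz)).preimage_mem_nhds
      rwa [e.left_inv hz]
    obtain ⟨r, hr, hball⟩ := Metric.mem_nhds_iff.1 h1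
    have hsub : Metric.closedBall (e z) (r / 2) ⊆ Metric.ball (e z) r :=
      Metric.closedBall_subset_ball (by linarith)
    have hDs : e.symm '' Metric.closedBall (e z) (r / 2) ⊆ e.source := by
      rintro _ ⟨v, hv, rfl⟩
      exact e.map_target (hball (hsub hv)).1
    have hDi : e '' (e.symm '' Metric.closedBall (e z) (r / 2)) =
        Metric.closedBall (e z) (r / 2) :=
      e.image_symm_image_of_subset_target fun v hv => (hball (hsub hv)).1
    refine ⟨e.source ∩ e ⁻¹' Metric.ball (e z) r, ?_, ?_,
      e.symm '' Metric.closedBall (e z) (r / 2), ?_, ?_, ?_, fun y i => e y i, ?_, ?_, ?_⟩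
    · rintro y ⟨hy, hy'⟩
      have := (hball hy').2
      rwa [Set.mem_preimage, e.left_inv hy] at this
    · refine good_of_simplyConnected x₀ (e.isOpen_inter_preimage Metric.isOpen_ball) ?_
      have himg : e '' (e.source ∩ e ⁻¹' Metric.ball (e z) r) = Metric.ball (e z) r := by
        apply Set.Subset.antisymm
        · rintro _ ⟨y, hy, rfl⟩
          exact hy.2
        · intro v hv
          have hv' := (hball hv).1
          exact ⟨e.symm v, ⟨e.map_target hv', by
            rw [Set.mem_preimage, e.right_inv hv']; exact hv⟩, e.right_inv hv'⟩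
      have hh := e.homeomorphOfImageSubsetSource Set.inter_subset_left himg
      have : ContractibleSpace (Metric.ball (e z) r) :=
        (convex_ball (e z) r).contractibleSpace ⟨e z, Metric.mem_ball_self hr⟩
      have : ContractibleSpace ↥(e.source ∩ e ⁻¹' Metric.ball (e z) r) := hh.contractibleSpace
      exact SimplyConnectedSpace.ofContractible _
    · have h2 : Metric.closedBall (e z) (r / 2) ∈ 𝓝 (e z) :=
        Metric.closedBall_mem_nhds _ (by linarith)
      have h3 := e.symm.image_mem_nhds (x := e z) (e.map_source hz) h2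
      rwa [e.left_inv hz] at h3
    · rintro _ ⟨v, hv, rfl⟩
      have hv' := (hball (hsub hv)).1
      exact ⟨e.map_target hv', by rw [Set.mem_preimage, e.right_inv hv']; exact hsub hv⟩
    · exact (isCompact_closedBall _ _).image_of_continuousOn
        (e.continuousOn_symm.mono fun v hv => (hball (hsub hv)).1)
    · exact continuousOn_pi.2 fun i =>
        (EuclideanSpace.proj i).continuous.comp_continuousOn (e.continuousOn.mono hDs)
    · intro y hy y' hy' h
      apply e.injOn (hDs hy) (hDs hy')
      ext i
      exact congrFun h i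
    · have h4 : (fun y i => e y i) '' (e.symm '' Metric.closedBall (e z) (r / 2)) =
          (WithLp.linearEquiv 2 ℝ (Fin n → ℝ)).toLinearMap ''
            Metric.closedBall (e z) (r / 2) := by
        conv_rhs => rw [← hDi]
        rw [Set.image_image (g := (WithLp.linearEquiv 2 ℝ (Fin n → ℝ)).toLinearMap)]
        rfl
      rw [h4]
      exact (convex_closedBall _ _).linear_image _

end Pool.Agent.H816Z
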