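import Mathlib

set_option autoImplicit false
set_option linter.unusedSectionVars false

namespace Pool.Agent.H32Z.Theta

open Finset

/-- quadratic form of a real matrix -/
def qf {V : Type} [Fintype V] (M : V → V → ℝ) (x : V → ℝ) : ℝ := ∑ i, ∑ j, x i * M i j * x j

/-- positive semidefinite symmetric matrix -/
def PSD {V : Type} [Fintype V] (M : V → V → ℝ) : Prop :=
  (∀ i j, M i j = M j i) ∧ ∀ x, 0 ≤ qf M x

section basic
variable {V : Type} [Fintype V]

lemma PSD.toM {M : V → V → ℝ} (h : PSD M) : (Matrix.of M).PosSemidef := by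
  rw [Matrix.posSemidef_iff_dotProduct_mulVec]
  refine ⟨?_, fun x => ?_⟩
  · ext i j
    simp [h.1 j i]
  · have := h.2 x
    unfold qf at this
    simpa [dotProduct, Matrix.mulVec, Finset.mul_sum, mul_assoc] using this

lemma PSD.ofM {M : Matrix V V ℝ} (h : M.PosSemidef) : PSD (fun i j => M i j) := by
  rw [Matrix.posSemidef_iff_dotProduct_mulVec] at h
  refine ⟨fun i j => ?_, fun x => ?_⟩
  · have := congrFun (congrFun h.1 j) i
    simpa using this
  · have := h.2 x
    unfold qf
    simpa [dotProduct, Matrix.mulVec, Finset.mul_sum, mul_assoc] using this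

lemma PSD.hadamard {A B : V → V → ℝ} (hA : PSD A) (hB : PSD B) :
    PSD (fun i j => A i j * B i j) :=
  PSD.ofM (hA.toM.hadamard hB.toM)

lemma PSD.kron {W : Type} [Fintype W] {A : V → V → ℝ} {B : W → W → ℝ} (hA : PSD A) (hB : PSD B) :
    PSD (fun (p q : V × W) => A p.1 q.1 * B p.2 q.2) :=
  PSD.ofM (hA.toM.kronecker hB.toM)

lemma PSD.sub {W : Type} [Fintype W] {A : V → V → ℝ} (hA : PSD A) (f : W → V) :
    PSD (fun p q => A (f p) (f q)) :=
  PSD.ofM (hA.toM.submatrix f)

lemma qf_add (A B : V → V → ℝ) (x : V → ℝ) :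
    qf (fun i j => A i j + B i j) x = qf A x + qf B x := by
  unfold qf
  simp only [mul_add, add_mul, Finset.sum_add_distrib]

lemma qf_smul (c : ℝ) (A : V → V → ℝ) (x : V → ℝ) :
    qf (fun i j => c * A i j) x = c * qf A x := by
  unfold qf
  simp only [Finset.mul_sum]
  refine Finset.sum_congr rfl fun i _ => Finset.sum_congr rfl fun j _ => by ring

lemma qf_scale (c : ℝ) (A : V → V → ℝ) (x : V → ℝ) :
    qf A (fun i => c * x i) = c ^ 2 * qf A x := by
  unfold qf
  simp only [Finset.mul_sum]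
  refine Finset.sum_congr rfl fun i _ => Finset.sum_congr rfl fun j _ => by ring

/-- identity matrix -/
noncomputable def idm (V : Type) : V → V → ℝ := by
  classical
  exact fun i j => if i = j then 1 else 0

lemma idm_self (i : V) : idm V i i = 1 := by simp [idm]
lemma idm_ne {i j : V} (h : i ≠ j) : idm V i j = 0 := by simp [idm, h]
lemma idm_comm (i j : V) : idm V i j = idm V j i := by
  by_cases h : i = j
  · subst h; rfl
  · rw [idm_ne h, idm_ne (Ne.symm h)]

lemma qf_idm (x : V → ℝ) : qf (idm V) x = ∑ i, x i ^ 2 := by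
  classical
  unfold qf
  refine Finset.sum_congr rfl fun i _ => ?_
  rw [Finset.sum_eq_single i]
  · rw [idm_self]; ring
  · intro j _ hj
    rw [idm_ne (Ne.symm hj)]; ring
  · simp

lemma qf_one (x : V → ℝ) : qf (fun _ _ => (1 : ℝ)) x = (∑ i, x i) ^ 2 := by
  unfold qf
  rw [sq, Finset.sum_mul_sum]
  simp

lemma PSD.add {A B : V → V → ℝ} (hA : PSD A) (hB : PSD B) : PSD (fun i j => A i j + B i j) :=
  ⟨fun i j => by simp only [hA.1 i j, hB.1 i j], fun x => by
    rw [qf_add]; exact add_nonneg (hA.2 x) (hB.2 x)⟩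

lemma PSD.smul {A : V → V → ℝ} (hA : PSD A) {c : ℝ} (hc : 0 ≤ c) : PSD (fun i j => c * A i j) :=
  ⟨fun i j => by simp only [hA.1 i j], fun x => by rw [qf_smul]; exact mul_nonneg hc (hA.2 x)⟩

lemma PSD.congr {A B : V → V → ℝ} (hA : PSD A) (h : ∀ i j, A i j = B i j) : PSD B := by
  have : A = B := funext fun i => funext fun j => h i j
  rw [← this]; exact hA

lemma psd_idm : PSD (idm V) :=
  ⟨idm_comm, fun x => by rw [qf_idm]; exact Finset.sum_nonneg fun i _ => sq_nonneg _⟩

lemma psd_one : PSD (fun (_ _ : V) => (1 : ℝ)) :=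
  ⟨fun _ _ => rfl, fun x => by rw [qf_one]; exact sq_nonneg _⟩

lemma psd_outer (y : V → ℝ) : PSD (fun i j => y i * y j) :=
  ⟨fun i j => mul_comm _ _, fun x => by
    have : qf (fun i j => y i * y j) x = (∑ i, x i * y i) ^ 2 := by
      unfold qf
      rw [sq, Finset.sum_mul_sum]
      refine Finset.sum_congr rfl fun i _ => Finset.sum_congr rfl fun j _ => by ring
    rw [this]; exact sq_nonneg _⟩

end basic

/-- normalised witness: a weighted adjacency matrix with spectrum in `[-δ, 1]` and top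
eigenvalue `1`. -/
def NW {V : Type} [Fintype V] (X : V → V → Prop) (δ : ℝ) : Prop :=
  ∃ (A : V → V → ℝ) (x : V → ℝ), (∀ i j, ¬ X i j → A i j = 0) ∧
    PSD (fun i j => δ * idm V i j + A i j) ∧ PSD (fun i j => idm V i j + (-1) * A i j) ∧
    ∑ i, x i ^ 2 = 1 ∧ qf A x = 1

/-- strict vector colouring, in Gram matrix form -/
def VC {V : Type} [Fintype V] (X : V → V → Prop) (τ : ℝ) : Prop :=
  ∃ Z : V → V → ℝ, PSD Z ∧ (∀ i, Z i i = τ) ∧ ∀ i j, X i j → Z i j = -1

lemma weak {V W : Type} [Fintype V] [Fintype W] {X : V → V → Prop} {Y : W → W → Prop}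
    (hX : ∀ i, ¬ X i i) {δ τ : ℝ}
    (hN : NW X δ) (hV : VC Y τ) (f : V → W) (hf : ∀ i j, X i j → Y (f i) (f j)) :
    1 ≤ τ * δ := by
  obtain ⟨A, x, hA, h1, -, hx, hq⟩ := hN
  obtain ⟨Z, hZ, hd, ha⟩ := hV
  have h := ((hZ.sub f).hadamard h1).2 x
  have e : (fun i j => Z (f i) (f j) * (δ * idm V i j + A i j))
      = fun i j => (τ * δ) * idm V i j + (-1) * A i j := by
    funext i j
    by_cases hij : i = j
    · subst hij
      rw [hd, hA i i (hX i), idm_self]; ring
    · rw [idm_ne hij]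
      by_cases hx : X i j
      · rw [ha _ _ (hf i j hx)]; ring
      · rw [hA i j hx]; ring
  rw [e, qf_add, qf_smul, qf_smul, qf_idm, hx, hq] at h
  linarith

lemma NW.prod {V W : Type} [Fintype V] [Fintype W] {X : V → V → Prop} {Y : W → W → Prop}
    {δ : ℝ} (h0 : 0 ≤ δ) (h1 : δ ≤ 1) (hX : NW X δ) (hY : NW Y δ) :
    NW (fun (p q : V × W) => X p.1 q.1 ∧ Y p.2 q.2) δ := by
  obtain ⟨A, x, hA, hQ, hP, hx, hq⟩ := hX
  obtain ⟨B, y, hB, hQ', hP', hy, hq'⟩ := hY
  have hid : ∀ p q : V × W, idm (V × W) p q = idm V p.1 q.1 * idm W p.2 q.2 := by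
    rintro ⟨a, b⟩ ⟨c, d⟩
    by_cases h : a = c
    · by_cases h' : b = d
      · subst h; subst h'; simp [idm_self]
      · rw [idm_ne h', idm_ne (by simp [h'])]; simp
    · rw [idm_ne h, idm_ne (by simp [h])]; simp
  have hpos : 0 < 1 + δ := by linarith
  refine ⟨fun p q => A p.1 q.1 * B p.2 q.2, fun p => x p.1 * y p.2, ?_, ?_, ?_, ?_, ?_⟩
  · intro p q h
    by_cases h1 : X p.1 q.1
    · have : ¬ Y p.2 q.2 := fun h2 => h ⟨h1, h2⟩
      simp [hB _ _ this]
    · simp [hA _ _ h1]
  · refine (((hQ.kron hQ').smul (c := 1 / (1 + δ)) (by positivity)).add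
      ((hP.kron hP').smul (c := δ / (1 + δ)) (by positivity))).congr ?_
    intro p q
    rw [hid]
    field_simp
    ring
  · refine ((((hQ.kron hP').smul (c := 1 / (1 + δ)) (by positivity)).add
      ((hP.kron hQ').smul (c := 1 / (1 + δ)) (by positivity))).add
      ((hP.kron hP').smul (c := (1 - δ) / (1 + δ))
        (div_nonneg (by linarith) hpos.le))).congr ?_
    intro p q
    rw [hid]
    field_simp
    ring
  · rw [Fintype.sum_prod_type]
    simp only [mul_pow, ← Finset.mul_sum, hy, mul_one, hx]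
  · have : qf (fun (p q : V × W) => A p.1 q.1 * B p.2 q.2) (fun p => x p.1 * y p.2)
        = qf A x * qf B y := by
      unfold qf
      rw [Finset.sum_mul_sum, Fintype.sum_prod_type]
      refine Finset.sum_congr rfl fun i _ => Finset.sum_congr rfl fun a _ => ?_
      rw [Finset.sum_mul_sum, Fintype.sum_prod_type]
      refine Finset.sum_congr rfl fun j _ => Finset.sum_congr rfl fun b _ => by ring
    rw [this, hq, hq', mul_one]

lemma continuous_qf {V : Type} [Fintype V] (A : V → V → ℝ) : Continuous (qf A) := by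
  unfold qf
  fun_prop

/-- normalising a witness -/
lemma toNW {V : Type} [Fintype V] {X : V → V → Prop} {μ : ℝ} (hμ : 0 < μ) (A : V → V → ℝ)
    (hA : ∀ i j, ¬ X i j → A i j = 0) (hP : PSD (fun i j => idm V i j + A i j))
    (x : V → ℝ) (hx : 0 < ∑ i, x i ^ 2) (hq : μ * ∑ i, x i ^ 2 ≤ qf A x) : NW X (1 / μ) := by
  have hsym : ∀ i j, A i j = A j i := fun i j => by
    have := hP.1 i j
    simp only [idm_comm i j] at this
    linarith
  set S : Set (V → ℝ) := {y | ∑ i, y i ^ 2 = 1} with hS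
  have hnorm : ∀ z : V → ℝ, 0 < ∑ i, z i ^ 2 →
      (fun i => (1 / Real.sqrt (∑ i, z i ^ 2)) * z i) ∈ S := by
    intro z hz
    simp only [hS, Set.mem_ofPred_eq, mul_pow, ← Finset.mul_sum, one_div, inv_pow,
      Real.sq_sqrt hz.le]
    exact inv_mul_cancel₀ hz.ne'
  have hSc : IsCompact S := by
    refine (isCompact_Icc (a := fun _ => (-1 : ℝ)) (b := fun _ => (1 : ℝ))).of_isClosed_subset ?_ ?_
    · exact isClosed_eq (by fun_prop) continuous_const
    · intro y hy
      have h : ∀ i, y i ^ 2 ≤ 1 := fun i => by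
        rw [← (show ∑ i, y i ^ 2 = 1 from hy)]
        exact Finset.single_le_sum (f := fun i => y i ^ 2) (fun i _ => sq_nonneg _)
          (Finset.mem_univ i)
      exact ⟨fun i => by nlinarith [h i], fun i => by nlinarith [h i]⟩
  obtain ⟨y, hyS, hy⟩ := hSc.exists_isMaxOn ⟨_, hnorm x hx⟩ (continuous_qf A).continuousOn
  set m := qf A y with hm
  have hle : ∀ z : V → ℝ, qf A z ≤ m * ∑ i, z i ^ 2 := by
    intro z
    rcases (Finset.sum_nonneg (fun i _ => sq_nonneg (z i)) : 0 ≤ ∑ i, z i ^ 2).lt_or_eq with hz | hz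
    · have h := hy (hnorm z hz)
      simp only [Set.mem_ofPred_eq] at h
      rw [qf_scale, one_div, inv_pow, Real.sq_sqrt hz.le, inv_mul_le_iff₀ hz] at h
      linarith
    · have : z = fun _ => 0 := by
        funext i
        have := (Finset.sum_eq_zero_iff_of_nonneg (fun i _ => sq_nonneg (z i))).1 hz.symm i
          (Finset.mem_univ i)
        simpa using this
      subst this
      simp [qf]
  have hμm : μ ≤ m := by
    have := hq.trans (hle x)
    exact le_of_mul_le_mul_right this hx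
  have hm0 : 0 < m := by linarith
  refine ⟨fun i j => (1 / m) * A i j, y, ?_, ?_, ?_, hyS, ?_⟩
  · intro i j h
    simp [hA i j h]
  · refine ((psd_idm.smul (c := 1 / μ - 1 / m) ?_).add (hP.smul (c := 1 / m) (by positivity))).congr ?_
    · have := one_div_le_one_div_of_le hμ hμm
      linarith
    · intro i j; ring
  · refine ⟨fun i j => by simp only [idm_comm i j, hsym i j], fun z => ?_⟩
    rw [qf_add, qf_smul, qf_smul, qf_idm]
    have := hle z
    have h2 : 1 / m * qf A z ≤ ∑ i, z i ^ 2 := by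
      rw [one_div, inv_mul_le_iff₀ hm0]; exact this
    linarith
  · rw [qf_smul, ← hm]; field_simp

end Pool.Agent.H32Z.Theta
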